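import Pool.Agent.Helper35.Skl.Fam

/-!
# Functions of knots with recurrences under full twists
-/

set_option autoImplicit false

namespace Pool.Agent.Helper35.Skl

open Pool.Agent.Helper31.Sk

universe u v

/-- For all families of knot diagrams `K k` (`k` an integer) which agree outside of a disk, in which
`K k` has `k` full twists of two strands, the sequence `p (K k)` satisfies a linear recurrence (see
`Recurrent`; it may depend on the family). -/
def TwistRecurrent (A : Type u) {N : Type v} [CommRing A] [AddCommGroup N] [Module A N]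
    (p : Word → N) : Prop :=
  ∀ (u v : Word) (a : ℕ), (∀ k : ℤ, IsKnot (u ++ tw2 a k ++ v)) →
    Recurrent A (fun k : ℤ => p (u ++ tw2 a k ++ v))

/-- The function `p` generates the knot invariant `I`: two knots have the same invariant if and only
if `p` takes the same value on them. -/
def Gener {X : Type} {N : Type v} (p : Word → N) (I : Word → X) : Prop :=
  ∀ w w', IsKnot w → IsKnot w' → (I w = I w' ↔ p w = p w')

variable {A : Type u} {N : Type v} [CommRing A] [AddCommGroup N] [Module A N]

theorem abs_un (p : Word → N) (h : TwistRecurrent A p) : ¬ Gener p un := by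
  intro H
  have h1 := h _ _ _ Gf_knot
  have h0 := rec_zero h1 (rec_const (p (Gf 1))) fun j hj =>
    (H _ _ (Gf_knot _) (Gf_knot _)).1 (by rw [Gf_un hj, Gf_un one_ne_zero])
  have h2 := (H _ _ (Gf_knot 0) (Gf_knot _)).2 h0
  rw [Gf_un one_ne_zero, un_iso Gf_zero, un_unknot] at h2
  exact absurd h2 (by norm_num)

theorem abs_ge (p : Word → N) (h : TwistRecurrent A p) : ¬ Gener p ge := by
  intro H
  have h1 := h _ _ _ Ff_knot
  have h0 := rec_zero h1 (rec_const (p (Ff 1))) fun j hj =>
    (H _ _ (Ff_knot _) (Ff_knot _)).1 (by rw [Ff_ge hj, Ff_ge one_ne_zero])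
  have h2 := (H _ _ (Ff_knot 0) (Ff_knot _)).2 h0
  rw [Ff_ge one_ne_zero, Ff_zero] at h2
  exact absurd h2 (by norm_num)

theorem abs_cr (p : Word → N) (h : TwistRecurrent A p) : ¬ Gener p cr := by
  intro H
  have h1 := h _ _ _ Ka_knot
  have h2 := h _ _ _ Kb_knot
  have h0 := rec_zero h1 h2 fun j hj => (H _ _ (Ka_knot _) (Kb_knot _)).1 (cr_K hj)
  have h3 := (H _ _ (Ka_knot 0) (Kb_knot 0)).2 h0
  have h4 := cr_Ka0
  have h5 := cr_Kb0
  omega

end Pool.Agent.Helper35.Skl
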