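import Pool.Agent.Helper35.Skl.Tri

/-!
# Smoothings and the lower bound of the crossing number
-/

set_option autoImplicit false

namespace Pool.Agent.Helper35.Skl

open Pool.Agent.Helper31.Sk

/-- the smoothing of type `t` of a piece -/
def sm1 (t : Bool) : ℕ × Gen → Word
  | (i, .pos) => if t then [(i, .cap), (i, .cup)] else []
  | (i, .neg) => if t then [] else [(i, .cap), (i, .cup)]
  | (i, .cup) => [(i, .cup)]
  | (i, .cap) => [(i, .cap)]

/-- the smoothing of type `t` of a diagram -/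
def sm (t : Bool) (w : Word) : Word := w.flatMap (sm1 t)

theorem sm_append (t : Bool) (u v : Word) : sm t (u ++ v) = sm t u ++ sm t v := by
  simp [sm]

theorem sm_cons (t : Bool) (s : ℕ × Gen) (w : Word) : sm t (s :: w) = sm1 t s ++ sm t w := by
  simp [sm]

theorem noX_sm (t : Bool) (w : Word) : NoX (sm t w) := by
  intro s hs
  obtain ⟨⟨i, g⟩, _, h⟩ := List.mem_flatMap.1 hs
  rcases g with _ | _ | _ | _ <;> cases t <;> simp [sm1] at h <;> (try rcases h with rfl | rfl) <;>
    simp_all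

theorem sm_noX (t : Bool) {w : Word} (hw : NoX w) : sm t w = w := by
  induction w with
  | nil => rfl
  | cons s w ih =>
    rw [sm_cons, ih fun s hs => hw s (List.mem_cons_of_mem _ hs)]
    obtain ⟨i, g⟩ := s
    rcases hw (i, g) (by simp) with h | h <;> simp only at h <;> subst h <;> rfl

theorem legal_sm (t : Bool) (w : Word) : ∀ m n, Legal m w n → Legal m (sm t w) n := by
  induction w with
  | nil => intro m n h; exact h
  | cons s w ih =>
    intro m n h
    obtain ⟨i, g⟩ := s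
    obtain ⟨h1, h2⟩ := h
    rw [sm_cons]
    refine legal_append.2 ⟨m - g.src + g.tgt, ?_, ih _ _ h2⟩
    rcases g with _ | _ | _ | _
    · exact ⟨h1, rfl⟩
    · exact ⟨h1, rfl⟩
    · cases t <;> simp only [sm1, Legal, Gen.src, Gen.tgt, if_true, if_false, Bool.false_eq_true] at h1 ⊢ <;> omega
    · cases t <;> simp only [sm1, Legal, Gen.src, Gen.tgt, if_true, if_false, Bool.false_eq_true] at h1 ⊢ <;> omega

theorem crossings_append (u v : Word) : crossings (u ++ v) = crossings u + crossings v := by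
  simp [crossings]

theorem crossings_cons (i : ℕ) (g : Gen) (v : Word) :
    crossings ((i, g) :: v) = (if g = .pos ∨ g = .neg then 1 else 0) + crossings v := by
  rcases g with _ | _ | _ | _ <;> simp [crossings] <;> ring

theorem exists_cross {w : Word} {c : ℕ} (h : crossings w = c + 1) :
    ∃ (u : Word) (i : ℕ) (g : Gen) (v : Word), w = u ++ (i, g) :: v ∧ (g = .pos ∨ g = .neg) ∧
      crossings (u ++ v) = c ∧ crossings (u ++ (i, .cap) :: (i, .cup) :: v) = c := by
  induction w generalizing c with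
  | nil => simp [crossings] at h
  | cons s w ih =>
    obtain ⟨i, g⟩ := s
    by_cases hg : g = .pos ∨ g = .neg
    · rw [crossings_cons, if_pos hg] at h
      refine ⟨[], i, g, w, rfl, hg, ?_, ?_⟩
      · simpa using (by omega : crossings w = c)
      · simp only [List.nil_append, crossings_cons]
        simp
        omega
    · rw [crossings_cons, if_neg hg, zero_add] at h
      obtain ⟨u, j, g', v, rfl, h2, h3, h4⟩ := ih h
      refine ⟨(i, g) :: u, j, g', v, rfl, h2, ?_, ?_⟩
      · rw [List.cons_append, crossings_cons, if_neg hg, h3, zero_add]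
      · rw [List.cons_append, crossings_cons, if_neg hg, h4, zero_add]

theorem pow_inj {a b : ℕ} (h : (2 : ℤ) ^ a = 2 ^ b) : a = b :=
  pow_right_injective₀ (by norm_num : (0 : ℤ) < 2) (by norm_num) h

theorem oF_neg {k i : ℕ} {u : Word} (hu : Legal 0 u k) (hi : i + 2 ≤ k) (v : Word) :
    oF (u ++ (i, .neg) :: v) [] = oF (u ++ (i, .pos) :: v) [] := by
  rw [oF_append, oF_append]
  refine val_congr _ hu _ _ [] rfl fun l hl => ?_
  rw [oF_cons, oF_cons, or_cross i .neg (Or.inr rfl) _ l (by omega),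
    or_cross i .pos (Or.inl rfl) _ l (by omega)]

/-- the data at a crossing -/
theorem cross_data {c : ℕ} {w : Word} (hL : Legal 0 w 0) (hc : crossings w = c + 1) :
    ∃ (u : Word) (i : ℕ) (g : Gen) (v : Word) (k : ℕ), w = u ++ (i, g) :: v ∧
      (g = .pos ∨ g = .neg) ∧ crossings (u ++ v) = c ∧
      crossings (u ++ (i, .cap) :: (i, .cup) :: v) = c ∧ Legal 0 u k ∧ i + 2 ≤ k ∧ Legal k v 0 ∧
      Legal 0 (u ++ v) 0 ∧ Legal 0 (u ++ (i, .cap) :: (i, .cup) :: v) 0 := by
  obtain ⟨u, i, g, v, rfl, hg, h1, h2⟩ := exists_cross hc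
  obtain ⟨k, hu, h3, h4⟩ := legal_append.1 hL
  have hi : i + 2 ≤ k := by
    rcases hg with rfl | rfl <;> simpa [Gen.src] using h3
  have hk : k - g.src + g.tgt = k := by
    rcases hg with rfl | rfl <;> simp only [Gen.src, Gen.tgt] <;> omega
  rw [hk] at h4
  refine ⟨u, i, g, v, k, rfl, hg, h1, h2, hu, hi, h4, legal_append.2 ⟨k, hu, h4⟩,
    legal_append.2 ⟨k, hu, ⟨by simpa [Gen.src] using hi, ⟨by simp only [Gen.src, Gen.tgt]; omega, ?_⟩⟩⟩⟩
  have e : k - Gen.cap.src + Gen.cap.tgt - Gen.cup.src + Gen.cup.tgt = k := by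
    simp only [Gen.src, Gen.tgt]; omega
  rw [e]
  exact h4

theorem near {k i : ℕ} {u v : Word} (hu : Legal 0 u k) (hi : i + 2 ≤ k) (hv : Legal k v 0)
    {n n' : ℕ} (h : oF (u ++ v) [] = 2 ^ n) (h' : oF (u ++ (i, .cap) :: (i, .cup) :: v) [] = 2 ^ n') :
    n ≤ n' + 1 ∧ n' ≤ n + 1 := by
  obtain ⟨m, h1⟩ := tri hu hi hv
  rw [h, h'] at h1
  rcases h1 with ⟨h2, _, h3⟩ | ⟨h2, _, h3⟩ | ⟨h2, _, h3⟩
  · have := pow_inj h2
    have := pow_inj h3
    omega
  · have := pow_inj h2
    have := pow_inj h3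
    omega
  · have := pow_inj h2
    have := pow_inj h3
    omega

theorem sm_E (t : Bool) (u v : Word) (i : ℕ) : sm t (u ++ (i, .cap) :: (i, .cup) :: v) =
    sm t u ++ (i, .cap) :: (i, .cup) :: sm t v := by
  rw [sm_append, sm_cons, sm_cons]
  rfl

/-- the sum of the numbers of components of the two extreme smoothings -/
theorem ab_bound (c : ℕ) : ∀ w : Word, Legal 0 w 0 → crossings w = c → ∀ nA nB m : ℕ,
    oF (sm true w) [] = 2 ^ nA → oF (sm false w) [] = 2 ^ nB → oF w [] = 2 ^ m →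
    nA + nB ≤ c + 2 * m := by
  induction c with
  | zero =>
    intro w _ hc nA nB m hA hB hm
    have hX := crossings_zero hc
    rw [sm_noX _ hX] at hA hB
    rw [hA] at hm hB
    have := pow_inj hm
    have := pow_inj hB
    omega
  | succ c ih =>
    intro w hL hc nA nB m hA hB hm
    obtain ⟨u, i, g, v, k, rfl, hg, c1, c2, hu, hi, hv, l1, l2⟩ := cross_data hL hc
    obtain ⟨mI, hmI⟩ := pow_word l1
    obtain ⟨mE, hmE⟩ := pow_word l2
    have hmin : mI ≤ m ∨ mE ≤ m := by
      have hm' : oF (u ++ (i, .pos) :: v) [] = 2 ^ m := by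
        rcases hg with rfl | rfl
        · exact hm
        · rw [← oF_neg hu hi]; exact hm
      obtain ⟨m', h1⟩ := tri hu hi hv
      rw [hmI, hmE, hm'] at h1
      rcases h1 with ⟨h2, h3, h4⟩ | ⟨h2, h3, h4⟩ | ⟨h2, h3, h4⟩ <;>
      · have := pow_inj h2
        have := pow_inj h3
        have := pow_inj h4
        omega
    have hsu := fun t => legal_sm t u _ _ hu
    have hsv := fun t => legal_sm t v _ _ hv
    obtain ⟨tI, htI⟩ := pow_word (legal_sm true _ _ _ l1)
    obtain ⟨tE, htE⟩ := pow_word (legal_sm true _ _ _ l2)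
    obtain ⟨fI, hfI⟩ := pow_word (legal_sm false _ _ _ l1)
    obtain ⟨fE, hfE⟩ := pow_word (legal_sm false _ _ _ l2)
    have iI := ih _ l1 c1 tI fI mI htI hfI hmI
    have iE := ih _ l2 c2 tE fE mE htE hfE hmE
    have nt := near (hsu true) hi (hsv true) (by rw [← sm_append]; exact htI)
      (by rw [← sm_E]; exact htE)
    have nf := near (hsu false) hi (hsv false) (by rw [← sm_append]; exact hfI)
      (by rw [← sm_E]; exact hfE)
    rcases hg with rfl | rfl
    · have e1 : sm true (u ++ (i, .pos) :: v) = sm true (u ++ (i, .cap) :: (i, .cup) :: v) := by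
        rw [sm_E, sm_append, sm_cons]; rfl
      have e2 : sm false (u ++ (i, .pos) :: v) = sm false (u ++ v) := by
        rw [sm_append, sm_append, sm_cons]; rfl
      rw [e1, htE] at hA
      rw [e2, hfI] at hB
      have := pow_inj hA
      have := pow_inj hB
      omega
    · have e1 : sm false (u ++ (i, .neg) :: v) = sm false (u ++ (i, .cap) :: (i, .cup) :: v) := by
        rw [sm_E, sm_append, sm_cons]; rfl
      have e2 : sm true (u ++ (i, .neg) :: v) = sm true (u ++ v) := by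
        rw [sm_append, sm_append, sm_cons]; rfl
      rw [e1, hfE] at hB
      rw [e2, htI] at hA
      have := pow_inj hA
      have := pow_inj hB
      omega

/-! ### integrality -/

/-- `19` or `1 / 19` -/
def aa (t : Bool) : ℚ := if t then 19 else 1 / 19

theorem aa_mul (t : Bool) : aa t * aa (!t) = 1 := by cases t <;> norm_num [aa]

/-- the diagram is `19 ^ (-N)` times an integer -/
def Int19 (N : ℕ) (x : ℚ) : Prop := ∃ z : ℤ, (19 : ℚ) ^ N * x = z

theorem Int19.mono {N M : ℕ} {x : ℚ} (h : Int19 N x) (hNM : N ≤ M) : Int19 M x := by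
  obtain ⟨z, hz⟩ := h
  obtain ⟨d, rfl⟩ := Nat.exists_eq_add_of_le hNM
  refine ⟨19 ^ d * z, ?_⟩
  push_cast
  rw [← hz]
  ring

theorem Int19.mul {N M : ℕ} {x y : ℚ} (h : Int19 N x) (h' : Int19 M y) : Int19 (N + M) (x * y) := by
  obtain ⟨z, hz⟩ := h
  obtain ⟨z', hz'⟩ := h'
  refine ⟨z * z', ?_⟩
  push_cast
  rw [← hz, ← hz']
  ring

theorem int19_step {N : ℕ} {x y : ℚ} (hx : Int19 N x) (hy : Int19 (N + 2) y) :
    Int19 (N + 1) (19 * y - 1 / 19 * x) ∧ Int19 (N + 1) (1 / 19 * x - 19 * y) := by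
  obtain ⟨z, hz⟩ := hx
  obtain ⟨z', hz'⟩ := hy
  refine ⟨⟨z' - z, ?_⟩, ⟨z - z', ?_⟩⟩
  · push_cast
    rw [← hz, ← hz']
    ring
  · push_cast
    rw [← hz, ← hz']
    ring

theorem integ (t : Bool) (c : ℕ) : ∀ w : Word, Legal 0 w 0 → crossings w = c → ∀ n : ℕ,
    oF (sm t w) [] = 2 ^ n → Int19 (c + 2 * n) (bk (aa t) (aa (!t)) w) := by
  induction c with
  | zero =>
    intro w hL hc n hn
    have hX := crossings_zero hc
    rw [sm_noX _ hX] at hn
    obtain ⟨n', h1, h2⟩ := bk_noX (aa_mul t) hX hL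
    rw [h1] at hn
    have := pow_inj hn
    subst this
    rw [h2, zero_add]
    refine ⟨(19 ^ 4 + 1) ^ n', ?_⟩
    have e : aa t ^ 2 + aa (!t) ^ 2 = 19 ^ 2 + (1 / 19) ^ 2 := by
      cases t <;> norm_num [aa]
    rw [e, pow_mul, ← mul_pow]
    push_cast
    congr 1
    norm_num
  | succ c ih =>
    intro w hL hc n hn
    obtain ⟨u, i, g, v, k, rfl, hg, c1, c2, hu, hi, hv, l1, l2⟩ := cross_data hL hc
    have hsu := legal_sm t u _ _ hu
    have hsv := legal_sm t v _ _ hv
    obtain ⟨nI, hnI⟩ := pow_word (legal_sm t _ _ _ l1)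
    obtain ⟨nE, hnE⟩ := pow_word (legal_sm t _ _ _ l2)
    have iI := ih _ l1 c1 nI hnI
    have iE := ih _ l2 c2 nE hnE
    have nr := near hsu hi hsv (by rw [← sm_append]; exact hnI) (by rw [← sm_E]; exact hnE)
    have e0 : c + 1 + 2 * n = (c + 2 * n) + 1 := by ring
    rw [e0]
    rcases hg with rfl | rfl
    · rw [bk_pos hu hi]
      cases t
      · have e2 : sm false (u ++ (i, .pos) :: v) = sm false (u ++ v) := by
          rw [sm_append, sm_append, sm_cons]; rfl
        rw [e2, hnI] at hn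
        have := pow_inj hn
        subst this
        exact (int19_step iI (iE.mono (by omega))).2
      · have e1 : sm true (u ++ (i, .pos) :: v) = sm true (u ++ (i, .cap) :: (i, .cup) :: v) := by
          rw [sm_E, sm_append, sm_cons]; rfl
        rw [e1, hnE] at hn
        have := pow_inj hn
        subst this
        exact (int19_step iE (iI.mono (by omega))).1
    · rw [bk_neg hu hi]
      cases t
      · have e1 : sm false (u ++ (i, .neg) :: v) = sm false (u ++ (i, .cap) :: (i, .cup) :: v) := by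
          rw [sm_E, sm_append, sm_cons]; rfl
        rw [e1, hnE] at hn
        have := pow_inj hn
        subst this
        exact (int19_step iE (iI.mono (by omega))).1
      · have e2 : sm true (u ++ (i, .neg) :: v) = sm true (u ++ v) := by
          rw [sm_append, sm_append, sm_cons]; rfl
        rw [e2, hnI] at hn
        have := pow_inj hn
        subst this
        exact (int19_step iI (iE.mono (by omega))).2

/-! ### the isotopy invariant -/

/-- the product of the bracket at `19` and at `1 / 19` -/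
def Q (w : Word) : ℚ := bk 19 (1 / 19) w * bk (1 / 19) 19 w

theorem Q_bound {w : Word} (hK : IsKnot w) : Int19 (4 * crossings w + 4) (Q w) := by
  have hL := hK.1
  obtain ⟨nA, hA⟩ := pow_word (legal_sm true _ _ _ hL)
  obtain ⟨nB, hB⟩ := pow_word (legal_sm false _ _ _ hL)
  have h1 := integ true _ w hL rfl nA hA
  have h2 := integ false _ w hL rfl nB hB
  have h3 := ab_bound _ w hL rfl nA nB 1 hA hB (by rw [(isKnot_iff hL).1 hK]; norm_num)
  exact (h1.mul h2).mono (by omega)

theorem bk_map {R S : Type} [CommRing R] [CommRing S] (f : R →+* S) (a b : R) (w : Word) :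
    f (bk a b w) = bk (f a) (f b) w := by
  unfold bk
  rw [val_map]
  simp

theorem bk_iso {R : Type} [CommRing R] {a b : R} (hab : a * b = 1) {w w' : Word}
    (h : Iso 0 0 w w') : ∃ c, IsU a b c ∧ bk a b w = c * bk a b w' := by
  obtain ⟨c, hc, h1⟩ := iso_val (good_br a b hab) h
  exact ⟨c, hc, h1 _ [] rfl⟩

theorem Q_iso {w w' : Word} (h : Iso 0 0 w w') : Q w = Q w' := by
  obtain ⟨a, ha⟩ : ∃ a : ℚ × ℚ, a = (19, 1 / 19) := ⟨_, rfl⟩
  obtain ⟨b, hb⟩ : ∃ b : ℚ × ℚ, b = (1 / 19, 19) := ⟨_, rfl⟩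
  have a1 : a.1 = 19 := by rw [ha]
  have a2 : a.2 = 1 / 19 := by rw [ha]
  have b1 : b.1 = 1 / 19 := by rw [hb]
  have b2 : b.2 = 19 := by rw [hb]
  have hab : a * b = 1 := by
    refine Prod.ext ?_ ?_
    · rw [Prod.fst_mul, a1, b1]; norm_num
    · rw [Prod.snd_mul, a2, b2]; norm_num
  obtain ⟨c, ⟨s, i, j, hc⟩, h2⟩ := bk_iso hab h
  have hQ : ∀ w, Q w = (bk a b w).1 * (bk a b w).2 := by
    intro w
    have f1 : (bk a b w).1 = bk a.1 b.1 w := bk_map (RingHom.fst ℚ ℚ) a b w
    have f2 : (bk a b w).2 = bk a.2 b.2 w := bk_map (RingHom.snd ℚ ℚ) a b w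
    rw [f1, f2, a1, a2, b1, b2]
    rfl
  have h3 : c.1 * c.2 = 1 := by
    have g1 : c.1 = (-1) ^ s * 19 ^ (3 * i) * (1 / 19) ^ (3 * j) := by
      rw [hc, Prod.fst_mul, Prod.fst_mul, Prod.pow_fst, Prod.pow_fst, Prod.pow_fst, a1, b1]
      rfl
    have g2 : c.2 = (-1) ^ s * (1 / 19) ^ (3 * i) * 19 ^ (3 * j) := by
      rw [hc, Prod.snd_mul, Prod.snd_mul, Prod.pow_snd, Prod.pow_snd, Prod.pow_snd, a2, b2]
      rfl
    have : ((-1 : ℚ) ^ s * 19 ^ (3 * i) * (1 / 19) ^ (3 * j)) *
        ((-1) ^ s * (1 / 19) ^ (3 * i) * 19 ^ (3 * j)) =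
        ((-1) ^ s * (-1) ^ s) * ((19 * (1 / 19)) ^ (3 * i) * ((1 / 19) * 19) ^ (3 * j)) := by
      rw [mul_pow, mul_pow]; ring
    rw [g1, g2, this, ← mul_pow]
    norm_num
  rw [hQ, hQ, h2, Prod.fst_mul, Prod.snd_mul]
  linear_combination ((bk a b w').1 * (bk a b w').2) * h3

theorem cr_ge {w : Word} (hK : IsKnot w) {N : ℕ} (hN : ¬ Int19 (4 * N) (Q w)) : N ≤ cr w := by
  have hne : {k | ∃ w', Iso 0 0 w w' ∧ crossings w' = k}.Nonempty :=
    ⟨_, w, iso_refl _ _ _, rfl⟩
  obtain ⟨w', h1, h2⟩ := Nat.sInf_mem hne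
  by_contra hlt
  rw [not_le] at hlt
  have h2' : crossings w' = cr w := h2
  refine hN ?_
  rw [Q_iso h1]
  exact (Q_bound ((iso_isKnot h1).1 hK)).mono (by omega)

theorem cr_le {w w' : Word} (h : Iso 0 0 w w') : cr w ≤ crossings w' :=
  Nat.sInf_le ⟨w', h, rfl⟩

theorem not_unknot {w : Word} (hN : ¬ Int19 4 (Q w)) : ¬ Iso 0 0 w unknot := by
  intro h
  refine hN ?_
  rw [Q_iso h]
  have h0 : crossings unknot = 0 := by decide
  have h1 := Q_bound isKnot_unknot
  rw [h0, Nat.mul_zero, Nat.zero_add] at h1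
  exact h1

end Pool.Agent.Helper35.Skl
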