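import Pool.Agent.Helper31.Sk.Defs

/-!
# Linear skein relations (MP_c65973_gt): definitions

Linear recurrences; oriented diagrams; skein modules of unoriented and of oriented tangles.
-/

set_option autoImplicit false

namespace Pool.Agent.Helper35.Skl

open Pool.Agent.Helper31.Sk

universe u v

/-! ### recurrences -/

/-- The sequence `x` of elements of an `A`-module satisfies a linear recurrence
`∑ i < m, c i x (j + i) = 0` (for all the integers `j`), such that only the element `0` of the module
is annihilated by all the coefficients `c i`. -/
def Recurrent (A : Type u) {N : Type v} [CommRing A] [AddCommGroup N] [Module A N] (x : ℤ → N) :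
    Prop :=
  ∃ (m : ℕ) (c : Fin m → A), (∀ y : N, (∀ i, c i • y = 0) → y = 0) ∧
    ∀ j : ℤ, ∑ i : Fin m, c i • x (j + (i : ℕ)) = 0

/-- Some of the elements `f 0`, `f 1`, `f 2`, ... of an `A`-module satisfy a linear relation
`∑ i < m, c i f i = 0`, such that the coefficients `c i` generate the unit ideal of `A`. -/
def LinRel (A : Type u) {N : Type v} [CommRing A] [AddCommGroup N] [Module A N] (f : ℕ → N) : Prop :=
  ∃ (m : ℕ) (c : Fin m → A), Ideal.span (Set.range c) = ⊤ ∧ ∑ i : Fin m, c i • f i = 0

/-! ### oriented diagrams -/

/-- An oriented diagram: the list, from the bottom to the top, of its elementary pieces, each of them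
together with the list of the directions (`true` is up, `false` is down) of the strands above it. -/
abbrev OWord := List ((ℕ × Gen) × List Bool)

/-- `LegalO l W l'`: `W` is an oriented tangle diagram, the directions of its ends at the bottom are
`l`, the directions of its ends at the top are `l'`. -/
def LegalO : List Bool → OWord → List Bool → Prop
  | l, [], l' => l = l'
  | l, (s, d) :: W, l' => d ∈ passes s.1 s.2 l ∧ LegalO d W l'

/-- The diagram without its orientation. -/
def und (W : OWord) : Word := W.map Prod.fst

/-- Put further strands with the directions `l` to the left and `r` to the right of the oriented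
tangle diagram. -/
def shiftO (l r : List Bool) (W : OWord) : OWord :=
  W.map (fun s => ((s.1.1 + l.length, s.1.2), l ++ s.2 ++ r))

/-- `k` full twists of two strands with opposite directions, the left one has the direction `x`:
`2 |k|` crossings of the same kind, `pos` for `k ≥ 0` and `neg` for `k < 0`. -/
def twO (x : Bool) (k : ℤ) : OWord :=
  (List.replicate k.natAbs [((0, if 0 ≤ k then Gen.pos else Gen.neg), [!x, x]),
    ((0, if 0 ≤ k then Gen.pos else Gen.neg), [x, !x])]).flatten

/-- For all families of oriented knot diagrams `K k` (`k` an integer) which agree outside of a disk,
in which `K k` has `k` full twists of two strands with opposite directions (the left one has the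
direction `x`), the sequence `p (K k)` satisfies a linear recurrence (see `Recurrent`; it may depend
on the family). -/
def TwistRecurrentO (A : Type u) {N : Type v} [CommRing A] [AddCommGroup N] [Module A N] (x : Bool)
    (p : OWord → N) : Prop :=
  ∀ (U V : OWord) (l r : List Bool), LegalO [] U (l ++ [x, !x] ++ r) →
    LegalO (l ++ [x, !x] ++ r) V [] →
    (∀ k : ℤ, IsKnot (und (U ++ shiftO l r (twO x k) ++ V))) →
    Recurrent A (fun k : ℤ => p (U ++ shiftO l r (twO x k) ++ V))

/-- The function `p` generates the knot invariant `I`: two oriented knots have the same invariant if
and only if `p` takes the same value on them. -/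
def GenerO {X : Type} {N : Type v} (p : OWord → N) (I : Word → X) : Prop :=
  ∀ W W', LegalO [] W [] → LegalO [] W' [] → IsKnot (und W) → IsKnot (und W') →
    (I (und W) = I (und W') ↔ p W = p W')

/-- The function `p` of oriented knot diagrams generates none of the three invariants crossing
number, unknotting number and genus. -/
def GenNone {N : Type v} (p : OWord → N) : Prop := ¬ GenerO p cr ∧ ¬ GenerO p un ∧ ¬ GenerO p ge

/-! ### skein modules of unoriented tangles -/

/-- `A`-linear combinations of diagrams. -/
abbrev Lin (A : Type u) [CommRing A] := Word →₀ A

/-- Sets of local moves with coefficients in `A`: an element `(k, S, T)` of such a set consists of two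
linear combinations `S` and `T` of `k`-tangles (all the `2 k` ends are at the top). -/
abbrev Moves (A : Type u) [CommRing A] := Set (ℕ × Lin A × Lin A)

section
variable {A : Type u} [CommRing A]

/-- Insertion of a tangle `w` in a diagram (below it is `u`, above it is `v`, to the left of it are
`a` strands), extended linearly to the linear combinations of tangles. -/
noncomputable def ins (u : Word) (a : ℕ) (v : Word) : Lin A →ₗ[A] Lin A :=
  Finsupp.lmapDomain A A (fun w => u ++ shift a w ++ v)

/-- The relations between linear combinations of tangles with `m` ends at the bottom and `n` ends at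
the top which are generated by isotopy and by the moves of `M`. -/
noncomputable def Rel (M : Moves A) (m n : ℕ) : Submodule A (Lin A) :=
  Submodule.span A
    ({x | ∃ w w' : Word, Iso m n w w' ∧ x = Finsupp.single w 1 - Finsupp.single w' 1} ∪
      {x | ∃ (k : ℕ) (S T : Lin A) (u v : Word) (l a : ℕ), (k, S, T) ∈ M ∧ Legal m u l ∧
        a ≤ l ∧ Legal (l + 2 * k) v n ∧ x = ins u a v (S - T)})

/-- The class of a tangle in the skein module. -/
noncomputable def sk (M : Moves A) (m n : ℕ) (w : Word) : Lin A ⧸ Rel M m n :=
  (Rel M m n).mkQ (Finsupp.single w 1)

/-- The powers of the half twist of the first two of `n` strands satisfy a linear relation in the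
skein module, such that its coefficients generate the unit ideal. -/
def HalfTwistRel (M : Moves A) (n : ℕ) : Prop :=
  LinRel A (fun i => sk M n n (List.replicate i (0, .pos)))

/-- The skein module of the unoriented tangles with `n` ends at the bottom and `n` ends at the top is
finitely generated. -/
def FinGen (M : Moves A) (n : ℕ) : Prop :=
  (Submodule.span A {y | ∃ w, Legal n w n ∧ y = sk M n n w}).FG

end

/-! ### skein modules of oriented tangles -/

/-- One elementary isotopy inside an oriented diagram. -/
inductive StepO (e e' : List Bool) : OWord → OWord → Prop
  | mk (U X Y V : OWord) (d d' : List Bool) : Elem (und X) (und Y) → LegalO e U d → LegalO d X d' →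
      LegalO d Y d' → LegalO d' V e' → StepO e e' (U ++ X ++ V) (U ++ Y ++ V)

/-- Isotopy of oriented tangle diagrams. -/
def IsoO (e e' : List Bool) : OWord → OWord → Prop := Relation.EqvGen (StepO e e')

/-- `A`-linear combinations of oriented diagrams. -/
abbrev LinO (A : Type u) [CommRing A] := OWord →₀ A

/-- Sets of oriented local moves with coefficients in `A`: an element `(o, S, T)` of such a set
consists of two linear combinations `S` and `T` of oriented tangles with the directions `o` of the
ends (all the ends are at the top). -/
abbrev MovesO (A : Type u) [CommRing A] := Set (List Bool × LinO A × LinO A)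

section
variable {A : Type u} [CommRing A]

/-- Insertion of an oriented tangle `W` in an oriented diagram (below it is `U`, above it is `V`, to
the left and to the right of it are strands with the directions `l` and `r`), extended linearly. -/
noncomputable def insO (U : OWord) (l r : List Bool) (V : OWord) : LinO A →ₗ[A] LinO A :=
  Finsupp.lmapDomain A A (fun W => U ++ shiftO l r W ++ V)

/-- The relations between linear combinations of oriented tangles with the directions `e` of the ends
at the bottom and `e'` of the ends at the top which are generated by isotopy and by the moves of `M`.
-/
noncomputable def RelO (M : MovesO A) (e e' : List Bool) : Submodule A (LinO A) :=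
  Submodule.span A
    ({x | ∃ W W' : OWord, IsoO e e' W W' ∧ x = Finsupp.single W 1 - Finsupp.single W' 1} ∪
      {x | ∃ (o : List Bool) (S T : LinO A) (U V : OWord) (l r : List Bool), (o, S, T) ∈ M ∧
        LegalO e U (l ++ r) ∧ LegalO (l ++ o ++ r) V e' ∧ x = insO U l r V (S - T)})

/-- The class of an oriented tangle in the skein module. -/
noncomputable def skO (M : MovesO A) (e e' : List Bool) (W : OWord) : LinO A ⧸ RelO M e e' :=
  (RelO M e e').mkQ (Finsupp.single W 1)

/-- The powers of the full twist of two strands with opposite directions (the left one has the
direction `x`) satisfy a linear relation in the skein module, such that its coefficients generate the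
unit ideal. -/
def FullTwistRel (M : MovesO A) (x : Bool) : Prop :=
  LinRel A (fun i => skO M [x, !x] [x, !x] (twO x (i : ℕ)))

/-- The skein module of the oriented tangles with two ends with the directions `x` and `!x` at the
bottom and two ends with the directions `x` and `!x` at the top is finitely generated. -/
def FinGenO (M : MovesO A) (x : Bool) : Prop :=
  (Submodule.span A {y | ∃ W, LegalO [x, !x] W [x, !x] ∧ y = skO M [x, !x] [x, !x] W}).FG

end

end Pool.Agent.Helper35.Skl
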