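import Pool.Agent.Helper35.Skl.Isos

/-!
# Three families of knots with full twists
-/

set_option autoImplicit false

namespace Pool.Agent.Helper35.Skl

open Pool.Agent.Helper31.Sk

/-- `k` full twists of the strands number `a` and `a + 1` (counted from the left, the first one has
number `0`): `2 |k|` crossings of the same kind, `pos` for `k ≥ 0` and `neg` for `k < 0`. -/
def tw2 (a : ℕ) (k : ℤ) : Word := List.replicate (2 * k.natAbs) (a, if 0 ≤ k then .pos else .neg)

theorem ite_cross (k : ℤ) : (if 0 ≤ k then Gen.pos else Gen.neg) = .pos ∨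
    (if 0 ≤ k then Gen.pos else Gen.neg) = .neg := by
  by_cases h : 0 ≤ k <;> simp [h]

theorem legal_tw2 {m a : ℕ} (h : a + 2 ≤ m) (k : ℤ) : Legal m (tw2 a k) m :=
  legal_rep (ite_cross k) h _

theorem or_rep {a : ℕ} {g : Gen} (hg : g = .pos ∨ g = .neg) (φ : List Bool → ℤ) (n : ℕ) :
    ∀ l : List Bool, a + 2 ≤ l.length →
      val (Helper31.Sk.Or ℤ) (List.replicate (2 * n) (a, g)) φ l = φ l := by
  induction n with
  | zero => intro l _; rfl
  | succ n ih =>
    intro l hl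
    have e : List.replicate (2 * (n + 1)) (a, g) = (a, g) :: (a, g) :: List.replicate (2 * n) (a, g) := by
      rw [show 2 * (n + 1) = 2 * n + 1 + 1 by ring, List.replicate_succ, List.replicate_succ]
    rw [e]
    simp only [val_cons]
    rw [or_cross a g hg _ l hl]
    have e2 : act (Helper31.Sk.Or ℤ) a g (val (Helper31.Sk.Or ℤ) (List.replicate (2 * n) (a, g)) φ)
        (swp a l) = val (Helper31.Sk.Or ℤ) (List.replicate (2 * n) (a, g)) φ (swp a (swp a l)) :=
      or_cross a g hg _ _ (by rw [length_swp]; exact hl)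
    rw [val_cons, e2, swp_swp, ih l hl]

/-- full twists do not change the number of components -/
theorem oF_tw2 {u v : Word} {n a : ℕ} (hu : Legal 0 u n) (ha : a + 2 ≤ n) (k : ℤ) :
    oF (u ++ tw2 a k ++ v) [] = oF (u ++ v) [] := by
  rw [List.append_assoc, oF_append u, oF_append u v]
  refine val_congr (Helper31.Sk.Or ℤ) hu _ _ [] rfl fun l hl => ?_
  rw [oF_append]
  exact or_rep (ite_cross k) _ _ l (by omega)

theorem isKnot_tw2 {u v : Word} {n a : ℕ} (hu : Legal 0 u n) (ha : a + 2 ≤ n) (hv : Legal n v 0)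
    (h : oF (u ++ v) [] = 2) (k : ℤ) : IsKnot (u ++ tw2 a k ++ v) := by
  have hL : Legal 0 (u ++ tw2 a k ++ v) 0 := by
    rw [List.append_assoc]
    exact legal_append.2 ⟨n, hu, legal_append.2 ⟨n, legal_tw2 ha k, hv⟩⟩
  rw [isKnot_iff hL, oF_tw2 hu ha, h]

/-! ### sliding of twists -/

theorem slide {m m' a a' : ℕ} {g : Gen} {L : Word} (hg : g = .pos ∨ g = .neg) (ha : a + 2 ≤ m)
    (ha' : a' + 2 ≤ m') (hL : Legal m L m') (h : Iso m m' ((a, g) :: L) (L ++ [(a', g)])) (n : ℕ) :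
    Iso m m' (List.replicate n (a, g) ++ L) (L ++ List.replicate n (a', g)) := by
  induction n with
  | zero => simpa using iso_refl m m' L
  | succ n ih =>
    have e1 : List.replicate (n + 1) (a, g) ++ L = [(a, g)] ++ (List.replicate n (a, g) ++ L) := by
      rw [List.replicate_succ]; rfl
    have e2 : L ++ List.replicate (n + 1) (a', g) = (L ++ [(a', g)]) ++ List.replicate n (a', g) := by
      rw [List.replicate_succ]; simp
    rw [e1, e2]
    have hl1 : Legal m [(a, g)] m := legal_rep hg ha 1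
    refine iso_trans (iso_left ih hl1) ?_
    have := iso_right h (legal_rep hg ha' n)
    simpa using this

theorem slide2 {m m' a a' : ℕ} {L : Word} (ha : a + 2 ≤ m) (ha' : a' + 2 ≤ m') (hL : Legal m L m')
    (h : ∀ g : Gen, g = .pos ∨ g = .neg → Iso m m' ((a, g) :: L) (L ++ [(a', g)])) (k : ℤ) :
    Iso m m' (tw2 a k ++ L) (L ++ tw2 a' k) :=
  slide (ite_cross k) ha ha' hL (h _ (ite_cross k)) _

theorem r1_rep {m a : ℕ} {g : Gen} (hg : g = .pos ∨ g = .neg) (ha : a + 2 ≤ m) (n : ℕ) :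
    Iso m (m - 2) (List.replicate n (a, g) ++ [(a, .cap)]) [(a, .cap)] := by
  have hc : Legal m [(a, .cap)] (m - 2) := ⟨by simpa [Gen.src] using ha, by
    simp [Legal, Gen.src, Gen.tgt]⟩
  induction n with
  | zero => exact iso_refl _ _ _
  | succ n ih =>
    rw [List.replicate_succ', List.append_assoc]
    have h1 : Iso m (m - 2) ([(a, g)] ++ [(a, .cap)]) [(a, .cap)] := by
      have hl : Legal m ([(a, g)] ++ [(a, .cap)]) (m - 2) :=
        legal_append.2 ⟨m, legal_rep hg ha 1, hc⟩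
      rcases hg with rfl | rfl
      · exact iso_elem (Elem.r1capP a) hl hc
      · exact iso_elem (Elem.r1capN a) hl hc
    exact iso_trans (iso_left h1 (legal_rep hg ha n)) ih

/-! ### invariance -/

theorem un_iso {w w' : Word} (h : Iso 0 0 w w') : un w = un w' := by
  unfold un
  congr 1
  ext k
  constructor
  · rintro ⟨j, x, y, hk, h1, h2, h3⟩
    exact ⟨j, x, y, hk, iso_trans (iso_symm h) h1, h2, h3⟩
  · rintro ⟨j, x, y, hk, h1, h2, h3⟩
    exact ⟨j, x, y, hk, iso_trans h h1, h2, h3⟩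

theorem ge_iso {w w' : Word} (h : Iso 0 0 w w') : ge w = ge w' := by
  unfold ge
  congr 1
  ext k
  constructor
  · rintro ⟨j, t, hk, h1, h2⟩
    exact ⟨j, t, hk, h1, iso_trans (iso_symm h) h2⟩
  · rintro ⟨j, t, hk, h1, h2⟩
    exact ⟨j, t, hk, h1, iso_trans h h2⟩

theorem un_unknot : un unknot = 0 := by
  refine le_antisymm (sInf_le ?_) zero_le
  exact ⟨0, unknot, unknot, rfl, iso_refl _ _ _, changes_refl _, iso_refl _ _ _⟩

theorem ge_unknot : ge unknot = 0 := by
  refine le_antisymm (sInf_le ?_) zero_le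
  exact ⟨0, [], rfl, rfl, iso_refl _ _ _⟩

theorem changes_mid (u v : Word) (i : ℕ) (g : Gen) (hg : g = .pos ∨ g = .neg) :
    Changes (u ++ (i, g) :: v) (u ++ (i, g.flip) :: v) 1 := by
  induction u with
  | nil => exact Changes.chg i g v v 0 hg (changes_refl v)
  | cons s u ih => exact Changes.keep s _ _ 1 ih

/-! ### the family for the unknotting number -/

/-- twist knots -/
def Gf (k : ℤ) : Word :=
  [(0, .cup), (0, .cup)] ++ tw2 1 k ++ [(2, .pos), (2, .pos), (1, .cap), (0, .cap)]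

theorem sgn_neg (t : ℕ) : tw2 1 (-((t + 1 : ℕ) : ℤ)) = List.replicate (2 * (t + 1)) (1, .neg) := by
  unfold tw2
  have h1 : ¬ (0 : ℤ) ≤ -((t + 1 : ℕ) : ℤ) := by omega
  rw [if_neg h1, Int.natAbs_neg, Int.natAbs_natCast]

theorem sgn_pos (t : ℕ) : tw2 1 ((t + 1 : ℕ) : ℤ) = List.replicate (2 * (t + 1)) (1, .pos) := by
  unfold tw2
  have h1 : (0 : ℤ) ≤ ((t + 1 : ℕ) : ℤ) := by omega
  rw [if_pos h1, Int.natAbs_natCast]

theorem cases_int {k : ℤ} (hk : k ≠ 0) : (∃ t : ℕ, k = -((t + 1 : ℕ) : ℤ)) ∨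
    ∃ t : ℕ, k = ((t + 1 : ℕ) : ℤ) := by
  rcases lt_or_gt_of_ne hk with h | h
  · exact Or.inl ⟨(-k).toNat - 1, by omega⟩
  · exact Or.inr ⟨k.toNat - 1, by omega⟩

theorem Gf_knot (k : ℤ) : IsKnot (Gf k) :=
  isKnot_tw2 (n := 4) (legal_of rfl) (by omega) (legal_of rfl) (by rw [oF_eq]; rfl) k

theorem Gf_zero : Iso 0 0 (Gf 0) unknot := iso_G0

theorem Gf_ne {k : ℤ} (hk : k ≠ 0) : ¬ Iso 0 0 (Gf k) unknot := by
  rcases cases_int hk with ⟨t, rfl⟩ | ⟨t, rfl⟩
  · have e : Gf (-((t + 1 : ℕ) : ℤ)) = Dk (2 * (t + 1)) .neg (2 * (0 + 1)) := by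
      unfold Gf Dk
      rw [sgn_neg, List.append_assoc]
      rfl
    rw [e]
    exact not_unknot (Q_Dk (Or.inr rfl) t 0)
  · have e : Gf ((t + 1 : ℕ) : ℤ) = Dk (2 * (t + 1)) .pos (2 * (0 + 1)) := by
      unfold Gf Dk
      rw [sgn_pos, List.append_assoc]
      rfl
    rw [e]
    exact not_unknot (Q_Dk (Or.inl rfl) t 0)

theorem Gf_un_le (k : ℤ) : un (Gf k) ≤ 1 := by
  refine sInf_le ⟨1, Gf k, [(0, .cup), (0, .cup)] ++ tw2 1 k ++
    [(2, .neg), (2, .pos), (1, .cap), (0, .cap)], rfl, iso_refl _ _ _, ?_, ?_⟩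
  · exact changes_mid ([(0, .cup), (0, .cup)] ++ tw2 1 k) [(2, .pos), (1, .cap), (0, .cap)] 2 .pos
      (Or.inl rfl)
  · have h1 : Iso 4 0 [(2, .neg), (2, .pos), (1, .cap), (0, .cap)] [(1, .cap), (0, .cap)] :=
      stp 0 (Or.inl (Elem.r2N 2)) rfl rfl rfl
    have h2 := iso_left h1 (u := [(0, .cup), (0, .cup)] ++ tw2 1 k) (k := 0)
      (legal_append.2 ⟨4, legal_of rfl, legal_tw2 (by omega) k⟩)
    refine iso_trans h2 ?_
    have h3 : Iso 4 2 (tw2 1 k ++ [(1, .cap)]) [(1, .cap)] := r1_rep (ite_cross k) (by omega) _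
    have h4 := iso_ctx h3 (u := [(0, .cup), (0, .cup)]) (v := [(0, .cap)]) (k := 0) (p := 0)
      (legal_of rfl) (legal_of rfl)
    have h5 := iso_trans h4 iso_four
    simp only [List.append_assoc, List.cons_append, List.nil_append] at h5 ⊢
    exact h5

theorem Gf_un {k : ℤ} (hk : k ≠ 0) : un (Gf k) = 1 := by
  refine le_antisymm (Gf_un_le _) ?_
  rw [Order.one_le_iff_ne_zero]
  intro h
  exact Gf_ne hk (un_detects (by rw [h, un_unknot]))

/-! ### the family for the genus -/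

/-- the boundary of a disk with two bands -/
def Ff (k : ℤ) : Word :=
  [(0, .cup), (1, .cup), (1, .cup), (1, .cup)] ++ tw2 0 k ++ [(6, .pos), (6, .pos), (3, .pos),
    (2, .pos), (4, .pos), (3, .pos), (1, .cap), (0, .cap), (1, .cap), (0, .cap)]

theorem Ff_knot (k : ℤ) : IsKnot (Ff k) :=
  isKnot_tw2 (n := 8) (legal_of rfl) (by omega) (legal_of rfl) (by rw [oF_eq]; rfl) k

theorem Ff_iso (k : ℤ) : Iso 0 0 (Ff k) (Gf k) := by
  -- the cups
  have h1 := iso_right iso_cups (v := tw2 0 k ++ [(6, .pos), (6, .pos), (3, .pos),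
    (2, .pos), (4, .pos), (3, .pos), (1, .cap), (0, .cap), (1, .cap), (0, .cap)]) (p := 0)
    (legal_append.2 ⟨8, legal_tw2 (by omega) k, legal_of rfl⟩)
  -- the last cup slides over the twists
  have h2 : Iso 6 8 (tw2 0 k ++ [(3, .cup)]) ([(3, .cup)] ++ tw2 0 k) :=
    slide2 (by omega) (by omega) (legal_of rfl) (fun g hg => by
      rcases hg with rfl | rfl
      · exact stp 0 (Or.inl (Elem.comm 0 1 .pos .cup)) rfl rfl rfl
      · exact stp 0 (Or.inl (Elem.comm 0 1 .neg .cup)) rfl rfl rfl) k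
  have h3 := iso_ctx (iso_symm h2) (u := [(0, .cup), (1, .cup), (3, .cup)]) (k := 0) (p := 0)
    (v := [(6, .pos), (6, .pos), (3, .pos),
    (2, .pos), (4, .pos), (3, .pos), (1, .cap), (0, .cap), (1, .cap), (0, .cap)])
    (legal_of rfl) (legal_of rfl)
  have h4 := iso_left iso_top (u := [(0, .cup), (1, .cup), (3, .cup)] ++ tw2 0 k) (k := 0)
    (legal_append.2 ⟨6, legal_of rfl, legal_tw2 (by omega) k⟩)
  -- the twists slide over two crossings
  have h5 : Iso 6 6 (tw2 0 k ++ [(1, .neg), (0, .neg)]) ([(1, .neg), (0, .neg)] ++ tw2 1 k) :=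
    slide2 (by omega) (by omega) (legal_of rfl) (fun g hg => by
      rcases hg with rfl | rfl
      · exact iso_slP
      · exact iso_slN) k
  have h6 := iso_ctx h5 (u := [(0, .cup), (1, .cup), (3, .cup)]) (k := 0) (p := 0)
    (v := [(1, .neg), (2, .cap), (2, .pos), (2, .pos), (1, .cap), (0, .cap)])
    (legal_of rfl) (legal_of rfl)
  have h7 := iso_right iso_bot (v := tw2 1 k ++ [(1, .neg), (2, .cap), (2, .pos), (2, .pos),
    (1, .cap), (0, .cap)]) (p := 0) (legal_append.2 ⟨6, legal_tw2 (by omega) k, legal_of rfl⟩)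
  -- the last cup slides over the twists
  have h8 : Iso 4 6 (tw2 1 k ++ [(3, .cup)]) ([(3, .cup)] ++ tw2 1 k) :=
    slide2 (by omega) (by omega) (legal_of rfl) (fun g hg => by
      rcases hg with rfl | rfl
      · exact stp 0 (Or.inl (Elem.comm 1 0 .pos .cup)) rfl rfl rfl
      · exact stp 0 (Or.inl (Elem.comm 1 0 .neg .cup)) rfl rfl rfl) k
  have h9 := iso_ctx (iso_symm h8) (u := [(0, .cup), (0, .cup), (1, .pos)]) (k := 0) (p := 0)
    (v := [(1, .neg), (2, .cap), (2, .pos), (2, .pos), (1, .cap), (0, .cap)])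
    (legal_of rfl) (legal_of rfl)
  have t1 : Iso 4 4 [(3, .cup), (1, .neg), (2, .cap)] [(1, .neg)] :=
    iso_trans (stp (w' := [(1, .neg), (3, .cup), (2, .cap)]) 0
      (Or.inr (Elem.comm 1 0 .neg .cup)) rfl rfl rfl) (stp 1 (Or.inl (Elem.zag 2)) rfl rfl rfl)
  have h10 := iso_ctx t1 (u := [(0, .cup), (0, .cup), (1, .pos)] ++ tw2 1 k) (k := 0) (p := 0)
    (v := [(2, .pos), (2, .pos), (1, .cap), (0, .cap)])
    (legal_append.2 ⟨4, legal_of rfl, legal_tw2 (by omega) k⟩) (legal_of rfl)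
  -- the crossing cancels
  have h11 : Iso 4 4 (tw2 1 k ++ [(1, .neg)]) ([(1, .neg)] ++ tw2 1 k) :=
    slide2 (by omega) (by omega) (legal_of rfl) (fun g hg => by
      rcases hg with rfl | rfl
      · exact iso_trans (stp (w' := []) 0 (Or.inl (Elem.r2P 1)) rfl rfl rfl)
          (stp 0 (Or.inr (Elem.r2N 1)) rfl rfl rfl)
      · exact iso_refl _ _ _) k
  have h12 := iso_ctx h11 (u := [(0, .cup), (0, .cup), (1, .pos)]) (k := 0) (p := 0)
    (v := [(2, .pos), (2, .pos), (1, .cap), (0, .cap)])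
    (legal_of rfl) (legal_of rfl)
  have t2 : Iso 0 4 [(0, .cup), (0, .cup), (1, .pos), (1, .neg)] [(0, .cup), (0, .cup)] :=
    stp 2 (Or.inl (Elem.r2P 1)) rfl rfl rfl
  have h13 := iso_right t2 (v := tw2 1 k ++ [(2, .pos), (2, .pos), (1, .cap), (0, .cap)]) (p := 0)
    (legal_append.2 ⟨4, legal_tw2 (by omega) k, legal_of rfl⟩)
  simp only [List.append_assoc, List.cons_append, List.nil_append] at h1 h3 h4 h6 h7 h9 h10 h12 h13
  simp only [Ff, Gf, List.append_assoc, List.cons_append, List.nil_append]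
  exact iso_trans h1 (iso_trans h3 (iso_trans h4 (iso_trans h6 (iso_trans h7 (iso_trans h9
    (iso_trans h10 (iso_trans h12 h13)))))))

/-- `t` curls -/
def cw (g : Gen) : ℕ → Word
  | 0 => []
  | t + 1 => [(1, .cup), (0, g), (1, .cap)] ++ cw g t

theorem legal_cw {g : Gen} (hg : g = .pos ∨ g = .neg) (t : ℕ) : Legal 4 (cw g t) 4 := by
  induction t with
  | zero => rfl
  | succ t ih =>
    refine legal_append.2 ⟨4, ?_, ih⟩
    rcases hg with rfl | rfl <;> exact legal_of rfl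

theorem dbl_append (u v : Word) : dbl (u ++ v) = dbl u ++ dbl v := by simp [dbl]

theorem dbl_cw {g : Gen} (hg : g = .pos ∨ g = .neg) (t : ℕ) :
    Iso 8 8 (dbl (cw g t)) (List.replicate (2 * t) (0, g)) := by
  induction t with
  | zero => exact iso_refl _ _ _
  | succ t ih =>
    have e1 : dbl (cw g (t + 1)) = dbl [(1, .cup), (0, g), (1, .cap)] ++ dbl (cw g t) := by
      simp only [cw, dbl_append]
    have e2 : List.replicate (2 * (t + 1)) ((0 : ℕ), g) =
        [(0, g), (0, g)] ++ List.replicate (2 * t) (0, g) := by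
      rw [show 2 * (t + 1) = 2 * t + 1 + 1 by ring, List.replicate_succ, List.replicate_succ]
      rfl
    rw [e1, e2]
    have hl : Legal 8 (dbl (cw g t)) 8 :=
      (iso_legal ih).2 (legal_rep hg (by omega) _)
    rcases hg with rfl | rfl
    · exact iso_trans (iso_right iso_curlP0 hl) (iso_left ih (legal_of rfl))
    · exact iso_trans (iso_right iso_curlN0 hl) (iso_left ih (legal_of rfl))

theorem Ff_ge_le (k : ℤ) : ge (Ff k) ≤ 1 := by
  have hg := ite_cross k
  unfold Ff tw2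
  generalize (if 0 ≤ k then Gen.pos else Gen.neg) = g at *
  generalize k.natAbs = t
  refine sInf_le ⟨1, cw g t ++ [(4, .cup), (3, .pos), (4, .cap), (1, .pos), (0, .cap), (0, .cap)],
    rfl, legal_append.2 ⟨4, legal_cw hg t, legal_of rfl⟩, ?_⟩
  have h1 := iso_ctx (iso_symm (dbl_cw hg t)) (u := [(0, .cup), (1, .cup), (1, .cup), (1, .cup)])
    (k := 0) (p := 0) (v := [(6, .pos), (6, .pos), (3, .pos),
    (2, .pos), (4, .pos), (3, .pos), (1, .cap), (0, .cap), (1, .cap), (0, .cap)])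
    (legal_of rfl) (legal_of rfl)
  have hl : Legal 8 (dbl (cw g t)) 8 :=
    (iso_legal (dbl_cw hg t)).2 (legal_rep hg (by omega) _)
  have h2 := iso_ctx (iso_symm iso_curlP6)
    (u := [(0, .cup), (1, .cup), (1, .cup), (1, .cup)] ++ dbl (cw g t))
    (k := 0) (p := 0) (v := [(3, .pos), (2, .pos), (4, .pos), (3, .pos), (1, .cap), (0, .cap),
      (1, .cap), (0, .cap)]) (legal_append.2 ⟨8, legal_of rfl, hl⟩) (legal_of rfl)
  have e1 : surf 1 (cw g t ++ [(4, .cup), (3, .pos), (4, .cap), (1, .pos), (0, .cap), (0, .cap)]) =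
      [(0, .cup), (1, .cup), (1, .cup), (1, .cup)] ++ (dbl (cw g t) ++ dbl [(4, .cup), (3, .pos),
        (4, .cap), (1, .pos), (0, .cap), (0, .cap)]) := by
    unfold surf
    rw [if_neg (by omega), dbl_append]
    rfl
  rw [e1]
  simp only [List.append_assoc, List.cons_append, List.nil_append] at h1 h2 ⊢
  exact iso_trans h1 h2

theorem Ff_ge {k : ℤ} (hk : k ≠ 0) : ge (Ff k) = 1 := by
  refine le_antisymm (Ff_ge_le _) ?_
  rw [Order.one_le_iff_ne_zero]
  intro h
  exact Gf_ne hk (iso_trans (iso_symm (Ff_iso _)) (ge_detects (by rw [h, ge_unknot])))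

theorem Ff_zero : ge (Ff 0) = 0 := by
  rw [ge_iso (iso_trans (Ff_iso 0) Gf_zero), ge_unknot]

/-! ### the families for the crossing number -/

/-- connected sums of twist knots with the torus knot of type `(2, 5)` -/
def Ka (k : ℤ) : Word := [(0, .cup), (0, .cup)] ++ tw2 1 k ++
  [(2, .pos), (2, .pos), (1, .cap), (1, .cup), (0, .neg), (0, .neg), (0, .neg), (0, .neg),
    (0, .neg), (1, .cap), (0, .cap)]

/-- connected sums of double twist knots with the torus knot of type `(2, 3)` -/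
def Kb (k : ℤ) : Word := [(0, .cup), (0, .cup)] ++ tw2 1 k ++
  [(2, .pos), (2, .pos), (2, .pos), (2, .pos), (1, .cap), (1, .cup), (0, .neg), (0, .neg),
    (0, .neg), (1, .cap), (0, .cap)]

theorem Ka_knot (k : ℤ) : IsKnot (Ka k) :=
  isKnot_tw2 (n := 4) (legal_of rfl) (by omega) (legal_of rfl) (by rw [oF_eq]; rfl) k

theorem Kb_knot (k : ℤ) : IsKnot (Kb k) :=
  isKnot_tw2 (n := 4) (legal_of rfl) (by omega) (legal_of rfl) (by rw [oF_eq]; rfl) k

theorem crossings_rep {a n : ℕ} {g : Gen} (hg : g = .pos ∨ g = .neg) :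
    crossings (List.replicate n (a, g)) = n := by
  induction n with
  | zero => rfl
  | succ n ih => rw [List.replicate_succ, crossings_cons, if_pos hg, ih]; ring

theorem Ka_neg (t : ℕ) : Ka (-((t + 1 : ℕ) : ℤ)) =
    Kk (2 * (t + 1)) .neg (2 * (0 + 1)) (3 + 2) := by
  unfold Ka Kk
  rw [sgn_neg, List.append_assoc]
  rfl

theorem Ka_pos (t : ℕ) : Ka ((t + 1 : ℕ) : ℤ) =
    Kk (2 * (t + 1)) .pos (2 * (0 + 1)) (3 + 2) := by
  unfold Ka Kk
  rw [sgn_pos, List.append_assoc]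
  rfl

theorem Kb_neg (t : ℕ) : Kb (-((t + 1 : ℕ) : ℤ)) =
    Kk (2 * (t + 1)) .neg (2 * (1 + 1)) (1 + 2) := by
  unfold Kb Kk
  rw [sgn_neg, List.append_assoc]
  rfl

theorem Kb_pos (t : ℕ) : Kb ((t + 1 : ℕ) : ℤ) =
    Kk (2 * (t + 1)) .pos (2 * (1 + 1)) (1 + 2) := by
  unfold Kb Kk
  rw [sgn_pos, List.append_assoc]
  rfl

theorem cr_Ka_neg (t : ℕ) : cr (Ka (-((t + 1 : ℕ) : ℤ))) = 2 * t + 9 := by
  have h := Ka_knot (-((t + 1 : ℕ) : ℤ))
  refine le_antisymm ?_ ?_
  · refine (cr_le (iso_refl _ _ _)).trans ?_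
    rw [Ka, sgn_neg, crossings_append, crossings_append, crossings_rep (Or.inr rfl)]
    simp [crossings]
    omega
  · rw [Ka_neg] at h ⊢
    have := cr_ge h (Q_Kk_neg t 0 3)
    omega

theorem cr_Kb_neg (t : ℕ) : cr (Kb (-((t + 1 : ℕ) : ℤ))) = 2 * t + 9 := by
  have h := Kb_knot (-((t + 1 : ℕ) : ℤ))
  refine le_antisymm ?_ ?_
  · refine (cr_le (iso_refl _ _ _)).trans ?_
    rw [Kb, sgn_neg, crossings_append, crossings_append, crossings_rep (Or.inr rfl)]
    simp [crossings]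
    omega
  · rw [Kb_neg] at h ⊢
    have := cr_ge h (Q_Kk_neg t 1 1)
    omega

theorem cr_Ka_pos (t : ℕ) : cr (Ka ((t + 1 : ℕ) : ℤ)) = 2 * t + 8 := by
  have h := Ka_knot ((t + 1 : ℕ) : ℤ)
  refine le_antisymm ?_ ?_
  · have h1 := iso_left iso_Ka (u := [(0, .cup), (0, .cup)] ++ List.replicate (2 * t + 1) (1, .pos))
      (k := 0) (legal_append.2 ⟨4, legal_of rfl, legal_rep (Or.inl rfl) (by omega) _⟩)
    have e : Ka ((t + 1 : ℕ) : ℤ) = [(0, .cup), (0, .cup)] ++ List.replicate (2 * t + 1) (1, .pos) ++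
        [(1, .pos), (2, .pos), (2, .pos), (1, .cap), (1, .cup), (0, .neg), (0, .neg), (0, .neg),
          (0, .neg), (0, .neg), (1, .cap), (0, .cap)] := by
      unfold Ka
      rw [sgn_pos, show 2 * (t + 1) = (2 * t + 1) + 1 by ring, List.replicate_succ']
      simp
    rw [e]
    refine (cr_le h1).trans ?_
    rw [crossings_append, crossings_append, crossings_rep (Or.inl rfl)]
    simp [crossings]
  · rw [Ka_pos] at h ⊢
    have := cr_ge h (Q_Kk_pos t 0 3)
    omega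

theorem cr_Kb_pos (t : ℕ) : cr (Kb ((t + 1 : ℕ) : ℤ)) = 2 * t + 8 := by
  have h := Kb_knot ((t + 1 : ℕ) : ℤ)
  refine le_antisymm ?_ ?_
  · have h1 := iso_left iso_Kb (u := [(0, .cup), (0, .cup)] ++ List.replicate (2 * t + 1) (1, .pos))
      (k := 0) (legal_append.2 ⟨4, legal_of rfl, legal_rep (Or.inl rfl) (by omega) _⟩)
    have e : Kb ((t + 1 : ℕ) : ℤ) = [(0, .cup), (0, .cup)] ++ List.replicate (2 * t + 1) (1, .pos) ++
        [(1, .pos), (2, .pos), (2, .pos), (2, .pos), (2, .pos), (1, .cap), (1, .cup), (0, .neg),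
          (0, .neg), (0, .neg), (1, .cap), (0, .cap)] := by
      unfold Kb
      rw [sgn_pos, show 2 * (t + 1) = (2 * t + 1) + 1 by ring, List.replicate_succ']
      simp
    rw [e]
    refine (cr_le h1).trans ?_
    rw [crossings_append, crossings_append, crossings_rep (Or.inl rfl)]
    simp [crossings]
  · rw [Kb_pos] at h ⊢
    have := cr_ge h (Q_Kk_pos t 1 1)
    omega

theorem cr_K {k : ℤ} (hk : k ≠ 0) : cr (Ka k) = cr (Kb k) := by
  rcases cases_int hk with ⟨t, rfl⟩ | ⟨t, rfl⟩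
  · rw [cr_Ka_neg, cr_Kb_neg]
  · rw [cr_Ka_pos, cr_Kb_pos]

theorem cr_Ka0 : 5 ≤ cr (Ka 0) := by
  have h := Ka_knot 0
  have e : Ka 0 = Kk 0 .neg (2 * 1) (3 + 2) := rfl
  rw [e] at h ⊢
  exact cr_ge h (Q_Kk_zero 1 3)

theorem cr_Kb0 : cr (Kb 0) ≤ 3 := cr_le iso_Kb0

end Pool.Agent.Helper35.Skl
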