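import Pool.Agent.Helper35.Skl.OMod

/-!
# Linear relations between twists
-/

set_option autoImplicit false

namespace Pool.Agent.Helper35.Skl

open Pool.Agent.Helper31.Sk

universe u v

section
variable {A : Type u} {N : Type v} [CommRing A] [AddCommGroup N] [Module A N]

/-- a function which ignores the orientations -/
theorem und_twistRecurrent (x : Bool) (p : Word → N) (h : TwistRecurrent A p) :
    TwistRecurrentO A x (fun W => p (und W)) := by
  intro U V l r _ _ hK
  have e : ∀ k : ℤ, und (U ++ shiftO l r (twO x k) ++ V) = und U ++ tw2 l.length k ++ und V := by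
    intro k
    rw [und_append, und_append, und_shiftO, und_twO, shift_tw2]
  have h1 := h (und U) (und V) l.length (fun k => by rw [← e]; exact hK k)
  simp only [e]
  exact h1

theorem genNone_of_twist (x : Bool) (p : OWord → N) (h : TwistRecurrentO A x p) : GenNone p :=
  ⟨absO_cr x p h, absO_un x p h, absO_ge x p h⟩

end

theorem genNone_half {A : Type u} [CommRing A] (M : Moves A) (n : ℕ)
    (hn : 2 ≤ n) (h : HalfTwistRel M n ∨ FinGen M n) : GenNone (fun W => sk M 0 0 (und W)) := by
  obtain ⟨m, c, hc, h0⟩ : ∃ (m : ℕ) (c : Fin m → A), Ideal.span (Set.range c) = ⊤ ∧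
      ∑ i : Fin m, c i • sk M n n (List.replicate (i : ℕ) (0, .pos)) = 0 := by
    rcases h with h | h
    · exact h
    · exact half_of_fg M hn h
  exact genNone_of_twist (A := A) true _ (und_twistRecurrent true _ (twist_of_half M c hc h0 hn))

theorem genNone_full {A : Type u} [CommRing A] (M : MovesO A)
    (x : Bool) (h : FullTwistRel M x ∨ FinGenO M x) : GenNone (skO M [] []) := by
  obtain ⟨m, c, hc, h0⟩ : ∃ (m : ℕ) (c : Fin m → A), Ideal.span (Set.range c) = ⊤ ∧
      ∑ i : Fin m, c i • skO M [x, !x] [x, !x] (twO x (i : ℕ)) = 0 := by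
    rcases h with h | h
    · exact h
    · exact full_of_fg M x h
  exact genNone_of_twist (A := A) x _ (twist_of_full M x c hc h0)

end Pool.Agent.Helper35.Skl
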