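import Pool.Agent.Helper35.Skl.Vals

/-!
# Some isotopies
-/

set_option autoImplicit false

namespace Pool.Agent.Helper35.Skl

open Pool.Agent.Helper31.Sk

/-- the number of strands at the top of a diagram -/
def leg : ℕ → Word → Option ℕ
  | m, [] => some m
  | m, (i, g) :: w => if i + g.src ≤ m then leg (m - g.src + g.tgt) w else none

theorem legal_of {w : Word} : ∀ {m n : ℕ}, leg m w = some n → Legal m w n := by
  induction w with
  | nil =>
    intro m n h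
    simp only [leg, Option.some.injEq] at h
    exact h
  | cons s w ih =>
    intro m n h
    obtain ⟨i, g⟩ := s
    simp only [leg] at h
    split_ifs at h with h1
    exact ⟨h1, ih h⟩

theorem stp {m n : ℕ} (p : ℕ) {x y w w' : Word} (h : Elem x y ∨ Elem y x)
    (hw : w = w.take p ++ x ++ w.drop (p + x.length))
    (hw' : w' = w.take p ++ y ++ w.drop (p + x.length))
    (hl : (leg m w, leg m w') = (some n, some n)) : Iso m n w w' := by
  have l1 : Legal m w n := legal_of (Prod.ext_iff.1 hl).1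
  have l2 : Legal m w' n := legal_of (Prod.ext_iff.1 hl).2
  generalize w.take p = u at hw hw'
  generalize w.drop (p + x.length) = v at hw hw'
  subst hw hw'
  rcases h with h | h
  · exact Relation.EqvGen.rel _ _ (Step.mk u x y v h l1 l2)
  · exact iso_symm (Relation.EqvGen.rel _ _ (Step.mk u y x v h l2 l1))

theorem iso_cups : Iso 0 8 [(0, .cup), (1, .cup), (1, .cup), (1, .cup)]
    [(0, .cup), (1, .cup), (3, .cup), (3, .cup)] := by
  have z0 : Iso 0 8 [(0, .cup), (1, .cup), (1, .cup), (1, .cup)]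
      [(0, .cup), (1, .cup), (1, .cup), (3, .cup)] :=
    stp 2 (Or.inr (Elem.comm 1 0 .cup .cup)) rfl rfl rfl
  have z1 : Iso 0 8 [(0, .cup), (1, .cup), (1, .cup), (3, .cup)]
      [(0, .cup), (1, .cup), (3, .cup), (3, .cup)] :=
    stp 1 (Or.inr (Elem.comm 1 0 .cup .cup)) rfl rfl rfl
  exact iso_trans z0 z1

theorem iso_top : Iso 6 0 [(3, .cup), (6, .pos), (6, .pos), (3, .pos), (2, .pos), (4, .pos), (3, .pos), (1, .cap), (0, .cap), (1, .cap), (0, .cap)]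
    [(1, .neg), (0, .neg), (1, .neg), (2, .cap), (2, .pos), (2, .pos), (1, .cap), (0, .cap)] := by
  have z0 : Iso 6 0 [(3, .cup), (6, .pos), (6, .pos), (3, .pos), (2, .pos), (4, .pos), (3, .pos), (1, .cap), (0, .cap), (1, .cap), (0, .cap)]
      [(4, .pos), (3, .cup), (6, .pos), (3, .pos), (2, .pos), (4, .pos), (3, .pos), (1, .cap), (0, .cap), (1, .cap), (0, .cap)] :=
    stp 0 (Or.inl (Elem.comm 3 1 .cup .pos)) rfl rfl rfl
  have z1 : Iso 6 0 [(4, .pos), (3, .cup), (6, .pos), (3, .pos), (2, .pos), (4, .pos), (3, .pos), (1, .cap), (0, .cap), (1, .cap), (0, .cap)]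
      [(4, .pos), (4, .pos), (3, .cup), (3, .pos), (2, .pos), (4, .pos), (3, .pos), (1, .cap), (0, .cap), (1, .cap), (0, .cap)] :=
    stp 1 (Or.inl (Elem.comm 3 1 .cup .pos)) rfl rfl rfl
  have z2 : Iso 6 0 [(4, .pos), (4, .pos), (3, .cup), (3, .pos), (2, .pos), (4, .pos), (3, .pos), (1, .cap), (0, .cap), (1, .cap), (0, .cap)]
      [(4, .pos), (4, .pos), (3, .cup), (2, .pos), (4, .pos), (3, .pos), (1, .cap), (0, .cap), (1, .cap), (0, .cap)] :=
    stp 2 (Or.inl (Elem.r1cupP 3)) rfl rfl rfl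
  have z3 : Iso 6 0 [(4, .pos), (4, .pos), (3, .cup), (2, .pos), (4, .pos), (3, .pos), (1, .cap), (0, .cap), (1, .cap), (0, .cap)]
      [(4, .pos), (4, .pos), (3, .cup), (4, .pos), (2, .pos), (3, .pos), (1, .cap), (0, .cap), (1, .cap), (0, .cap)] :=
    stp 3 (Or.inl (Elem.comm 2 0 .pos .pos)) rfl rfl rfl
  have z4 : Iso 6 0 [(4, .pos), (4, .pos), (3, .cup), (4, .pos), (2, .pos), (3, .pos), (1, .cap), (0, .cap), (1, .cap), (0, .cap)]
      [(4, .pos), (4, .pos), (4, .cup), (3, .neg), (2, .pos), (3, .pos), (1, .cap), (0, .cap), (1, .cap), (0, .cap)] :=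
    stp 2 (Or.inl (Elem.cupP 3)) rfl rfl rfl
  have z5 : Iso 6 0 [(4, .pos), (4, .pos), (4, .cup), (3, .neg), (2, .pos), (3, .pos), (1, .cap), (0, .cap), (1, .cap), (0, .cap)]
      [(4, .pos), (4, .pos), (4, .cup), (3, .neg), (2, .pos), (3, .pos), (2, .pos), (2, .neg), (1, .cap), (0, .cap), (1, .cap), (0, .cap)] :=
    stp 6 (Or.inr (Elem.r2P 2)) rfl rfl rfl
  have z6 : Iso 6 0 [(4, .pos), (4, .pos), (4, .cup), (3, .neg), (2, .pos), (3, .pos), (2, .pos), (2, .neg), (1, .cap), (0, .cap), (1, .cap), (0, .cap)]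
      [(4, .pos), (4, .pos), (4, .cup), (3, .neg), (3, .pos), (2, .pos), (3, .pos), (2, .neg), (1, .cap), (0, .cap), (1, .cap), (0, .cap)] :=
    stp 4 (Or.inl (Elem.r3P 2)) rfl rfl rfl
  have z7 : Iso 6 0 [(4, .pos), (4, .pos), (4, .cup), (3, .neg), (3, .pos), (2, .pos), (3, .pos), (2, .neg), (1, .cap), (0, .cap), (1, .cap), (0, .cap)]
      [(4, .pos), (4, .pos), (4, .cup), (2, .pos), (3, .pos), (2, .neg), (1, .cap), (0, .cap), (1, .cap), (0, .cap)] :=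
    stp 3 (Or.inl (Elem.r2N 3)) rfl rfl rfl
  have z8 : Iso 6 0 [(4, .pos), (4, .pos), (4, .cup), (2, .pos), (3, .pos), (2, .neg), (1, .cap), (0, .cap), (1, .cap), (0, .cap)]
      [(4, .pos), (4, .pos), (4, .cup), (2, .pos), (3, .pos), (1, .pos), (2, .cap), (0, .cap), (1, .cap), (0, .cap)] :=
    stp 5 (Or.inl (Elem.capN 1)) rfl rfl rfl
  have z9 : Iso 6 0 [(4, .pos), (4, .pos), (4, .cup), (2, .pos), (3, .pos), (1, .pos), (2, .cap), (0, .cap), (1, .cap), (0, .cap)]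
      [(4, .pos), (4, .pos), (4, .cup), (2, .pos), (1, .pos), (3, .pos), (2, .cap), (0, .cap), (1, .cap), (0, .cap)] :=
    stp 4 (Or.inr (Elem.comm 1 0 .pos .pos)) rfl rfl rfl
  have z10 : Iso 6 0 [(4, .pos), (4, .pos), (4, .cup), (2, .pos), (1, .pos), (3, .pos), (2, .cap), (0, .cap), (1, .cap), (0, .cap)]
      [(4, .pos), (4, .pos), (4, .cup), (2, .pos), (1, .pos), (2, .neg), (3, .cap), (0, .cap), (1, .cap), (0, .cap)] :=
    stp 5 (Or.inl (Elem.capP 2)) rfl rfl rfl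
  have z11 : Iso 6 0 [(4, .pos), (4, .pos), (4, .cup), (2, .pos), (1, .pos), (2, .neg), (3, .cap), (0, .cap), (1, .cap), (0, .cap)]
      [(4, .pos), (4, .pos), (2, .pos), (4, .cup), (1, .pos), (2, .neg), (3, .cap), (0, .cap), (1, .cap), (0, .cap)] :=
    stp 2 (Or.inr (Elem.comm 2 0 .pos .cup)) rfl rfl rfl
  have z12 : Iso 6 0 [(4, .pos), (4, .pos), (2, .pos), (4, .cup), (1, .pos), (2, .neg), (3, .cap), (0, .cap), (1, .cap), (0, .cap)]
      [(4, .pos), (4, .pos), (2, .pos), (1, .pos), (4, .cup), (2, .neg), (3, .cap), (0, .cap), (1, .cap), (0, .cap)] :=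
    stp 3 (Or.inr (Elem.comm 1 1 .pos .cup)) rfl rfl rfl
  have z13 : Iso 6 0 [(4, .pos), (4, .pos), (2, .pos), (1, .pos), (4, .cup), (2, .neg), (3, .cap), (0, .cap), (1, .cap), (0, .cap)]
      [(4, .pos), (4, .pos), (2, .pos), (1, .pos), (2, .neg), (4, .cup), (3, .cap), (0, .cap), (1, .cap), (0, .cap)] :=
    stp 4 (Or.inr (Elem.comm 2 0 .neg .cup)) rfl rfl rfl
  have z14 : Iso 6 0 [(4, .pos), (4, .pos), (2, .pos), (1, .pos), (2, .neg), (4, .cup), (3, .cap), (0, .cap), (1, .cap), (0, .cap)]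
      [(4, .pos), (4, .pos), (2, .pos), (1, .pos), (2, .neg), (0, .cap), (1, .cap), (0, .cap)] :=
    stp 5 (Or.inl (Elem.zag 3)) rfl rfl rfl
  have z15 : Iso 6 0 [(4, .pos), (4, .pos), (2, .pos), (1, .pos), (2, .neg), (0, .cap), (1, .cap), (0, .cap)]
      [(4, .pos), (4, .pos), (1, .neg), (1, .pos), (2, .pos), (1, .pos), (2, .neg), (0, .cap), (1, .cap), (0, .cap)] :=
    stp 2 (Or.inr (Elem.r2N 1)) rfl rfl rfl
  have z16 : Iso 6 0 [(4, .pos), (4, .pos), (1, .neg), (1, .pos), (2, .pos), (1, .pos), (2, .neg), (0, .cap), (1, .cap), (0, .cap)]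
      [(4, .pos), (4, .pos), (1, .neg), (2, .pos), (1, .pos), (2, .pos), (2, .neg), (0, .cap), (1, .cap), (0, .cap)] :=
    stp 3 (Or.inl (Elem.r3P 1)) rfl rfl rfl
  have z17 : Iso 6 0 [(4, .pos), (4, .pos), (1, .neg), (2, .pos), (1, .pos), (2, .pos), (2, .neg), (0, .cap), (1, .cap), (0, .cap)]
      [(4, .pos), (4, .pos), (1, .neg), (2, .pos), (1, .pos), (0, .cap), (1, .cap), (0, .cap)] :=
    stp 5 (Or.inl (Elem.r2P 2)) rfl rfl rfl
  have z18 : Iso 6 0 [(4, .pos), (4, .pos), (1, .neg), (2, .pos), (1, .pos), (0, .cap), (1, .cap), (0, .cap)]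
      [(4, .pos), (4, .pos), (1, .neg), (2, .pos), (0, .neg), (1, .cap), (1, .cap), (0, .cap)] :=
    stp 4 (Or.inl (Elem.capP 0)) rfl rfl rfl
  have z19 : Iso 6 0 [(4, .pos), (4, .pos), (1, .neg), (2, .pos), (0, .neg), (1, .cap), (1, .cap), (0, .cap)]
      [(4, .pos), (4, .pos), (1, .neg), (0, .neg), (2, .pos), (1, .cap), (1, .cap), (0, .cap)] :=
    stp 3 (Or.inr (Elem.comm 0 0 .neg .pos)) rfl rfl rfl
  have z20 : Iso 6 0 [(4, .pos), (4, .pos), (1, .neg), (0, .neg), (2, .pos), (1, .cap), (1, .cap), (0, .cap)]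
      [(4, .pos), (1, .neg), (4, .pos), (0, .neg), (2, .pos), (1, .cap), (1, .cap), (0, .cap)] :=
    stp 1 (Or.inr (Elem.comm 1 1 .neg .pos)) rfl rfl rfl
  have z21 : Iso 6 0 [(4, .pos), (1, .neg), (4, .pos), (0, .neg), (2, .pos), (1, .cap), (1, .cap), (0, .cap)]
      [(1, .neg), (4, .pos), (4, .pos), (0, .neg), (2, .pos), (1, .cap), (1, .cap), (0, .cap)] :=
    stp 0 (Or.inr (Elem.comm 1 1 .neg .pos)) rfl rfl rfl
  have z22 : Iso 6 0 [(1, .neg), (4, .pos), (4, .pos), (0, .neg), (2, .pos), (1, .cap), (1, .cap), (0, .cap)]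
      [(1, .neg), (4, .pos), (0, .neg), (4, .pos), (2, .pos), (1, .cap), (1, .cap), (0, .cap)] :=
    stp 2 (Or.inr (Elem.comm 0 2 .neg .pos)) rfl rfl rfl
  have z23 : Iso 6 0 [(1, .neg), (4, .pos), (0, .neg), (4, .pos), (2, .pos), (1, .cap), (1, .cap), (0, .cap)]
      [(1, .neg), (0, .neg), (4, .pos), (4, .pos), (2, .pos), (1, .cap), (1, .cap), (0, .cap)] :=
    stp 1 (Or.inr (Elem.comm 0 2 .neg .pos)) rfl rfl rfl
  have z24 : Iso 6 0 [(1, .neg), (0, .neg), (4, .pos), (4, .pos), (2, .pos), (1, .cap), (1, .cap), (0, .cap)]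
      [(1, .neg), (0, .neg), (4, .pos), (4, .pos), (1, .neg), (2, .cap), (1, .cap), (0, .cap)] :=
    stp 4 (Or.inl (Elem.capP 1)) rfl rfl rfl
  have z25 : Iso 6 0 [(1, .neg), (0, .neg), (4, .pos), (4, .pos), (1, .neg), (2, .cap), (1, .cap), (0, .cap)]
      [(1, .neg), (0, .neg), (4, .pos), (1, .neg), (4, .pos), (2, .cap), (1, .cap), (0, .cap)] :=
    stp 3 (Or.inr (Elem.comm 1 1 .neg .pos)) rfl rfl rfl
  have z26 : Iso 6 0 [(1, .neg), (0, .neg), (4, .pos), (1, .neg), (4, .pos), (2, .cap), (1, .cap), (0, .cap)]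
      [(1, .neg), (0, .neg), (1, .neg), (4, .pos), (4, .pos), (2, .cap), (1, .cap), (0, .cap)] :=
    stp 2 (Or.inr (Elem.comm 1 1 .neg .pos)) rfl rfl rfl
  have z27 : Iso 6 0 [(1, .neg), (0, .neg), (1, .neg), (4, .pos), (4, .pos), (2, .cap), (1, .cap), (0, .cap)]
      [(1, .neg), (0, .neg), (1, .neg), (4, .pos), (2, .cap), (2, .pos), (1, .cap), (0, .cap)] :=
    stp 4 (Or.inr (Elem.comm 2 0 .cap .pos)) rfl rfl rfl
  have z28 : Iso 6 0 [(1, .neg), (0, .neg), (1, .neg), (4, .pos), (2, .cap), (2, .pos), (1, .cap), (0, .cap)]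
      [(1, .neg), (0, .neg), (1, .neg), (2, .cap), (2, .pos), (2, .pos), (1, .cap), (0, .cap)] :=
    stp 3 (Or.inr (Elem.comm 2 0 .cap .pos)) rfl rfl rfl
  exact iso_trans z0 (iso_trans z1 (iso_trans z2 (iso_trans z3 (iso_trans z4 (iso_trans z5 (iso_trans z6 (iso_trans z7 (iso_trans z8 (iso_trans z9 (iso_trans z10 (iso_trans z11 (iso_trans z12 (iso_trans z13 (iso_trans z14 (iso_trans z15 (iso_trans z16 (iso_trans z17 (iso_trans z18 (iso_trans z19 (iso_trans z20 (iso_trans z21 (iso_trans z22 (iso_trans z23 (iso_trans z24 (iso_trans z25 (iso_trans z26 (iso_trans z27 z28)))))))))))))))))))))))))))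

theorem iso_bot : Iso 0 6 [(0, .cup), (1, .cup), (3, .cup), (1, .neg), (0, .neg)]
    [(0, .cup), (0, .cup), (1, .pos), (3, .cup)] := by
  have z0 : Iso 0 6 [(0, .cup), (1, .cup), (3, .cup), (1, .neg), (0, .neg)]
      [(0, .cup), (1, .cup), (1, .neg), (3, .cup), (0, .neg)] :=
    stp 2 (Or.inr (Elem.comm 1 0 .neg .cup)) rfl rfl rfl
  have z1 : Iso 0 6 [(0, .cup), (1, .cup), (1, .neg), (3, .cup), (0, .neg)]
      [(0, .cup), (1, .cup), (3, .cup), (0, .neg)] :=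
    stp 1 (Or.inl (Elem.r1cupN 1)) rfl rfl rfl
  have z2 : Iso 0 6 [(0, .cup), (1, .cup), (3, .cup), (0, .neg)]
      [(0, .cup), (1, .cup), (0, .neg), (3, .cup)] :=
    stp 2 (Or.inr (Elem.comm 0 1 .neg .cup)) rfl rfl rfl
  have z3 : Iso 0 6 [(0, .cup), (1, .cup), (0, .neg), (3, .cup)]
      [(0, .cup), (0, .cup), (1, .pos), (3, .cup)] :=
    stp 1 (Or.inr (Elem.cupP 0)) rfl rfl rfl
  exact iso_trans z0 (iso_trans z1 (iso_trans z2 z3))

theorem iso_curlN0 : Iso 8 8 [(2, .cup), (3, .cup), (1, .neg), (0, .neg), (2, .neg), (1, .neg), (3, .cap), (2, .cap)]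
    [(0, .neg), (0, .neg)] := by
  have z0 : Iso 8 8 [(2, .cup), (3, .cup), (1, .neg), (0, .neg), (2, .neg), (1, .neg), (3, .cap), (2, .cap)]
      [(2, .cup), (3, .cup), (1, .neg), (0, .neg), (2, .neg), (3, .cap), (1, .neg), (2, .cap)] :=
    stp 5 (Or.inl (Elem.comm 1 0 .neg .cap)) rfl rfl rfl
  have z1 : Iso 8 8 [(2, .cup), (3, .cup), (1, .neg), (0, .neg), (2, .neg), (3, .cap), (1, .neg), (2, .cap)]
      [(2, .cup), (3, .cup), (1, .neg), (0, .neg), (3, .pos), (2, .cap), (1, .neg), (2, .cap)] :=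
    stp 4 (Or.inr (Elem.capP 2)) rfl rfl rfl
  have z2 : Iso 8 8 [(2, .cup), (3, .cup), (1, .neg), (0, .neg), (3, .pos), (2, .cap), (1, .neg), (2, .cap)]
      [(2, .cup), (3, .cup), (1, .neg), (3, .pos), (0, .neg), (2, .cap), (1, .neg), (2, .cap)] :=
    stp 3 (Or.inl (Elem.comm 0 1 .neg .pos)) rfl rfl rfl
  have z3 : Iso 8 8 [(2, .cup), (3, .cup), (1, .neg), (3, .pos), (0, .neg), (2, .cap), (1, .neg), (2, .cap)]
      [(2, .cup), (3, .cup), (3, .pos), (1, .neg), (0, .neg), (2, .cap), (1, .neg), (2, .cap)] :=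
    stp 2 (Or.inl (Elem.comm 1 0 .neg .pos)) rfl rfl rfl
  have z4 : Iso 8 8 [(2, .cup), (3, .cup), (3, .pos), (1, .neg), (0, .neg), (2, .cap), (1, .neg), (2, .cap)]
      [(2, .cup), (3, .cup), (1, .neg), (0, .neg), (2, .cap), (1, .neg), (2, .cap)] :=
    stp 1 (Or.inl (Elem.r1cupP 3)) rfl rfl rfl
  have z5 : Iso 8 8 [(2, .cup), (3, .cup), (1, .neg), (0, .neg), (2, .cap), (1, .neg), (2, .cap)]
      [(2, .cup), (1, .neg), (3, .cup), (0, .neg), (2, .cap), (1, .neg), (2, .cap)] :=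
    stp 1 (Or.inr (Elem.comm 1 0 .neg .cup)) rfl rfl rfl
  have z6 : Iso 8 8 [(2, .cup), (1, .neg), (3, .cup), (0, .neg), (2, .cap), (1, .neg), (2, .cap)]
      [(2, .cup), (1, .neg), (0, .neg), (3, .cup), (2, .cap), (1, .neg), (2, .cap)] :=
    stp 2 (Or.inr (Elem.comm 0 1 .neg .cup)) rfl rfl rfl
  have z7 : Iso 8 8 [(2, .cup), (1, .neg), (0, .neg), (3, .cup), (2, .cap), (1, .neg), (2, .cap)]
      [(2, .cup), (1, .neg), (0, .neg), (1, .neg), (2, .cap)] :=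
    stp 3 (Or.inl (Elem.zag 2)) rfl rfl rfl
  have z8 : Iso 8 8 [(2, .cup), (1, .neg), (0, .neg), (1, .neg), (2, .cap)]
      [(2, .cup), (0, .neg), (1, .neg), (0, .neg), (2, .cap)] :=
    stp 1 (Or.inr (Elem.r3N 0)) rfl rfl rfl
  have z9 : Iso 8 8 [(2, .cup), (0, .neg), (1, .neg), (0, .neg), (2, .cap)]
      [(0, .neg), (2, .cup), (1, .neg), (0, .neg), (2, .cap)] :=
    stp 0 (Or.inr (Elem.comm 0 0 .neg .cup)) rfl rfl rfl
  have z10 : Iso 8 8 [(0, .neg), (2, .cup), (1, .neg), (0, .neg), (2, .cap)]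
      [(0, .neg), (2, .cup), (1, .neg), (2, .cap), (0, .neg)] :=
    stp 3 (Or.inl (Elem.comm 0 0 .neg .cap)) rfl rfl rfl
  have z11 : Iso 8 8 [(0, .neg), (2, .cup), (1, .neg), (2, .cap), (0, .neg)]
      [(0, .neg), (1, .cup), (2, .pos), (2, .cap), (0, .neg)] :=
    stp 1 (Or.inr (Elem.cupP 1)) rfl rfl rfl
  have z12 : Iso 8 8 [(0, .neg), (1, .cup), (2, .pos), (2, .cap), (0, .neg)]
      [(0, .neg), (1, .cup), (2, .cap), (0, .neg)] :=
    stp 2 (Or.inl (Elem.r1capP 2)) rfl rfl rfl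
  have z13 : Iso 8 8 [(0, .neg), (1, .cup), (2, .cap), (0, .neg)]
      [(0, .neg), (0, .neg)] :=
    stp 1 (Or.inl (Elem.zig 1)) rfl rfl rfl
  exact iso_trans z0 (iso_trans z1 (iso_trans z2 (iso_trans z3 (iso_trans z4 (iso_trans z5 (iso_trans z6 (iso_trans z7 (iso_trans z8 (iso_trans z9 (iso_trans z10 (iso_trans z11 (iso_trans z12 z13))))))))))))

theorem iso_curlP0 : Iso 8 8 [(2, .cup), (3, .cup), (1, .pos), (0, .pos), (2, .pos), (1, .pos), (3, .cap), (2, .cap)]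
    [(0, .pos), (0, .pos)] := by
  have z0 : Iso 8 8 [(2, .cup), (3, .cup), (1, .pos), (0, .pos), (2, .pos), (1, .pos), (3, .cap), (2, .cap)]
      [(2, .cup), (3, .cup), (1, .pos), (0, .pos), (2, .pos), (3, .cap), (1, .pos), (2, .cap)] :=
    stp 5 (Or.inl (Elem.comm 1 0 .pos .cap)) rfl rfl rfl
  have z1 : Iso 8 8 [(2, .cup), (3, .cup), (1, .pos), (0, .pos), (2, .pos), (3, .cap), (1, .pos), (2, .cap)]
      [(2, .cup), (3, .cup), (1, .pos), (0, .pos), (3, .neg), (2, .cap), (1, .pos), (2, .cap)] :=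
    stp 4 (Or.inr (Elem.capN 2)) rfl rfl rfl
  have z2 : Iso 8 8 [(2, .cup), (3, .cup), (1, .pos), (0, .pos), (3, .neg), (2, .cap), (1, .pos), (2, .cap)]
      [(2, .cup), (3, .cup), (1, .pos), (3, .neg), (0, .pos), (2, .cap), (1, .pos), (2, .cap)] :=
    stp 3 (Or.inl (Elem.comm 0 1 .pos .neg)) rfl rfl rfl
  have z3 : Iso 8 8 [(2, .cup), (3, .cup), (1, .pos), (3, .neg), (0, .pos), (2, .cap), (1, .pos), (2, .cap)]
      [(2, .cup), (3, .cup), (3, .neg), (1, .pos), (0, .pos), (2, .cap), (1, .pos), (2, .cap)] :=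
    stp 2 (Or.inl (Elem.comm 1 0 .pos .neg)) rfl rfl rfl
  have z4 : Iso 8 8 [(2, .cup), (3, .cup), (3, .neg), (1, .pos), (0, .pos), (2, .cap), (1, .pos), (2, .cap)]
      [(2, .cup), (3, .cup), (1, .pos), (0, .pos), (2, .cap), (1, .pos), (2, .cap)] :=
    stp 1 (Or.inl (Elem.r1cupN 3)) rfl rfl rfl
  have z5 : Iso 8 8 [(2, .cup), (3, .cup), (1, .pos), (0, .pos), (2, .cap), (1, .pos), (2, .cap)]
      [(2, .cup), (1, .pos), (3, .cup), (0, .pos), (2, .cap), (1, .pos), (2, .cap)] :=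
    stp 1 (Or.inr (Elem.comm 1 0 .pos .cup)) rfl rfl rfl
  have z6 : Iso 8 8 [(2, .cup), (1, .pos), (3, .cup), (0, .pos), (2, .cap), (1, .pos), (2, .cap)]
      [(2, .cup), (1, .pos), (0, .pos), (3, .cup), (2, .cap), (1, .pos), (2, .cap)] :=
    stp 2 (Or.inr (Elem.comm 0 1 .pos .cup)) rfl rfl rfl
  have z7 : Iso 8 8 [(2, .cup), (1, .pos), (0, .pos), (3, .cup), (2, .cap), (1, .pos), (2, .cap)]
      [(2, .cup), (1, .pos), (0, .pos), (1, .pos), (2, .cap)] :=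
    stp 3 (Or.inl (Elem.zag 2)) rfl rfl rfl
  have z8 : Iso 8 8 [(2, .cup), (1, .pos), (0, .pos), (1, .pos), (2, .cap)]
      [(2, .cup), (0, .pos), (1, .pos), (0, .pos), (2, .cap)] :=
    stp 1 (Or.inr (Elem.r3P 0)) rfl rfl rfl
  have z9 : Iso 8 8 [(2, .cup), (0, .pos), (1, .pos), (0, .pos), (2, .cap)]
      [(0, .pos), (2, .cup), (1, .pos), (0, .pos), (2, .cap)] :=
    stp 0 (Or.inr (Elem.comm 0 0 .pos .cup)) rfl rfl rfl
  have z10 : Iso 8 8 [(0, .pos), (2, .cup), (1, .pos), (0, .pos), (2, .cap)]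
      [(0, .pos), (2, .cup), (1, .pos), (2, .cap), (0, .pos)] :=
    stp 3 (Or.inl (Elem.comm 0 0 .pos .cap)) rfl rfl rfl
  have z11 : Iso 8 8 [(0, .pos), (2, .cup), (1, .pos), (2, .cap), (0, .pos)]
      [(0, .pos), (1, .cup), (2, .neg), (2, .cap), (0, .pos)] :=
    stp 1 (Or.inr (Elem.cupN 1)) rfl rfl rfl
  have z12 : Iso 8 8 [(0, .pos), (1, .cup), (2, .neg), (2, .cap), (0, .pos)]
      [(0, .pos), (1, .cup), (2, .cap), (0, .pos)] :=
    stp 2 (Or.inl (Elem.r1capN 2)) rfl rfl rfl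
  have z13 : Iso 8 8 [(0, .pos), (1, .cup), (2, .cap), (0, .pos)]
      [(0, .pos), (0, .pos)] :=
    stp 1 (Or.inl (Elem.zig 1)) rfl rfl rfl
  exact iso_trans z0 (iso_trans z1 (iso_trans z2 (iso_trans z3 (iso_trans z4 (iso_trans z5 (iso_trans z6 (iso_trans z7 (iso_trans z8 (iso_trans z9 (iso_trans z10 (iso_trans z11 (iso_trans z12 z13))))))))))))

theorem iso_curlP6 : Iso 8 8 [(8, .cup), (9, .cup), (7, .pos), (6, .pos), (8, .pos), (7, .pos), (9, .cap), (8, .cap)]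
    [(6, .pos), (6, .pos)] := by
  have z0 : Iso 8 8 [(8, .cup), (9, .cup), (7, .pos), (6, .pos), (8, .pos), (7, .pos), (9, .cap), (8, .cap)]
      [(8, .cup), (9, .cup), (7, .pos), (6, .pos), (8, .pos), (9, .cap), (7, .pos), (8, .cap)] :=
    stp 5 (Or.inl (Elem.comm 7 0 .pos .cap)) rfl rfl rfl
  have z1 : Iso 8 8 [(8, .cup), (9, .cup), (7, .pos), (6, .pos), (8, .pos), (9, .cap), (7, .pos), (8, .cap)]
      [(8, .cup), (9, .cup), (7, .pos), (6, .pos), (9, .neg), (8, .cap), (7, .pos), (8, .cap)] :=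
    stp 4 (Or.inr (Elem.capN 8)) rfl rfl rfl
  have z2 : Iso 8 8 [(8, .cup), (9, .cup), (7, .pos), (6, .pos), (9, .neg), (8, .cap), (7, .pos), (8, .cap)]
      [(8, .cup), (9, .cup), (7, .pos), (9, .neg), (6, .pos), (8, .cap), (7, .pos), (8, .cap)] :=
    stp 3 (Or.inl (Elem.comm 6 1 .pos .neg)) rfl rfl rfl
  have z3 : Iso 8 8 [(8, .cup), (9, .cup), (7, .pos), (9, .neg), (6, .pos), (8, .cap), (7, .pos), (8, .cap)]
      [(8, .cup), (9, .cup), (9, .neg), (7, .pos), (6, .pos), (8, .cap), (7, .pos), (8, .cap)] :=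
    stp 2 (Or.inl (Elem.comm 7 0 .pos .neg)) rfl rfl rfl
  have z4 : Iso 8 8 [(8, .cup), (9, .cup), (9, .neg), (7, .pos), (6, .pos), (8, .cap), (7, .pos), (8, .cap)]
      [(8, .cup), (9, .cup), (7, .pos), (6, .pos), (8, .cap), (7, .pos), (8, .cap)] :=
    stp 1 (Or.inl (Elem.r1cupN 9)) rfl rfl rfl
  have z5 : Iso 8 8 [(8, .cup), (9, .cup), (7, .pos), (6, .pos), (8, .cap), (7, .pos), (8, .cap)]
      [(8, .cup), (7, .pos), (9, .cup), (6, .pos), (8, .cap), (7, .pos), (8, .cap)] :=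
    stp 1 (Or.inr (Elem.comm 7 0 .pos .cup)) rfl rfl rfl
  have z6 : Iso 8 8 [(8, .cup), (7, .pos), (9, .cup), (6, .pos), (8, .cap), (7, .pos), (8, .cap)]
      [(8, .cup), (7, .pos), (6, .pos), (9, .cup), (8, .cap), (7, .pos), (8, .cap)] :=
    stp 2 (Or.inr (Elem.comm 6 1 .pos .cup)) rfl rfl rfl
  have z7 : Iso 8 8 [(8, .cup), (7, .pos), (6, .pos), (9, .cup), (8, .cap), (7, .pos), (8, .cap)]
      [(8, .cup), (7, .pos), (6, .pos), (7, .pos), (8, .cap)] :=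
    stp 3 (Or.inl (Elem.zag 8)) rfl rfl rfl
  have z8 : Iso 8 8 [(8, .cup), (7, .pos), (6, .pos), (7, .pos), (8, .cap)]
      [(8, .cup), (6, .pos), (7, .pos), (6, .pos), (8, .cap)] :=
    stp 1 (Or.inr (Elem.r3P 6)) rfl rfl rfl
  have z9 : Iso 8 8 [(8, .cup), (6, .pos), (7, .pos), (6, .pos), (8, .cap)]
      [(6, .pos), (8, .cup), (7, .pos), (6, .pos), (8, .cap)] :=
    stp 0 (Or.inr (Elem.comm 6 0 .pos .cup)) rfl rfl rfl
  have z10 : Iso 8 8 [(6, .pos), (8, .cup), (7, .pos), (6, .pos), (8, .cap)]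
      [(6, .pos), (8, .cup), (7, .pos), (8, .cap), (6, .pos)] :=
    stp 3 (Or.inl (Elem.comm 6 0 .pos .cap)) rfl rfl rfl
  have z11 : Iso 8 8 [(6, .pos), (8, .cup), (7, .pos), (8, .cap), (6, .pos)]
      [(6, .pos), (7, .cup), (8, .neg), (8, .cap), (6, .pos)] :=
    stp 1 (Or.inr (Elem.cupN 7)) rfl rfl rfl
  have z12 : Iso 8 8 [(6, .pos), (7, .cup), (8, .neg), (8, .cap), (6, .pos)]
      [(6, .pos), (7, .cup), (8, .cap), (6, .pos)] :=
    stp 2 (Or.inl (Elem.r1capN 8)) rfl rfl rfl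
  have z13 : Iso 8 8 [(6, .pos), (7, .cup), (8, .cap), (6, .pos)]
      [(6, .pos), (6, .pos)] :=
    stp 1 (Or.inl (Elem.zig 7)) rfl rfl rfl
  exact iso_trans z0 (iso_trans z1 (iso_trans z2 (iso_trans z3 (iso_trans z4 (iso_trans z5 (iso_trans z6 (iso_trans z7 (iso_trans z8 (iso_trans z9 (iso_trans z10 (iso_trans z11 (iso_trans z12 z13))))))))))))

theorem iso_G0 : Iso 0 0 [(0, .cup), (0, .cup), (2, .pos), (2, .pos), (1, .cap), (0, .cap)]
    [(0, .cup), (0, .cap)] := by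
  have z0 : Iso 0 0 [(0, .cup), (0, .cup), (2, .pos), (2, .pos), (1, .cap), (0, .cap)]
      [(0, .cup), (2, .cup), (2, .pos), (2, .pos), (1, .cap), (0, .cap)] :=
    stp 0 (Or.inr (Elem.comm 0 0 .cup .cup)) rfl rfl rfl
  have z1 : Iso 0 0 [(0, .cup), (2, .cup), (2, .pos), (2, .pos), (1, .cap), (0, .cap)]
      [(0, .cup), (2, .cup), (2, .pos), (1, .cap), (0, .cap)] :=
    stp 1 (Or.inl (Elem.r1cupP 2)) rfl rfl rfl
  have z2 : Iso 0 0 [(0, .cup), (2, .cup), (2, .pos), (1, .cap), (0, .cap)]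
      [(0, .cup), (2, .cup), (1, .cap), (0, .cap)] :=
    stp 1 (Or.inl (Elem.r1cupP 2)) rfl rfl rfl
  have z3 : Iso 0 0 [(0, .cup), (2, .cup), (1, .cap), (0, .cap)]
      [(0, .cup), (0, .cap)] :=
    stp 1 (Or.inl (Elem.zag 1)) rfl rfl rfl
  exact iso_trans z0 (iso_trans z1 (iso_trans z2 z3))

theorem iso_four : Iso 0 0 [(0, .cup), (0, .cup), (1, .cap), (0, .cap)]
    [(0, .cup), (0, .cap)] := by
  have z0 : Iso 0 0 [(0, .cup), (0, .cup), (1, .cap), (0, .cap)]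
      [(0, .cup), (2, .cup), (1, .cap), (0, .cap)] :=
    stp 0 (Or.inr (Elem.comm 0 0 .cup .cup)) rfl rfl rfl
  have z1 : Iso 0 0 [(0, .cup), (2, .cup), (1, .cap), (0, .cap)]
      [(0, .cup), (0, .cap)] :=
    stp 1 (Or.inl (Elem.zag 1)) rfl rfl rfl
  exact iso_trans z0 z1

theorem iso_slN : Iso 6 6 [(0, .neg), (1, .neg), (0, .neg)]
    [(1, .neg), (0, .neg), (1, .neg)] := by
  have z0 : Iso 6 6 [(0, .neg), (1, .neg), (0, .neg)]
      [(1, .neg), (0, .neg), (1, .neg)] :=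
    stp 0 (Or.inl (Elem.r3N 0)) rfl rfl rfl
  exact z0

theorem iso_slP : Iso 6 6 [(0, .pos), (1, .neg), (0, .neg)]
    [(1, .neg), (0, .neg), (1, .pos)] := by
  have z0 : Iso 6 6 [(0, .pos), (1, .neg), (0, .neg)]
      [(0, .pos), (1, .neg), (0, .neg), (1, .neg), (1, .pos)] :=
    stp 3 (Or.inr (Elem.r2N 1)) rfl rfl rfl
  have z1 : Iso 6 6 [(0, .pos), (1, .neg), (0, .neg), (1, .neg), (1, .pos)]
      [(0, .pos), (0, .neg), (1, .neg), (0, .neg), (1, .pos)] :=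
    stp 1 (Or.inr (Elem.r3N 0)) rfl rfl rfl
  have z2 : Iso 6 6 [(0, .pos), (0, .neg), (1, .neg), (0, .neg), (1, .pos)]
      [(1, .neg), (0, .neg), (1, .pos)] :=
    stp 0 (Or.inl (Elem.r2P 0)) rfl rfl rfl
  exact iso_trans z0 (iso_trans z1 z2)

theorem iso_Ka : Iso 4 0 [(1, .pos), (2, .pos), (2, .pos), (1, .cap), (1, .cup), (0, .neg), (0, .neg), (0, .neg), (0, .neg), (0, .neg), (1, .cap), (0, .cap)]
    [(2, .neg), (1, .pos), (2, .cap), (1, .cup), (0, .neg), (0, .neg), (0, .neg), (0, .neg), (0, .neg), (1, .cap), (0, .cap)] := by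
  have z0 : Iso 4 0 [(1, .pos), (2, .pos), (2, .pos), (1, .cap), (1, .cup), (0, .neg), (0, .neg), (0, .neg), (0, .neg), (0, .neg), (1, .cap), (0, .cap)]
      [(1, .pos), (2, .pos), (1, .neg), (2, .cap), (1, .cup), (0, .neg), (0, .neg), (0, .neg), (0, .neg), (0, .neg), (1, .cap), (0, .cap)] :=
    stp 2 (Or.inl (Elem.capP 1)) rfl rfl rfl
  have z1 : Iso 4 0 [(1, .pos), (2, .pos), (1, .neg), (2, .cap), (1, .cup), (0, .neg), (0, .neg), (0, .neg), (0, .neg), (0, .neg), (1, .cap), (0, .cap)]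
      [(2, .neg), (2, .pos), (1, .pos), (2, .pos), (1, .neg), (2, .cap), (1, .cup), (0, .neg), (0, .neg), (0, .neg), (0, .neg), (0, .neg), (1, .cap), (0, .cap)] :=
    stp 0 (Or.inr (Elem.r2N 2)) rfl rfl rfl
  have z2 : Iso 4 0 [(2, .neg), (2, .pos), (1, .pos), (2, .pos), (1, .neg), (2, .cap), (1, .cup), (0, .neg), (0, .neg), (0, .neg), (0, .neg), (0, .neg), (1, .cap), (0, .cap)]
      [(2, .neg), (1, .pos), (2, .pos), (1, .pos), (1, .neg), (2, .cap), (1, .cup), (0, .neg), (0, .neg), (0, .neg), (0, .neg), (0, .neg), (1, .cap), (0, .cap)] :=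
    stp 1 (Or.inr (Elem.r3P 1)) rfl rfl rfl
  have z3 : Iso 4 0 [(2, .neg), (1, .pos), (2, .pos), (1, .pos), (1, .neg), (2, .cap), (1, .cup), (0, .neg), (0, .neg), (0, .neg), (0, .neg), (0, .neg), (1, .cap), (0, .cap)]
      [(2, .neg), (1, .pos), (2, .pos), (2, .cap), (1, .cup), (0, .neg), (0, .neg), (0, .neg), (0, .neg), (0, .neg), (1, .cap), (0, .cap)] :=
    stp 3 (Or.inl (Elem.r2P 1)) rfl rfl rfl
  have z4 : Iso 4 0 [(2, .neg), (1, .pos), (2, .pos), (2, .cap), (1, .cup), (0, .neg), (0, .neg), (0, .neg), (0, .neg), (0, .neg), (1, .cap), (0, .cap)]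
      [(2, .neg), (1, .pos), (2, .cap), (1, .cup), (0, .neg), (0, .neg), (0, .neg), (0, .neg), (0, .neg), (1, .cap), (0, .cap)] :=
    stp 2 (Or.inl (Elem.r1capP 2)) rfl rfl rfl
  exact iso_trans z0 (iso_trans z1 (iso_trans z2 (iso_trans z3 z4)))

theorem iso_Kb : Iso 4 0 [(1, .pos), (2, .pos), (2, .pos), (2, .pos), (2, .pos), (1, .cap), (1, .cup), (0, .neg), (0, .neg), (0, .neg), (1, .cap), (0, .cap)]
    [(2, .neg), (1, .pos), (1, .pos), (1, .pos), (2, .cap), (1, .cup), (0, .neg), (0, .neg), (0, .neg), (1, .cap), (0, .cap)] := by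
  have z0 : Iso 4 0 [(1, .pos), (2, .pos), (2, .pos), (2, .pos), (2, .pos), (1, .cap), (1, .cup), (0, .neg), (0, .neg), (0, .neg), (1, .cap), (0, .cap)]
      [(1, .pos), (2, .pos), (2, .pos), (2, .pos), (1, .neg), (2, .cap), (1, .cup), (0, .neg), (0, .neg), (0, .neg), (1, .cap), (0, .cap)] :=
    stp 4 (Or.inl (Elem.capP 1)) rfl rfl rfl
  have z1 : Iso 4 0 [(1, .pos), (2, .pos), (2, .pos), (2, .pos), (1, .neg), (2, .cap), (1, .cup), (0, .neg), (0, .neg), (0, .neg), (1, .cap), (0, .cap)]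
      [(1, .pos), (2, .pos), (1, .neg), (1, .pos), (2, .pos), (2, .pos), (1, .neg), (2, .cap), (1, .cup), (0, .neg), (0, .neg), (0, .neg), (1, .cap), (0, .cap)] :=
    stp 2 (Or.inr (Elem.r2N 1)) rfl rfl rfl
  have z2 : Iso 4 0 [(1, .pos), (2, .pos), (1, .neg), (1, .pos), (2, .pos), (2, .pos), (1, .neg), (2, .cap), (1, .cup), (0, .neg), (0, .neg), (0, .neg), (1, .cap), (0, .cap)]
      [(1, .pos), (2, .pos), (1, .neg), (1, .pos), (2, .pos), (1, .neg), (1, .pos), (2, .pos), (1, .neg), (2, .cap), (1, .cup), (0, .neg), (0, .neg), (0, .neg), (1, .cap), (0, .cap)] :=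
    stp 5 (Or.inr (Elem.r2N 1)) rfl rfl rfl
  have z3 : Iso 4 0 [(1, .pos), (2, .pos), (1, .neg), (1, .pos), (2, .pos), (1, .neg), (1, .pos), (2, .pos), (1, .neg), (2, .cap), (1, .cup), (0, .neg), (0, .neg), (0, .neg), (1, .cap), (0, .cap)]
      [(2, .neg), (2, .pos), (1, .pos), (2, .pos), (1, .neg), (1, .pos), (2, .pos), (1, .neg), (1, .pos), (2, .pos), (1, .neg), (2, .cap), (1, .cup), (0, .neg), (0, .neg), (0, .neg), (1, .cap), (0, .cap)] :=
    stp 0 (Or.inr (Elem.r2N 2)) rfl rfl rfl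
  have z4 : Iso 4 0 [(2, .neg), (2, .pos), (1, .pos), (2, .pos), (1, .neg), (1, .pos), (2, .pos), (1, .neg), (1, .pos), (2, .pos), (1, .neg), (2, .cap), (1, .cup), (0, .neg), (0, .neg), (0, .neg), (1, .cap), (0, .cap)]
      [(2, .neg), (1, .pos), (2, .pos), (1, .pos), (1, .neg), (1, .pos), (2, .pos), (1, .neg), (1, .pos), (2, .pos), (1, .neg), (2, .cap), (1, .cup), (0, .neg), (0, .neg), (0, .neg), (1, .cap), (0, .cap)] :=
    stp 1 (Or.inr (Elem.r3P 1)) rfl rfl rfl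
  have z5 : Iso 4 0 [(2, .neg), (1, .pos), (2, .pos), (1, .pos), (1, .neg), (1, .pos), (2, .pos), (1, .neg), (1, .pos), (2, .pos), (1, .neg), (2, .cap), (1, .cup), (0, .neg), (0, .neg), (0, .neg), (1, .cap), (0, .cap)]
      [(2, .neg), (1, .pos), (2, .pos), (1, .pos), (2, .pos), (1, .neg), (1, .pos), (2, .pos), (1, .neg), (2, .cap), (1, .cup), (0, .neg), (0, .neg), (0, .neg), (1, .cap), (0, .cap)] :=
    stp 3 (Or.inl (Elem.r2P 1)) rfl rfl rfl
  have z6 : Iso 4 0 [(2, .neg), (1, .pos), (2, .pos), (1, .pos), (2, .pos), (1, .neg), (1, .pos), (2, .pos), (1, .neg), (2, .cap), (1, .cup), (0, .neg), (0, .neg), (0, .neg), (1, .cap), (0, .cap)]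
      [(2, .neg), (1, .pos), (2, .pos), (2, .neg), (2, .pos), (1, .pos), (2, .pos), (1, .neg), (1, .pos), (2, .pos), (1, .neg), (2, .cap), (1, .cup), (0, .neg), (0, .neg), (0, .neg), (1, .cap), (0, .cap)] :=
    stp 3 (Or.inr (Elem.r2N 2)) rfl rfl rfl
  have z7 : Iso 4 0 [(2, .neg), (1, .pos), (2, .pos), (2, .neg), (2, .pos), (1, .pos), (2, .pos), (1, .neg), (1, .pos), (2, .pos), (1, .neg), (2, .cap), (1, .cup), (0, .neg), (0, .neg), (0, .neg), (1, .cap), (0, .cap)]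
      [(2, .neg), (1, .pos), (2, .pos), (2, .neg), (1, .pos), (2, .pos), (1, .pos), (1, .neg), (1, .pos), (2, .pos), (1, .neg), (2, .cap), (1, .cup), (0, .neg), (0, .neg), (0, .neg), (1, .cap), (0, .cap)] :=
    stp 4 (Or.inr (Elem.r3P 1)) rfl rfl rfl
  have z8 : Iso 4 0 [(2, .neg), (1, .pos), (2, .pos), (2, .neg), (1, .pos), (2, .pos), (1, .pos), (1, .neg), (1, .pos), (2, .pos), (1, .neg), (2, .cap), (1, .cup), (0, .neg), (0, .neg), (0, .neg), (1, .cap), (0, .cap)]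
      [(2, .neg), (1, .pos), (2, .pos), (2, .neg), (1, .pos), (2, .pos), (1, .pos), (2, .pos), (1, .neg), (2, .cap), (1, .cup), (0, .neg), (0, .neg), (0, .neg), (1, .cap), (0, .cap)] :=
    stp 6 (Or.inl (Elem.r2P 1)) rfl rfl rfl
  have z9 : Iso 4 0 [(2, .neg), (1, .pos), (2, .pos), (2, .neg), (1, .pos), (2, .pos), (1, .pos), (2, .pos), (1, .neg), (2, .cap), (1, .cup), (0, .neg), (0, .neg), (0, .neg), (1, .cap), (0, .cap)]
      [(2, .neg), (1, .pos), (2, .pos), (2, .neg), (1, .pos), (2, .pos), (2, .neg), (2, .pos), (1, .pos), (2, .pos), (1, .neg), (2, .cap), (1, .cup), (0, .neg), (0, .neg), (0, .neg), (1, .cap), (0, .cap)] :=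
    stp 6 (Or.inr (Elem.r2N 2)) rfl rfl rfl
  have z10 : Iso 4 0 [(2, .neg), (1, .pos), (2, .pos), (2, .neg), (1, .pos), (2, .pos), (2, .neg), (2, .pos), (1, .pos), (2, .pos), (1, .neg), (2, .cap), (1, .cup), (0, .neg), (0, .neg), (0, .neg), (1, .cap), (0, .cap)]
      [(2, .neg), (1, .pos), (2, .pos), (2, .neg), (1, .pos), (2, .pos), (2, .neg), (1, .pos), (2, .pos), (1, .pos), (1, .neg), (2, .cap), (1, .cup), (0, .neg), (0, .neg), (0, .neg), (1, .cap), (0, .cap)] :=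
    stp 7 (Or.inr (Elem.r3P 1)) rfl rfl rfl
  have z11 : Iso 4 0 [(2, .neg), (1, .pos), (2, .pos), (2, .neg), (1, .pos), (2, .pos), (2, .neg), (1, .pos), (2, .pos), (1, .pos), (1, .neg), (2, .cap), (1, .cup), (0, .neg), (0, .neg), (0, .neg), (1, .cap), (0, .cap)]
      [(2, .neg), (1, .pos), (2, .pos), (2, .neg), (1, .pos), (2, .pos), (2, .neg), (1, .pos), (2, .pos), (2, .cap), (1, .cup), (0, .neg), (0, .neg), (0, .neg), (1, .cap), (0, .cap)] :=
    stp 9 (Or.inl (Elem.r2P 1)) rfl rfl rfl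
  have z12 : Iso 4 0 [(2, .neg), (1, .pos), (2, .pos), (2, .neg), (1, .pos), (2, .pos), (2, .neg), (1, .pos), (2, .pos), (2, .cap), (1, .cup), (0, .neg), (0, .neg), (0, .neg), (1, .cap), (0, .cap)]
      [(2, .neg), (1, .pos), (2, .pos), (2, .neg), (1, .pos), (1, .pos), (2, .pos), (2, .cap), (1, .cup), (0, .neg), (0, .neg), (0, .neg), (1, .cap), (0, .cap)] :=
    stp 5 (Or.inl (Elem.r2P 2)) rfl rfl rfl
  have z13 : Iso 4 0 [(2, .neg), (1, .pos), (2, .pos), (2, .neg), (1, .pos), (1, .pos), (2, .pos), (2, .cap), (1, .cup), (0, .neg), (0, .neg), (0, .neg), (1, .cap), (0, .cap)]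
      [(2, .neg), (1, .pos), (1, .pos), (1, .pos), (2, .pos), (2, .cap), (1, .cup), (0, .neg), (0, .neg), (0, .neg), (1, .cap), (0, .cap)] :=
    stp 2 (Or.inl (Elem.r2P 2)) rfl rfl rfl
  have z14 : Iso 4 0 [(2, .neg), (1, .pos), (1, .pos), (1, .pos), (2, .pos), (2, .cap), (1, .cup), (0, .neg), (0, .neg), (0, .neg), (1, .cap), (0, .cap)]
      [(2, .neg), (1, .pos), (1, .pos), (1, .pos), (2, .cap), (1, .cup), (0, .neg), (0, .neg), (0, .neg), (1, .cap), (0, .cap)] :=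
    stp 4 (Or.inl (Elem.r1capP 2)) rfl rfl rfl
  exact iso_trans z0 (iso_trans z1 (iso_trans z2 (iso_trans z3 (iso_trans z4 (iso_trans z5 (iso_trans z6 (iso_trans z7 (iso_trans z8 (iso_trans z9 (iso_trans z10 (iso_trans z11 (iso_trans z12 (iso_trans z13 z14)))))))))))))

theorem iso_Kb0 : Iso 0 0 [(0, .cup), (0, .cup), (2, .pos), (2, .pos), (2, .pos), (2, .pos), (1, .cap), (1, .cup), (0, .neg), (0, .neg), (0, .neg), (1, .cap), (0, .cap)]
    [(0, .cup), (1, .cup), (0, .neg), (0, .neg), (0, .neg), (1, .cap), (0, .cap)] := by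
  have z0 : Iso 0 0 [(0, .cup), (0, .cup), (2, .pos), (2, .pos), (2, .pos), (2, .pos), (1, .cap), (1, .cup), (0, .neg), (0, .neg), (0, .neg), (1, .cap), (0, .cap)]
      [(0, .cup), (2, .cup), (2, .pos), (2, .pos), (2, .pos), (2, .pos), (1, .cap), (1, .cup), (0, .neg), (0, .neg), (0, .neg), (1, .cap), (0, .cap)] :=
    stp 0 (Or.inr (Elem.comm 0 0 .cup .cup)) rfl rfl rfl
  have z1 : Iso 0 0 [(0, .cup), (2, .cup), (2, .pos), (2, .pos), (2, .pos), (2, .pos), (1, .cap), (1, .cup), (0, .neg), (0, .neg), (0, .neg), (1, .cap), (0, .cap)]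
      [(0, .cup), (2, .cup), (2, .pos), (2, .pos), (2, .pos), (1, .cap), (1, .cup), (0, .neg), (0, .neg), (0, .neg), (1, .cap), (0, .cap)] :=
    stp 1 (Or.inl (Elem.r1cupP 2)) rfl rfl rfl
  have z2 : Iso 0 0 [(0, .cup), (2, .cup), (2, .pos), (2, .pos), (2, .pos), (1, .cap), (1, .cup), (0, .neg), (0, .neg), (0, .neg), (1, .cap), (0, .cap)]
      [(0, .cup), (2, .cup), (2, .pos), (2, .pos), (1, .cap), (1, .cup), (0, .neg), (0, .neg), (0, .neg), (1, .cap), (0, .cap)] :=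
    stp 1 (Or.inl (Elem.r1cupP 2)) rfl rfl rfl
  have z3 : Iso 0 0 [(0, .cup), (2, .cup), (2, .pos), (2, .pos), (1, .cap), (1, .cup), (0, .neg), (0, .neg), (0, .neg), (1, .cap), (0, .cap)]
      [(0, .cup), (2, .cup), (2, .pos), (1, .cap), (1, .cup), (0, .neg), (0, .neg), (0, .neg), (1, .cap), (0, .cap)] :=
    stp 1 (Or.inl (Elem.r1cupP 2)) rfl rfl rfl
  have z4 : Iso 0 0 [(0, .cup), (2, .cup), (2, .pos), (1, .cap), (1, .cup), (0, .neg), (0, .neg), (0, .neg), (1, .cap), (0, .cap)]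
      [(0, .cup), (2, .cup), (1, .cap), (1, .cup), (0, .neg), (0, .neg), (0, .neg), (1, .cap), (0, .cap)] :=
    stp 1 (Or.inl (Elem.r1cupP 2)) rfl rfl rfl
  have z5 : Iso 0 0 [(0, .cup), (2, .cup), (1, .cap), (1, .cup), (0, .neg), (0, .neg), (0, .neg), (1, .cap), (0, .cap)]
      [(0, .cup), (1, .cup), (0, .neg), (0, .neg), (0, .neg), (1, .cap), (0, .cap)] :=
    stp 1 (Or.inl (Elem.zag 1)) rfl rfl rfl
  exact iso_trans z0 (iso_trans z1 (iso_trans z2 (iso_trans z3 (iso_trans z4 z5))))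

end Pool.Agent.Helper35.Skl
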