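import Pool.Agent.Helper35.Skl.Rec

/-!
# The bracket of closed diagrams, the number of components and smoothings
-/

set_option autoImplicit false

namespace Pool.Agent.Helper35.Skl

open Pool.Agent.Helper31.Sk

section
universe u
variable {R : Type u} [CommRing R] {a b : R}

/-- the bracket of a closed diagram -/
def bk (a b : R) (w : Word) : R := val (Br a b) w (fun _ => 1) []

theorem bk_pos {k i : ℕ} {u : Word} (hu : Legal 0 u k) (hi : i + 2 ≤ k) (v : Word) :
    bk a b (u ++ (i, .pos) :: v) =
      a * bk a b (u ++ v) - b * bk a b (u ++ (i, .cap) :: (i, .cup) :: v) := by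
  unfold bk
  rw [val_append, val_append, val_append]
  rw [val_congr (Br a b) hu _ _ [] rfl fun l hl =>
    show val (Br a b) ((i, .pos) :: v) (fun _ => 1) l =
      a * val (Br a b) v (fun _ => 1) l +
        (-b) * val (Br a b) ((i, .cap) :: (i, .cup) :: v) (fun _ => 1) l from ?_]
  · rw [val_lin]
    ring
  · rw [val_cons, act_pos i _ l (by omega), val_cons]
    rw [show val (Br a b) ((i, .cup) :: v) (fun _ => 1) =
      act (Br a b) i .cup (val (Br a b) v (fun _ => 1)) from rfl]
    ring

theorem bk_neg {k i : ℕ} {u : Word} (hu : Legal 0 u k) (hi : i + 2 ≤ k) (v : Word) :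
    bk a b (u ++ (i, .neg) :: v) =
      b * bk a b (u ++ v) - a * bk a b (u ++ (i, .cap) :: (i, .cup) :: v) := by
  unfold bk
  rw [val_append, val_append, val_append]
  rw [val_congr (Br a b) hu _ _ [] rfl fun l hl =>
    show val (Br a b) ((i, .neg) :: v) (fun _ => 1) l =
      b * val (Br a b) v (fun _ => 1) l +
        (-a) * val (Br a b) ((i, .cap) :: (i, .cup) :: v) (fun _ => 1) l from ?_]
  · rw [val_lin]
    ring
  · rw [val_cons, act_neg i _ l (by omega), val_cons]
    rw [show val (Br a b) ((i, .cup) :: v) (fun _ => 1) =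
      act (Br a b) i .cup (val (Br a b) v (fun _ => 1)) from rfl]
    ring

theorem bk_rel {c : R} {k : ℕ} {u : Word} (hu : Legal 0 u k) {x y : Word}
    (h : ∀ (φ : List Bool → R) (l : List Bool), l.length = k →
      val (Br a b) x φ l = c * val (Br a b) y φ l) (v : Word) :
    bk a b (u ++ (x ++ v)) = c * bk a b (u ++ (y ++ v)) := by
  unfold bk
  rw [val_append, val_append, val_append, val_append, ← val_smul]
  exact val_congr _ hu _ _ [] rfl fun l hl => h _ l hl

theorem bk_loop {k i : ℕ} {u : Word} (hu : Legal 0 u k) (hi : i ≤ k) (v : Word) :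
    bk a b (u ++ (i, .cup) :: (i, .cap) :: v) = (a ^ 2 + b ^ 2) * bk a b (u ++ v) :=
  bk_rel (x := [(i, .cup), (i, .cap)]) (y := []) hu
    (fun φ l hl => act_loop i φ l (by omega)) v

theorem bk_zig (hab : a * b = 1) {k i : ℕ} {u : Word} (hu : Legal 0 u k) (hi : i + 1 ≤ k)
    (v : Word) : bk a b (u ++ (i, .cup) :: (i + 1, .cap) :: v) = bk a b (u ++ v) := by
  have := bk_rel (a := a) (b := b) (c := 1) (x := [(i, .cup), (i + 1, .cap)]) (y := []) hu
    (fun φ l hl => by rw [one_mul]; exact act_zig hab i φ l (by omega)) v
  rw [one_mul] at this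
  exact this

theorem bk_zag (hab : a * b = 1) {k i : ℕ} {u : Word} (hu : Legal 0 u k) (hi : i + 1 ≤ k)
    (v : Word) : bk a b (u ++ (i + 1, .cup) :: (i, .cap) :: v) = bk a b (u ++ v) := by
  have := bk_rel (a := a) (b := b) (c := 1) (x := [(i + 1, .cup), (i, .cap)]) (y := []) hu
    (fun φ l hl => by rw [one_mul]; exact act_zag hab i φ l (by omega)) v
  rw [one_mul] at this
  exact this

theorem bk_comm {k i j : ℕ} {g h : Gen} {u : Word} (hu : Legal 0 u k) (hi : i + g.src ≤ k)
    (v : Word) : bk a b (u ++ (i, g) :: (i + g.tgt + j, h) :: v) =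
      bk a b (u ++ (i + g.src + j, h) :: (i, g) :: v) := by
  have := bk_rel (a := a) (b := b) (c := 1) (x := [(i, g), (i + g.tgt + j, h)])
    (y := [(i + g.src + j, h), (i, g)]) hu
    (fun φ l hl => by rw [one_mul]; exact comm_rel _ i j g h φ l (by omega)) v
  rw [one_mul] at this
  exact this

theorem bk_r1P (hab : a * b = 1) {k i : ℕ} {u : Word} (hu : Legal 0 u k) (hi : i ≤ k)
    (v : Word) : bk a b (u ++ (i, .cup) :: (i, .pos) :: v) = -b ^ 3 * bk a b (u ++ (i, .cup) :: v) :=
  bk_rel (x := [(i, .cup), (i, .pos)]) (y := [(i, .cup)]) hu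
    (fun φ l hl => act_r1 hab i φ l (by omega)) v

theorem act_r1n (hab : a * b = 1) (i : ℕ) (φ : List Bool → R) (l : List Bool)
    (hl : i ≤ l.length) :
    act (Br a b) i .cup (act (Br a b) i .neg φ) l = -a ^ 3 * act (Br a b) i .cup φ l := by
  induction i generalizing φ l with
  | zero =>
    simp [act0, S2, Br, Mw]
    grind
  | succ i ih =>
    rcases l with _ | ⟨x, l⟩
    · simp at hl
    · simp only [act_succ]
      exact ih _ l (by simpa using hl)

theorem bk_r1N (hab : a * b = 1) {k i : ℕ} {u : Word} (hu : Legal 0 u k) (hi : i ≤ k)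
    (v : Word) : bk a b (u ++ (i, .cup) :: (i, .neg) :: v) = -a ^ 3 * bk a b (u ++ (i, .cup) :: v) :=
  bk_rel (x := [(i, .cup), (i, .neg)]) (y := [(i, .cup)]) hu
    (fun φ l hl => act_r1n hab i φ l (by omega)) v

/-- the bracket of a diagram with `n` positive half twists -/
theorem bk_twP (hab : a * b = 1) {k i : ℕ} {u : Word} (hu : Legal 0 u k) (hi : i + 2 ≤ k) (n : ℕ) :
    ∀ v : Word, (a ^ 2 + b ^ 2) * bk a b (u ++ (List.replicate n (i, .pos) ++ v)) =
      a ^ n * ((a ^ 2 + b ^ 2) * bk a b (u ++ v) - bk a b (u ++ (i, .cap) :: (i, .cup) :: v)) +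
        (-b ^ 3) ^ n * bk a b (u ++ (i, .cap) :: (i, .cup) :: v) := by
  induction n with
  | zero => intro v; simp
  | succ n ih =>
    intro v
    rw [List.replicate_succ', List.append_assoc, List.singleton_append, ih, bk_pos hu hi]
    have hu' : Legal 0 (u ++ [(i, .cap)]) (k - 2) :=
      legal_append.2 ⟨k, hu, ⟨by simpa [Gen.src] using hi, by simp [Legal, Gen.src, Gen.tgt]⟩⟩
    have h := bk_r1P hab hu' (i := i) (by omega) v
    simp only [List.append_assoc, List.singleton_append] at h
    rw [h]
    have e : a ^ 2 * b = a := by rw [pow_two, mul_assoc, hab, mul_one]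
    linear_combination (-a ^ n * bk a b (u ++ (i, .cap) :: (i, .cup) :: v)) * e

theorem bk_twN (hab : a * b = 1) {k i : ℕ} {u : Word} (hu : Legal 0 u k) (hi : i + 2 ≤ k) (n : ℕ) :
    ∀ v : Word, (a ^ 2 + b ^ 2) * bk a b (u ++ (List.replicate n (i, .neg) ++ v)) =
      b ^ n * ((a ^ 2 + b ^ 2) * bk a b (u ++ v) - bk a b (u ++ (i, .cap) :: (i, .cup) :: v)) +
        (-a ^ 3) ^ n * bk a b (u ++ (i, .cap) :: (i, .cup) :: v) := by
  induction n with
  | zero => intro v; simp
  | succ n ih =>
    intro v
    rw [List.replicate_succ', List.append_assoc, List.singleton_append, ih, bk_neg hu hi]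
    have hu' : Legal 0 (u ++ [(i, .cap)]) (k - 2) :=
      legal_append.2 ⟨k, hu, ⟨by simpa [Gen.src] using hi, by simp [Legal, Gen.src, Gen.tgt]⟩⟩
    have h := bk_r1N hab hu' (i := i) (by omega) v
    simp only [List.append_assoc, List.singleton_append] at h
    rw [h]
    have e : b ^ 2 * a = b := by rw [pow_two, mul_assoc, mul_comm b a, hab, mul_one]
    linear_combination (-b ^ n * bk a b (u ++ (i, .cap) :: (i, .cup) :: v)) * e

/-! ### crossingless diagrams -/

def Pw (a b : R) (w : Word) : Prop := ∃ n : ℕ, oF w [] = 2 ^ n ∧ bk a b w = (a ^ 2 + b ^ 2) ^ n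

theorem oF_iso {w w' : Word} (h : Iso 0 0 w w') : oF w [] = oF w' [] :=
  or_iso h _ _ rfl

theorem cups_only : ∀ (u : Word) (m : ℕ), (∀ s ∈ u, s.2 = Gen.cup) → Legal m u 0 → u = [] := by
  intro u
  induction u with
  | nil => intro _ _ _; rfl
  | cons s u ih =>
    intro m hu hl
    obtain ⟨i, g⟩ := s
    have hg : g = .cup := hu (i, g) (by simp)
    subst hg
    have e := ih _ (fun s hs => hu s (by simp [hs])) hl.2
    subst e
    have := hl.2
    simp [Legal, Gen.src, Gen.tgt] at this

theorem hfind : ∀ (v : Word) (u : Word), (∀ s ∈ u, s.2 = Gen.cup) → NoX v →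
    Legal 0 (u ++ v) 0 → (u ++ v ≠ []) → ∃ (u₁ : Word) (j : ℕ) (v₁ : Word),
      u ++ v = u₁ ++ (j, .cap) :: v₁ ∧ (∀ s ∈ u₁, s.2 = Gen.cup) ∧ NoX v₁ := by
  intro v
  induction v with
  | nil =>
    intro u hu _ hl hne
    exfalso
    rw [List.append_nil] at hl hne
    exact hne (cups_only u 0 hu hl)
  | cons s v ih =>
    intro u hu hv hl hne
    obtain ⟨i, g⟩ := s
    rcases hv (i, g) (by simp) with hg | hg
    · simp only at hg
      subst hg
      have e : u ++ (i, Gen.cup) :: v = (u ++ [(i, .cup)]) ++ v := by simp
      rw [e]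
      rw [e] at hl hne
      refine ih (u ++ [(i, .cup)]) ?_ (fun s hs => hv s (by simp [hs])) hl hne
      intro s hs
      rcases List.mem_append.1 hs with hs | hs
      · exact hu s hs
      · simp only [List.mem_singleton] at hs
        rw [hs]
    · simp only at hg
      subst hg
      exact ⟨u, i, v, rfl, hu, fun s hs => hv s (by simp [hs])⟩

theorem noX_aux2 (hab : a * b = 1) : ∀ (N K : ℕ) (u : Word) (j : ℕ) (v : Word),
    u.length + v.length ≤ N → u.length ≤ K → (∀ s ∈ u, s.2 = Gen.cup) → NoX v →
    Legal 0 (u ++ (j, .cap) :: v) 0 → Pw a b (u ++ (j, .cap) :: v) := by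
  intro N
  induction N with
  | zero =>
    intro K u j v h1 _ _ _ hK
    have hu : u = [] := List.length_eq_zero_iff.1 (by omega)
    subst hu
    simp [Legal, Gen.src] at hK
  | succ N ihN =>
    intro K
    induction K with
    | zero =>
      intro u j v _ h2 _ _ hK
      have hu : u = [] := List.length_eq_zero_iff.1 (by omega)
      subst hu
      simp [Legal, Gen.src] at hK
    | succ K ihK =>
      intro u j v h1 h2 hu hv hL
      rcases List.eq_nil_or_concat u with rfl | ⟨u', s, rfl⟩
      · simp [Legal, Gen.src] at hL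
      obtain ⟨i, g⟩ := s
      have hg : g = .cup := hu (i, g) (by simp)
      subst hg
      rw [List.concat_eq_append] at *
      have hu' : ∀ s ∈ u', s.2 = .cup := fun s hs => hu s (by simp [hs])
      have e0 : u' ++ [(i, Gen.cup)] ++ (j, Gen.cap) :: v = u' ++ (i, .cup) :: (j, .cap) :: v := by
        simp
      rw [e0] at hL ⊢
      obtain ⟨k, hL1, hLL⟩ := legal_append.1 hL
      obtain ⟨a1, a2, hL3⟩ := hLL
      simp only [Gen.src, Gen.tgt] at a1 a2
      have e1 : k - Gen.cup.src + Gen.cup.tgt - Gen.cap.src + Gen.cap.tgt = k := by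
        simp [Gen.src, Gen.tgt]
      rw [e1] at hL3
      -- the result of removing both
      have hrem : Legal 0 (u' ++ v) 0 := legal_append.2 ⟨k, hL1, hL3⟩
      have hred : Pw a b (u' ++ v) := by
        by_cases hne : u' ++ v = []
        · rw [hne]
          exact ⟨0, by simp [oF], by simp [bk]⟩
        · obtain ⟨u₁, j₁, v₁, e1, e2, e3⟩ := hfind v u' hu' hv hrem hne
          rw [e1] at hrem ⊢
          refine ihN u₁.length u₁ j₁ v₁ ?_ le_rfl e2 e3 hrem
          have e4 := congrArg List.length e1
          simp only [List.length_append, List.length_cons, List.length_nil] at e4 h1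
          omega
      rcases Nat.lt_trichotomy j i with hji | hji | hji
      · rcases Nat.eq_or_lt_of_le (Nat.succ_le_of_lt hji) with h3 | h3
        · -- zag
          obtain ⟨n, h5, h6⟩ := hred
          refine ⟨n, ?_, ?_⟩
          · rw [← h5]
            have h4 : Iso k k [(i, .cup), (j, .cap)] [] := by
              rw [← h3]
              exact iso_elem (Elem.zag j) ⟨by simp only [Gen.src]; omega,
                ⟨by simp only [Gen.src, Gen.tgt]; omega, by simp [Legal, Gen.src, Gen.tgt]⟩⟩ rfl
            have := oF_iso (iso_ctx h4 hL1 hL3)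
            simpa using this
          · rw [← h6, ← h3]
            exact bk_zag hab hL1 (by omega) v
        · obtain ⟨t, rfl⟩ : ∃ t, i = j + 2 + t := ⟨i - (j + 2), by omega⟩
          have hl2 : Legal 0 (u' ++ (j, .cap) :: (j + t, .cup) :: v) 0 := by
            refine legal_append.2 ⟨k, hL1, ⟨by simp only [Gen.src]; omega,
              ⟨by simp only [Gen.src, Gen.tgt]; omega, ?_⟩⟩⟩
            have e : k - Gen.cap.src + Gen.cap.tgt - Gen.cup.src + Gen.cup.tgt = k := by
              simp only [Gen.src, Gen.tgt]; omega
            rw [e]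
            exact hL3
          obtain ⟨n, h5, h6⟩ := ihK u' j ((j + t, .cup) :: v) (by
            simp only [List.length_append, List.length_cons, List.length_nil] at h1 ⊢
            omega) (by
            simp only [List.length_append, List.length_cons, List.length_nil] at h2
            omega) hu' (by
            intro s hs
            rcases List.mem_cons.1 hs with rfl | hs
            · left; rfl
            · exact hv s hs) hl2
          have h4 := Elem.comm j t .cap .cup
          have e1 : j + Gen.cap.tgt + t = j + t := by simp [Gen.tgt]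
          have e2 : j + Gen.cap.src + t = j + 2 + t := by simp [Gen.src]
          refine ⟨n, ?_, ?_⟩
          · rw [← h5]
            rw [e1, e2] at h4
            have h4' : Iso k k [(j, .cap), (j + t, .cup)] [(j + 2 + t, .cup), (j, .cap)] :=
              iso_elem h4 ⟨by simp only [Gen.src]; omega,
                ⟨by simp only [Gen.src, Gen.tgt]; omega, by
                  simp only [Legal, Gen.src, Gen.tgt]; omega⟩⟩
                ⟨by simp only [Gen.src]; omega,
                ⟨by simp only [Gen.src, Gen.tgt]; omega, by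
                  simp only [Legal, Gen.src, Gen.tgt]; omega⟩⟩
            have := oF_iso (iso_ctx h4' hL1 hL3)
            simpa using this.symm
          · rw [← h6]
            have := bk_comm (a := a) (b := b) (i := j) (j := t) (g := .cap) (h := .cup) hL1
              (by simp only [Gen.src]; omega) v
            rw [e1, e2] at this
            exact this.symm
      · -- a loop
        subst hji
        obtain ⟨n, h5, h6⟩ := hred
        refine ⟨n + 1, ?_, ?_⟩
        · have h7 := orients_loop (m := 0) (n := 0) hL1 (i := j) (by omega) hL3 [] rfl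
          rw [oF_eq] at h5 ⊢
          rw [h7]
          push_cast
          rw [h5]
          ring
        · rw [bk_loop hL1 (by omega), h6]
          ring
      · rcases Nat.eq_or_lt_of_le (Nat.succ_le_of_lt hji) with h3 | h3
        · obtain ⟨n, h5, h6⟩ := hred
          refine ⟨n, ?_, ?_⟩
          · rw [← h5]
            have h4 : Iso k k [(i, .cup), (j, .cap)] [] := by
              rw [← h3]
              exact iso_elem (Elem.zig i) ⟨by simp only [Gen.src]; omega,
                ⟨by simp only [Gen.src, Gen.tgt]; omega, by simp [Legal, Gen.src, Gen.tgt]⟩⟩ rfl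
            have := oF_iso (iso_ctx h4 hL1 hL3)
            simpa using this
          · rw [← h6, ← h3]
            exact bk_zig hab hL1 (by omega) v
        · obtain ⟨t, rfl⟩ : ∃ t, j = i + 2 + t := ⟨j - (i + 2), by omega⟩
          have hl2 : Legal 0 (u' ++ (i + t, .cap) :: (i, .cup) :: v) 0 := by
            refine legal_append.2 ⟨k, hL1, ⟨by simp only [Gen.src]; omega,
              ⟨by simp only [Gen.src, Gen.tgt]; omega, ?_⟩⟩⟩
            have e : k - Gen.cap.src + Gen.cap.tgt - Gen.cup.src + Gen.cup.tgt = k := by
              simp only [Gen.src, Gen.tgt]; omega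
            rw [e]
            exact hL3
          obtain ⟨n, h5, h6⟩ := ihK u' (i + t) ((i, .cup) :: v) (by
            simp only [List.length_append, List.length_cons, List.length_nil] at h1 ⊢
            omega) (by
            simp only [List.length_append, List.length_cons, List.length_nil] at h2
            omega) hu' (by
            intro s hs
            rcases List.mem_cons.1 hs with rfl | hs
            · left; rfl
            · exact hv s hs) hl2
          have h4 := Elem.comm i t .cup .cap
          have e1 : i + Gen.cup.tgt + t = i + 2 + t := by simp [Gen.tgt]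
          have e2 : i + Gen.cup.src + t = i + t := by simp [Gen.src]
          refine ⟨n, ?_, ?_⟩
          · rw [← h5]
            rw [e1, e2] at h4
            have h4' : Iso k k [(i, .cup), (i + 2 + t, .cap)] [(i + t, .cap), (i, .cup)] :=
              iso_elem h4 ⟨by simp only [Gen.src]; omega,
                ⟨by simp only [Gen.src, Gen.tgt]; omega, by
                  simp only [Legal, Gen.src, Gen.tgt]; omega⟩⟩
                ⟨by simp only [Gen.src]; omega,
                ⟨by simp only [Gen.src, Gen.tgt]; omega, by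
                  simp only [Legal, Gen.src, Gen.tgt]; omega⟩⟩
            have := oF_iso (iso_ctx h4' hL1 hL3)
            simpa using this
          · rw [← h6]
            have := bk_comm (a := a) (b := b) (i := i) (j := t) (g := .cup) (h := .cap) hL1
              (by simp only [Gen.src]; omega) v
            rw [e1, e2] at this
            exact this

/-- the bracket of a crossingless diagram -/
theorem bk_noX (hab : a * b = 1) {w : Word} (hw : NoX w) (hL : Legal 0 w 0) : Pw a b w := by
  by_cases hne : w = []
  · rw [hne]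
    exact ⟨0, by simp [oF], by simp [bk]⟩
  · obtain ⟨u₁, j₁, v₁, e1, e2, e3⟩ := hfind w [] (by simp) hw (by simpa using hL) (by simpa using hne)
    rw [List.nil_append] at e1
    rw [e1] at hL ⊢
    exact noX_aux2 hab _ _ u₁ j₁ v₁ le_rfl le_rfl e2 e3 hL

end

end Pool.Agent.Helper35.Skl
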