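import Pool.Agent.Helper35.Skl.Abs

/-!
# Skein modules
-/

set_option autoImplicit false

namespace Pool.Agent.Helper35.Skl

open Pool.Agent.Helper31.Sk

universe u

/-! ### shifting isotopies -/

theorem shift_shift (a b : ℕ) (w : Word) : shift a (shift b w) = shift (b + a) w := by
  simp [shift, List.map_map, Function.comp_def, add_assoc]

theorem elem_shift {x y : Word} (h : Elem x y) (a : ℕ) : Elem (shift a x) (shift a y) := by
  rcases h with ⟨i, j, g, h⟩ | i | i | i | i | i | i | i | i | i | i | i | i | i | i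
  · have := Elem.comm (i + a) j g h
    have e1 : i + a + g.tgt + j = i + g.tgt + j + a := by ring
    have e2 : i + a + g.src + j = i + g.src + j + a := by ring
    rw [e1, e2] at this
    exact this
  all_goals
    have e : i + 1 + a = (i + a) + 1 := by ring
  · simpa [shift, e] using Elem.zig (i + a)
  · simpa [shift, e] using Elem.zag (i + a)
  · simpa [shift, e] using Elem.capP (i + a)
  · simpa [shift, e] using Elem.capN (i + a)
  · simpa [shift, e] using Elem.cupP (i + a)
  · simpa [shift, e] using Elem.cupN (i + a)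
  · simpa [shift, e] using Elem.r1cupP (i + a)
  · simpa [shift, e] using Elem.r1cupN (i + a)
  · simpa [shift, e] using Elem.r1capP (i + a)
  · simpa [shift, e] using Elem.r1capN (i + a)
  · simpa [shift, e] using Elem.r2P (i + a)
  · simpa [shift, e] using Elem.r2N (i + a)
  · simpa [shift, e] using Elem.r3P (i + a)
  · simpa [shift, e] using Elem.r3N (i + a)

theorem legal_sh (a r : ℕ) {m n : ℕ} {w : Word} (h : Legal m w n) :
    Legal (m + a + r) (shift a w) (n + a + r) :=
  legal_right _ _ _ _ (legal_shift a w m n h)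

theorem iso_shift (a r : ℕ) {m n : ℕ} {w w' : Word} (h : Iso m n w w') :
    Iso (m + a + r) (n + a + r) (shift a w) (shift a w') := by
  induction h with
  | rel w w' h =>
    obtain ⟨u, x, y, v, he, h1, h2⟩ := h
    refine Relation.EqvGen.rel _ _ ?_
    have l1 := legal_sh a r h1
    have l2 := legal_sh a r h2
    rw [shift_append, shift_append] at l1 l2 ⊢
    rw [shift_append, shift_append]
    exact Step.mk _ _ _ _ (elem_shift he a) l1 l2
  | refl w => exact iso_refl _ _ _
  | symm w w' _ ih => exact iso_symm ih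
  | trans w w' w'' _ _ ih1 ih2 => exact iso_trans ih1 ih2

/-! ### skein modules -/

variable {A : Type u} [CommRing A]

variable (M : Moves A)

theorem ins_single (u : Word) (a : ℕ) (v w : Word) (c : A) :
    ins u a v (Finsupp.single w c) = Finsupp.single (u ++ shift a w ++ v) c := by
  unfold ins
  rw [Finsupp.lmapDomain_apply, Finsupp.mapDomain_single]

theorem ins_ins (u : Word) (a : ℕ) (v : Word) (u0 : Word) (a0 : ℕ) (v0 : Word) (x : Word →₀ A) :
    ins u a v (ins u0 a0 v0 x) = ins (u ++ shift a u0) (a0 + a) (shift a v0 ++ v) x := by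
  unfold ins
  rw [Finsupp.lmapDomain_apply, Finsupp.lmapDomain_apply, Finsupp.lmapDomain_apply,
    ← Finsupp.mapDomain_comp]
  congr 1
  funext w
  simp only [Function.comp_apply, shift_append, shift_shift, List.append_assoc]

/-- the relations are stable under insertion -/
theorem rel_ins {m n m' n' r : ℕ} {u v : Word} {a : ℕ} (hu : Legal m' u (m + a + r))
    (hv : Legal (n + a + r) v n') {x : Word →₀ A} (hx : x ∈ Rel M m n) :
    ins u a v x ∈ Rel M m' n' := by
  have h : Rel M m n ≤ (Rel M m' n').comap (ins u a v) := by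
    refine Submodule.span_le.2 ?_
    rintro x (⟨w, w', h, rfl⟩ | ⟨k, S, T, u0, v0, l, a0, hM, hu0, ha0, hv0, rfl⟩)
    · simp only [SetLike.mem_coe, Submodule.mem_comap, map_sub, ins_single]
      refine Submodule.subset_span (Or.inl ⟨_, _, ?_, rfl⟩)
      exact iso_ctx (iso_shift a r h) hu hv
    · simp only [SetLike.mem_coe, Submodule.mem_comap, ins_ins]
      refine Submodule.subset_span (Or.inr ⟨k, S, T, _, _, l + a + r, a0 + a, hM,
        legal_append.2 ⟨_, hu, legal_sh a r hu0⟩, by omega, ?_, rfl⟩)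
      have := legal_sh a r hv0
      rw [show l + 2 * k + a + r = l + a + r + 2 * k by ring] at this
      exact legal_append.2 ⟨_, this, hv⟩
  exact h hx

theorem sk_iso {m n : ℕ} {w w' : Word} (h : Iso m n w w') : sk M m n w = sk M m n w' := by
  unfold sk
  rw [← sub_eq_zero, ← map_sub, Submodule.mkQ_apply, Submodule.Quotient.mk_eq_zero]
  exact Submodule.subset_span (Or.inl ⟨w, w', h, rfl⟩)

/-! ### half twists -/

/-- `j` half twists -/
def tw1 (a : ℕ) (j : ℤ) : Word := List.replicate j.natAbs (a, if 0 ≤ j then .pos else .neg)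

theorem tw2_eq (a : ℕ) (k : ℤ) : tw2 a k = tw1 a (2 * k) := by
  unfold tw2 tw1
  have e1 : (2 * k).natAbs = 2 * k.natAbs := by rw [Int.natAbs_mul]; rfl
  have e2 : (0 ≤ 2 * k) = (0 ≤ k) := by
    apply propext
    constructor <;> intro h <;> omega
  rw [e1]
  simp only [e2]

theorem legal_tw1 {m a : ℕ} (h : a + 2 ≤ m) (k : ℤ) : Legal m (tw1 a k) m :=
  legal_rep (ite_cross k) h _

theorem tw1_succ {m a : ℕ} (h : a + 2 ≤ m) (j : ℤ) :
    Iso m m (tw1 a j ++ [(a, .pos)]) (tw1 a (j + 1)) := by
  rcases le_or_gt 0 j with hj | hj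
  · have e : tw1 a j ++ [(a, .pos)] = tw1 a (j + 1) := by
      unfold tw1
      rw [if_pos hj, if_pos (by omega), show (j + 1).natAbs = j.natAbs + 1 by omega,
        List.replicate_succ']
    rw [e]
    exact iso_refl _ _ _
  · have e : tw1 a j = tw1 a (j + 1) ++ [(a, .neg)] := by
      unfold tw1
      rw [if_neg (by omega)]
      rcases eq_or_lt_of_le (by omega : j + 1 ≤ 0) with h0 | h0
      · rw [h0]
        have : j.natAbs = 1 := by omega
        rw [this]
        rfl
      · rw [if_neg (by omega), ← List.replicate_succ', show j.natAbs = (j + 1).natAbs + 1 by omega]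
    rw [e, List.append_assoc]
    have h1 : Iso m m ([(a, .neg)] ++ [(a, .pos)]) [] :=
      iso_elem (Elem.r2N a) (legal_append.2 ⟨m, legal_rep (Or.inr rfl) h 1,
        legal_rep (Or.inl rfl) h 1⟩) rfl
    have h2 := iso_left h1 (legal_tw1 h (j + 1))
    rwa [List.append_nil] at h2

theorem tw1_add {m a : ℕ} (h : a + 2 ≤ m) (j : ℤ) (i : ℕ) :
    Iso m m (tw1 a j ++ List.replicate i (a, .pos)) (tw1 a (j + i)) := by
  induction i with
  | zero => simpa using iso_refl m m (tw1 a j)
  | succ i ih =>
    rw [List.replicate_succ', ← List.append_assoc]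
    have h1 := iso_trans (iso_right ih (legal_rep (Or.inl rfl) h 1)) (tw1_succ h (j + i))
    have e : j + (i : ℤ) + 1 = j + ((i + 1 : ℕ) : ℤ) := by push_cast; ring
    rwa [e] at h1

/-- adding strands to the context -/
theorem enlarge {K a : ℕ} {u v : Word} (hu : Legal 0 u K) (hv : Legal K v 0) (ha : a + 2 ≤ K)
    (d : ℕ) : ∃ u' v' : Word, Legal 0 u' (K + 2 * d) ∧ Legal (K + 2 * d) v' 0 ∧
      ∀ j : ℤ, Iso 0 0 (u ++ tw1 a j ++ v) (u' ++ tw1 a j ++ v') := by
  induction d with
  | zero => exact ⟨u, v, hu, hv, fun j => iso_refl _ _ _⟩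
  | succ d ih =>
    obtain ⟨u', v', hu', hv', h⟩ := ih
    obtain ⟨L, hL⟩ : ∃ L, L + 1 = K + 2 * d := ⟨K + 2 * d - 1, by omega⟩
    have hK : K + 2 * (d + 1) = K + 2 * d + 2 := by ring
    refine ⟨u' ++ [(L + 1, .cup)], (L, .cap) :: v', ?_, ?_, fun j => iso_trans (h j) ?_⟩
    · refine legal_append.2 ⟨_, hu', ⟨by simp only [Gen.src]; omega, ?_⟩⟩
      simp only [Legal, Gen.src, Gen.tgt]
      omega
    · refine ⟨by simp only [Gen.src]; omega, ?_⟩
      rw [show K + 2 * (d + 1) - Gen.cap.src + Gen.cap.tgt = K + 2 * d by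
        simp only [Gen.src, Gen.tgt]; omega]
      exact hv'
    · have z : Iso (K + 2 * d) (K + 2 * d) [(L + 1, .cup), (L, .cap)] [] :=
        iso_elem (Elem.zag L) (by simp only [Legal, Gen.src, Gen.tgt]; omega) rfl
      have hl3 : Legal 0 (u' ++ tw1 a j) (K + 2 * d) :=
        legal_append.2 ⟨K + 2 * d, hu', legal_tw1 (by omega) j⟩
      have h1 := iso_ctx z hl3 hv'
      have hs : Iso (K + 2 * d) (K + 2 * d + 2) (tw1 a j ++ [(L + 1, .cup)])
          ([(L + 1, .cup)] ++ tw1 a j) := by
        refine slide (ite_cross j) (by omega) (by omega) ?_ ?_ _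
        · simp only [Legal, Gen.src, Gen.tgt]; omega
        · obtain ⟨q, hq⟩ : ∃ q, L + 1 = a + 2 + q := ⟨L + 1 - (a + 2), by omega⟩
          rw [hq]
          have l1 : ∀ g : Gen, g = .pos ∨ g = .neg →
              Legal (K + 2 * d) [(a, g), (a + 2 + q, .cup)] (K + 2 * d + 2) := by
            intro g hg
            rcases hg with rfl | rfl <;> simp only [Legal, Gen.src, Gen.tgt] <;> omega
          have l2 : ∀ g : Gen, g = .pos ∨ g = .neg →
              Legal (K + 2 * d) [(a + 2 + q, .cup), (a, g)] (K + 2 * d + 2) := by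
            intro g hg
            rcases hg with rfl | rfl <;> simp only [Legal, Gen.src, Gen.tgt] <;> omega
          rcases ite_cross j with e | e
          · rw [e]
            exact iso_elem (Elem.comm a q .pos .cup) (l1 _ (Or.inl rfl)) (l2 _ (Or.inl rfl))
          · rw [e]
            exact iso_elem (Elem.comm a q .neg .cup) (l1 _ (Or.inr rfl)) (l2 _ (Or.inr rfl))
      have hv2 : Legal (K + 2 * d + 2) ((L, .cap) :: v') 0 := by
        refine ⟨by simp only [Gen.src]; omega, ?_⟩
        rw [show K + 2 * d + 2 - Gen.cap.src + Gen.cap.tgt = K + 2 * d by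
          simp only [Gen.src, Gen.tgt]; omega]
        exact hv'
      have h2 := iso_ctx hs hu' hv2
      simp only [List.append_assoc, List.cons_append, List.nil_append] at h1 h2 ⊢
      exact iso_trans (iso_symm h1) h2

/-! ### passing to the full twists -/

section
variable {N : Type u} [AddCommGroup N] [Module A N]

/-- the coefficients of the even part of the product of `P(X)` and `P(-X)` -/
def evn {m : ℕ} (c : Fin m → A) (e : Fin m) : A :=
  ∑ q : Fin m × Fin m, if (q.1 : ℕ) + q.2 = 2 * e then (-1) ^ (q.1 : ℕ) * c q.1 * c q.2 else 0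

theorem op_evn {m : ℕ} (c : Fin m → A) (h : ℤ → N) (j : ℤ) :
    op (fun i => (-1) ^ (i : ℕ) * c i) (op c h) j =
      ∑ e : Fin m, evn c e • h (j + 2 * (e : ℕ)) := by
  obtain ⟨F, hF⟩ : ∃ F : Fin m × Fin m → N, F = fun q => ((-1) ^ (q.1 : ℕ) * c q.1 * c q.2) •
      h (j + ((q.1 : ℕ) : ℤ) + ((q.2 : ℕ) : ℤ)) := ⟨_, rfl⟩
  have e1 : op (fun i => (-1) ^ (i : ℕ) * c i) (op c h) j = ∑ q, F q := by
    rw [Fintype.sum_prod_type, hF]
    simp only [op, Finset.smul_sum, smul_smul]
  have e2 : ∑ e : Fin m, evn c e • h (j + 2 * (e : ℕ)) =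
      ∑ q, if Even ((q.1 : ℕ) + q.2) then F q else 0 := by
    simp only [evn, Finset.sum_smul]
    rw [Finset.sum_comm]
    refine Finset.sum_congr rfl fun q _ => ?_
    split_ifs with hq
    · obtain ⟨t, ht⟩ := hq
      have h1 := q.1.2
      have h2 := q.2.2
      rw [Finset.sum_eq_single ⟨t, by omega⟩]
      · rw [if_pos (by simp only; omega), hF]
        congr 2
        simp only
        omega
      · intro e _ he
        rw [if_neg, zero_smul]
        intro h3
        exact he (Fin.ext (by simp only; omega))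
      · intro h3; exact absurd (Finset.mem_univ _) h3
    · refine Finset.sum_eq_zero fun e _ => ?_
      rw [if_neg, zero_smul]
      intro h3
      exact hq ⟨e, by omega⟩
  have e3 : ∑ q, (if Even ((q.1 : ℕ) + q.2) then 0 else F q) = 0 := by
    refine Finset.sum_involution (fun q _ => (q.2, q.1)) ?_ ?_ ?_ ?_
    · intro q _
      by_cases hq : Even ((q.1 : ℕ) + q.2)
      · have hq' : Even ((q.2 : ℕ) + q.1) := by rwa [add_comm]
        simp only [hq, hq', if_true, add_zero]
      · have hq' : ¬ Even ((q.2 : ℕ) + q.1) := by rwa [add_comm]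
        simp only [hq, hq', if_false, hF]
        have e4 : j + ((q.2 : ℕ) : ℤ) + ((q.1 : ℕ) : ℤ) = j + ((q.1 : ℕ) : ℤ) + ((q.2 : ℕ) : ℤ) := by
          ring
        rw [e4, ← add_smul]
        have e5 : ((-1 : A)) ^ (q.1 : ℕ) + (-1) ^ (q.2 : ℕ) = 0 := by
          rw [Nat.not_even_iff_odd] at hq
          rcases Nat.even_or_odd (q.1 : ℕ) with h1 | h1
          · have h2 : Odd (q.2 : ℕ) := by
              rcases Nat.even_or_odd (q.2 : ℕ) with h2 | h2
              · exact absurd (h1.add h2) (Nat.not_even_iff_odd.2 hq)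
              · exact h2
            rw [h1.neg_one_pow, h2.neg_one_pow]; ring
          · have h2 : Even (q.2 : ℕ) := by
              rcases Nat.even_or_odd (q.2 : ℕ) with h2 | h2
              · exact h2
              · exact absurd (h1.add_odd h2) (Nat.not_even_iff_odd.2 hq)
            rw [h1.neg_one_pow, h2.neg_one_pow]; ring
        have e6 : (-1) ^ (q.1 : ℕ) * c q.1 * c q.2 + (-1) ^ (q.2 : ℕ) * c q.2 * c q.1 = 0 := by
          linear_combination (c q.1 * c q.2) * e5
        rw [e6, zero_smul]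
    · intro q _ hq he
      have h1 : (q.1 : ℕ) = q.2 := by
        have := congrArg Prod.fst he
        simp only at this
        rw [this]
      refine hq ?_
      rw [if_pos]
      exact ⟨q.1, by omega⟩
    · intro q _; exact Finset.mem_univ _
    · intro q _; rfl
  rw [e1, e2]
  have e7 : ∀ q, F q = (if Even ((q.1 : ℕ) + q.2) then F q else 0) +
      (if Even ((q.1 : ℕ) + q.2) then 0 else F q) := by
    intro q
    split_ifs <;> simp
  rw [Finset.sum_congr rfl fun q _ => e7 q, Finset.sum_add_distrib, e3, add_zero]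

theorem evn_ann {m : ℕ} (c : Fin m → A) (hc : ∀ y : N, (∀ i, c i • y = 0) → y = 0) (y : N)
    (hy : ∀ e, evn c e • y = 0) : y = 0 := by
  obtain ⟨z, hz⟩ : ∃ z : ℤ → N, z = fun j => if j = 0 then y else 0 := ⟨_, rfl⟩
  have h1 : op (fun i => (-1) ^ (i : ℕ) * c i) (op c z) = 0 := by
    funext j
    rw [op_evn]
    refine Finset.sum_eq_zero fun e _ => ?_
    rw [hz]
    simp only
    split_ifs
    · exact hy e
    · exact smul_zero _
  have hc' : ∀ y : N, (∀ i : Fin m, ((-1) ^ (i : ℕ) * c i) • y = 0) → y = 0 := by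
    intro y hy
    refine hc y fun i => ?_
    have h2 := hy i
    rcases neg_one_pow_eq_or A (i : ℕ) with h | h
    · rw [h, one_mul] at h2; exact h2
    · rw [h, neg_one_mul, neg_smul, neg_eq_zero] at h2; exact h2
  have h2 : op c z = 0 := by
    refine mccoy _ hc' m (-(m : ℤ) + 1) _ ?_ h1
    intro j hj
    by_contra hne
    refine hj (Finset.sum_eq_zero fun i _ => ?_)
    have : z (j + (i : ℕ)) = 0 := by
      rw [hz]
      simp only
      rw [if_neg]
      intro e
      have := i.2
      omega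
    rw [this, smul_zero]
  have h3 : z = 0 := by
    refine mccoy c hc 1 0 z ?_ h2
    intro j hj
    by_contra hne
    refine hj ?_
    rw [hz]
    simp only
    rw [if_neg]
    intro e
    omega
  have := congrFun h3 0
  rw [hz] at this
  simpa using this

theorem rec_half {m : ℕ} (co : Fin m → A) (hc : ∀ y : N, (∀ i, co i • y = 0) → y = 0)
    (h : ℤ → N) (h0 : op co h = 0) : Recurrent A (fun k : ℤ => h (2 * k)) := by
  refine ⟨m, evn co, evn_ann co hc, fun j => ?_⟩
  have h1 := op_evn co h (2 * j)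
  rw [h0, op_zero] at h1
  rw [Pi.zero_apply] at h1
  rw [h1]
  refine Finset.sum_congr rfl fun e _ => ?_
  show evn co e • h (2 * (j + ((e : ℕ) : ℤ))) = _
  rw [mul_add]

end

/-- a relation between the powers of the half twist -/
theorem twist_of_half {n : ℕ} {m : ℕ} (c : Fin m → A) (hc : Ideal.span (Set.range c) = ⊤)
    (h : ∑ i : Fin m, c i • sk M n n (List.replicate (i : ℕ) (0, .pos)) = 0) (hn : 2 ≤ n) :
    TwistRecurrent A (sk M 0 0) := by
  intro u v a hK
  -- the context
  obtain ⟨K, hu, hv, ha⟩ : ∃ K, Legal 0 u K ∧ Legal K v 0 ∧ a + 2 ≤ K := by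
    have h1 := (hK 1).1
    rw [List.append_assoc] at h1
    obtain ⟨K, h2, h3⟩ := legal_append.1 h1
    obtain ⟨K', h4, h5⟩ := legal_append.1 h3
    have e : tw2 a 1 = [(a, .pos), (a, .pos)] := rfl
    rw [e] at h4
    simp only [Legal, Gen.src, Gen.tgt] at h4
    refine ⟨K, h2, ?_, by omega⟩
    rw [show K = K' by omega]
    exact h5
  obtain ⟨u', v', hu', hv', hi⟩ := enlarge hu hv ha n
  obtain ⟨r, hr⟩ : ∃ r, K + 2 * n = n + a + r := ⟨K + n - a, by omega⟩
  have hann : ∀ y : (Word →₀ A) ⧸ Rel M 0 0, (∀ i, c i • y = 0) → y = 0 := by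
    intro y hy
    have h1 : ∀ x ∈ Ideal.span (Set.range c), x • y = 0 := by
      intro x hx
      refine Submodule.span_induction ?_ ?_ ?_ ?_ hx
      · rintro _ ⟨i, rfl⟩; exact hy i
      · exact zero_smul _ _
      · intro x x' _ _ h1 h2; rw [add_smul, h1, h2, add_zero]
      · intro b x _ h1; rw [smul_eq_mul, mul_smul, h1, smul_zero]
    have h2 := h1 1 (by rw [hc]; trivial)
    rwa [one_smul] at h2
  have h0 : op c (fun j : ℤ => sk M 0 0 (u ++ tw1 a j ++ v)) = 0 := by
    funext j
    simp only [op, Pi.zero_apply]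
    have hx : (∑ i : Fin m, c i • Finsupp.single (List.replicate (i : ℕ) ((0 : ℕ), Gen.pos)) (1 : A)) ∈
        Rel M n n := by
      rw [← Submodule.Quotient.mk_eq_zero, ← Submodule.mkQ_apply, map_sum]
      simp only [map_smul]
      exact h
    have hl1 : Legal 0 (u' ++ tw1 a j) (n + a + r) := by
      rw [← hr]
      exact legal_append.2 ⟨_, hu', legal_tw1 (by omega) j⟩
    have hl2 : Legal (n + a + r) v' 0 := by rw [← hr]; exact hv'
    have h3 := rel_ins M hl1 hl2 hx
    rw [← Submodule.Quotient.mk_eq_zero, ← Submodule.mkQ_apply, map_sum, map_sum] at h3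
    simp only [map_smul, ins_single] at h3
    rw [← h3]
    refine Finset.sum_congr rfl fun i _ => ?_
    congr 1
    rw [sk_iso M (hi (j + (i : ℕ)))]
    have h4 := iso_ctx (tw1_add (a := a) (m := K + 2 * n) (by omega) j i) hu' hv'
    rw [← sk_iso M h4]
    have e : shift a (List.replicate (i : ℕ) ((0 : ℕ), Gen.pos)) = List.replicate i (a, .pos) := by
      simp [shift]
    rw [e]
    unfold sk
    congr 2
    simp only [List.append_assoc]
  have h5 := rec_half c hann _ h0
  convert h5 using 2
  rw [tw2_eq]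

/-- if the module of tangles is finitely generated, the half twist is a zero of a monic polynomial -/
theorem half_of_fg {n : ℕ} (hn : 2 ≤ n)
    (hfg : (Submodule.span A {x | ∃ w, Legal n w n ∧ x = sk M n n w}).FG) :
    ∃ (m : ℕ) (c : Fin m → A), Ideal.span (Set.range c) = ⊤ ∧
      ∑ i : Fin m, c i • sk M n n (List.replicate (i : ℕ) (0, .pos)) = 0 := by
  obtain ⟨V, hV⟩ : ∃ V, V = Submodule.span A {x | ∃ w, Legal n w n ∧ x = sk M n n w} := ⟨_, rfl⟩
  rw [← hV] at hfg
  have hlp : Legal n [((0 : ℕ), Gen.pos)] n := legal_rep (Or.inl rfl) hn 1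
  -- the endomorphism
  have hle : Rel M n n ≤ (Rel M n n).comap (ins [] 0 [(0, .pos)]) := by
    intro x hx
    exact rel_ins M (m := n) (n := n) (r := 0) (a := 0) (by rfl) hlp hx
  obtain ⟨τ, hτ⟩ : ∃ τ : ((Word →₀ A) ⧸ Rel M n n) →ₗ[A] ((Word →₀ A) ⧸ Rel M n n),
      ∀ w, τ (sk M n n w) = sk M n n (w ++ [(0, .pos)]) := by
    refine ⟨(Rel M n n).mapQ _ (ins [] 0 [(0, .pos)]) hle, fun w => ?_⟩
    unfold sk
    rw [Submodule.mkQ_apply, Submodule.mapQ_apply, ins_single, shift_zero]
    rfl
  have hVV : ∀ x ∈ V, τ x ∈ V := by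
    intro x hx
    rw [hV] at hx ⊢
    refine Submodule.span_induction ?_ ?_ ?_ ?_ hx
    · rintro _ ⟨w, hw, rfl⟩
      rw [hτ]
      exact Submodule.subset_span ⟨_, legal_append.2 ⟨n, hw, hlp⟩, rfl⟩
    · rw [map_zero]; exact Submodule.zero_mem _
    · intro x y _ _ h1 h2; rw [map_add]; exact Submodule.add_mem _ h1 h2
    · intro b x _ h1; rw [map_smul]; exact Submodule.smul_mem _ _ h1
  have : Module.Finite A V := Module.Finite.iff_fg.2 hfg
  obtain ⟨P, hP, h0⟩ := LinearMap.exists_monic_and_aeval_eq_zero A (τ.restrict hVV)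
  have h1 : sk M n n [] ∈ V := by
    rw [hV]
    exact Submodule.subset_span ⟨[], rfl, rfl⟩
  have hpow : ∀ i : ℕ, (((τ.restrict hVV) ^ i) ⟨_, h1⟩ : (Word →₀ A) ⧸ Rel M n n) =
      sk M n n (List.replicate i (0, .pos)) := by
    intro i
    induction i with
    | zero => rfl
    | succ i ih =>
      rw [pow_succ', Module.End.mul_apply, LinearMap.coe_restrict_apply, ih, hτ,
        ← List.replicate_succ']
  refine ⟨P.natDegree + 1, fun i => P.coeff i, ?_, ?_⟩
  · rw [Ideal.eq_top_iff_one]
    refine Ideal.subset_span ⟨Fin.last _, ?_⟩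
    simpa using hP.coeff_natDegree
  · have h2 := congrArg (fun f => ((f ⟨_, h1⟩ : V) : (Word →₀ A) ⧸ Rel M n n)) h0
    simp only [Polynomial.aeval_eq_sum_range, LinearMap.sum_apply, LinearMap.smul_apply,
      LinearMap.zero_apply, Submodule.coe_sum, Submodule.coe_smul, ZeroMemClass.coe_zero, hpow] at h2
    rw [Fin.sum_univ_eq_sum_range (fun i => P.coeff i • sk M n n (List.replicate i (0, .pos)))]
    exact h2

end Pool.Agent.Helper35.Skl
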