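import Pool.Agent.Helper35.Skl.Mod
import Pool.Agent.Helper31.Sk.OrDir

/-!
# Oriented diagrams
-/

set_option autoImplicit false

namespace Pool.Agent.Helper35.Skl

open Pool.Agent.Helper31.Sk

theorem legalO_append {l l' : List Bool} {U V : OWord} :
    LegalO l (U ++ V) l' ↔ ∃ d, LegalO l U d ∧ LegalO d V l' := by
  induction U generalizing l with
  | nil => simp [LegalO]
  | cons s U ih =>
    obtain ⟨s, d⟩ := s
    simp only [List.cons_append, LegalO, ih]
    constructor
    · rintro ⟨h1, d', h2, h3⟩; exact ⟨d', ⟨h1, h2⟩, h3⟩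
    · rintro ⟨d', ⟨h1, h2⟩, h3⟩; exact ⟨h1, d', h2, h3⟩

theorem und_append (U V : OWord) : und (U ++ V) = und U ++ und V := by simp [und]

theorem shiftO_append (l r : List Bool) (U V : OWord) :
    shiftO l r (U ++ V) = shiftO l r U ++ shiftO l r V := by simp [shiftO]

theorem und_shiftO (l r : List Bool) (W : OWord) : und (shiftO l r W) = shift l.length (und W) := by
  simp [und, shiftO, shift, List.map_map, Function.comp_def]

theorem passes_left (i : ℕ) (g : Gen) (l e d : List Bool) (h : d ∈ passes i g e) :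
    l ++ d ∈ passes (i + l.length) g (l ++ e) := by
  induction l with
  | nil => simpa using h
  | cons x l ih =>
    rw [List.length_cons, ← add_assoc]
    show x :: (l ++ d) ∈ passes (i + l.length + 1) g (x :: (l ++ e))
    simp only [passes, List.mem_map]
    exact ⟨_, ih, rfl⟩

theorem legalO_shift {e e' : List Bool} {W : OWord} (h : LegalO e W e') (l r : List Bool) :
    LegalO (l ++ e ++ r) (shiftO l r W) (l ++ e' ++ r) := by
  induction W generalizing e with
  | nil =>
    have : e = e' := h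
    rw [this]
    rfl
  | cons s W ih =>
    obtain ⟨s, d⟩ := s
    exact ⟨passes_right _ _ _ _ _ (passes_left _ _ _ _ _ h.1), ih h.2⟩

theorem shiftO_shiftO (l r l0 r0 : List Bool) (W : OWord) :
    shiftO l r (shiftO l0 r0 W) = shiftO (l ++ l0) (r0 ++ r) W := by
  simp only [shiftO, List.map_map, Function.comp_def]
  refine List.map_congr_left fun s _ => ?_
  simp only [List.length_append, List.append_assoc, Prod.mk.injEq, and_true]
  omega

theorem legal_und {W : OWord} : ∀ {l l' : List Bool}, LegalO l W l' →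
    Legal l.length (und W) l'.length := by
  induction W with
  | nil =>
    intro l l' h
    have : l = l' := h
    rw [this]
    rfl
  | cons s W ih =>
    obtain ⟨⟨i, g⟩, d⟩ := s
    intro l l' h
    have h1 := length_passes _ _ _ _ h.1
    refine ⟨h1.1, ?_⟩
    have h2 := ih h.2
    rw [h1.2] at h2
    exact h2

theorem dir_lift {w : Word} : ∀ {l l' : List Bool}, Dir l w l' → ∃ W, und W = w ∧ LegalO l W l' := by
  induction w with
  | nil => intro l l' h; exact ⟨[], rfl, h⟩
  | cons s w ih =>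
    obtain ⟨i, g⟩ := s
    rintro l l' ⟨d, hd, h⟩
    obtain ⟨W, h1, h2⟩ := ih h
    exact ⟨((i, g), d) :: W, by rw [← h1]; rfl, hd, h2⟩

theorem legalO_twO (x : Bool) (k : ℤ) : LegalO [x, !x] (twO x k) [x, !x] := by
  unfold twO
  induction k.natAbs with
  | zero => rfl
  | succ n ih =>
    rw [List.replicate_succ, List.flatten_cons]
    refine legalO_append.2 ⟨[x, !x], ?_, ih⟩
    rcases ite_cross k with h | h <;> rw [h] <;> simp [LegalO, passes]

theorem und_twO (x : Bool) (k : ℤ) : und (twO x k) = tw2 0 k := by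
  unfold twO tw2
  generalize (if 0 ≤ k then Gen.pos else Gen.neg) = g
  induction k.natAbs with
  | zero => rfl
  | succ n ih =>
    rw [List.replicate_succ, List.flatten_cons, und_append, ih,
      show 2 * (n + 1) = 2 * n + 1 + 1 by ring, List.replicate_succ, List.replicate_succ]
    rfl

theorem shift_tw2 (a : ℕ) (k : ℤ) : shift a (tw2 0 k) = tw2 a k := by
  simp [shift, tw2]

universe u v

theorem fam_lift {u v : Word} {l r : List Bool} {x : Bool} {a : ℕ} (ha : l.length = a)
    (hu : Dir [] u (l ++ [x, !x] ++ r)) (hv : Dir (l ++ [x, !x] ++ r) v []) :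
    ∃ U V : OWord, LegalO [] U (l ++ [x, !x] ++ r) ∧ LegalO (l ++ [x, !x] ++ r) V [] ∧
      (∀ k : ℤ, LegalO [] (U ++ shiftO l r (twO x k) ++ V) []) ∧
      ∀ k : ℤ, und (U ++ shiftO l r (twO x k) ++ V) = u ++ tw2 a k ++ v := by
  obtain ⟨U, hU, hU'⟩ := dir_lift hu
  obtain ⟨V, hV, hV'⟩ := dir_lift hv
  refine ⟨U, V, hU', hV', fun k => ?_, fun k => ?_⟩
  · exact legalO_append.2 ⟨_, legalO_append.2 ⟨_, hU', legalO_shift (legalO_twO x k) l r⟩, hV'⟩
  · rw [und_append, und_append, und_shiftO, und_twO, hU, hV, shift_tw2, ha]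

theorem dirG (x : Bool) : Dir [] [(0, .cup), (0, .cup)] ([!x] ++ [x, !x] ++ [x]) := by
  cases x <;> simp [Dir, passes]

theorem dirG' (x : Bool) : Dir ([!x] ++ [x, !x] ++ [x])
    [(2, .pos), (2, .pos), (1, .cap), (0, .cap)] [] := by
  cases x <;> simp [Dir, passes]

theorem dirKa (x : Bool) : Dir ([!x] ++ [x, !x] ++ [x])
    [(2, .pos), (2, .pos), (1, .cap), (1, .cup), (0, .neg), (0, .neg), (0, .neg), (0, .neg),
      (0, .neg), (1, .cap), (0, .cap)] [] := by
  cases x <;> simp [Dir, passes]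

theorem dirKb (x : Bool) : Dir ([!x] ++ [x, !x] ++ [x])
    [(2, .pos), (2, .pos), (2, .pos), (2, .pos), (1, .cap), (1, .cup), (0, .neg), (0, .neg),
      (0, .neg), (1, .cap), (0, .cap)] [] := by
  cases x <;> simp [Dir, passes]

theorem dirF (x : Bool) : Dir [] [(0, .cup), (1, .cup), (1, .cup), (1, .cup)]
    ([] ++ [x, !x] ++ [x, !x, x, !x, x, !x]) := by
  cases x <;> simp [Dir, passes]

theorem dirF' (x : Bool) : Dir ([] ++ [x, !x] ++ [x, !x, x, !x, x, !x])
    [(6, .pos), (6, .pos), (3, .pos), (2, .pos), (4, .pos), (3, .pos), (1, .cap), (0, .cap),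
      (1, .cap), (0, .cap)] [] := by
  cases x <;> simp [Dir, passes]

variable {A : Type u} {N : Type v} [CommRing A] [AddCommGroup N] [Module A N]

theorem absO_un (x : Bool) (p : OWord → N) (h : TwistRecurrentO A x p) : ¬ GenerO p un := by
  intro H
  obtain ⟨U, V, hU, hV, hL, hF⟩ := fam_lift (a := 1) rfl (dirG x) (dirG' x)
  have hF' : ∀ k, und (U ++ shiftO [!x] [x] (twO x k) ++ V) = Gf k := hF
  have hK : ∀ k, IsKnot (und (U ++ shiftO [!x] [x] (twO x k) ++ V)) := fun k => by
    rw [hF']; exact Gf_knot k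
  have h1 := h U V _ _ hU hV hK
  have h0 := rec_zero h1 (rec_const (p (U ++ shiftO [!x] [x] (twO x 1) ++ V))) fun j hj =>
    (H _ _ (hL _) (hL _) (hK _) (hK _)).1 (by rw [hF', hF', Gf_un hj, Gf_un one_ne_zero])
  have h2 := (H _ _ (hL 0) (hL 1) (hK _) (hK _)).2 h0
  rw [hF', hF', Gf_un one_ne_zero, un_iso Gf_zero, un_unknot] at h2
  exact absurd h2 (by norm_num)

theorem absO_ge (x : Bool) (p : OWord → N) (h : TwistRecurrentO A x p) : ¬ GenerO p ge := by
  intro H
  obtain ⟨U, V, hU, hV, hL, hF⟩ := fam_lift (a := 0) rfl (dirF x) (dirF' x)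
  have hF' : ∀ k, und (U ++ shiftO [] [x, !x, x, !x, x, !x] (twO x k) ++ V) = Ff k := hF
  have hK : ∀ k, IsKnot (und (U ++ shiftO [] [x, !x, x, !x, x, !x] (twO x k) ++ V)) := fun k => by
    rw [hF']; exact Ff_knot k
  have h1 := h U V _ _ hU hV hK
  have h0 := rec_zero h1 (rec_const (p (U ++ shiftO [] [x, !x, x, !x, x, !x] (twO x 1) ++ V)))
    fun j hj => (H _ _ (hL _) (hL _) (hK _) (hK _)).1 (by
      rw [hF', hF', Ff_ge hj, Ff_ge one_ne_zero])
  have h2 := (H _ _ (hL 0) (hL 1) (hK _) (hK _)).2 h0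
  rw [hF', hF', Ff_ge one_ne_zero, Ff_zero] at h2
  exact absurd h2 (by norm_num)

theorem absO_cr (x : Bool) (p : OWord → N) (h : TwistRecurrentO A x p) : ¬ GenerO p cr := by
  intro H
  obtain ⟨U, V, hU, hV, hL, hF⟩ := fam_lift (a := 1) rfl (dirG x) (dirKa x)
  obtain ⟨U', V', hU', hV', hL', hE⟩ := fam_lift (a := 1) rfl (dirG x) (dirKb x)
  have hF' : ∀ k, und (U ++ shiftO [!x] [x] (twO x k) ++ V) = Ka k := hF
  have hE' : ∀ k, und (U' ++ shiftO [!x] [x] (twO x k) ++ V') = Kb k := hE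
  have hK : ∀ k, IsKnot (und (U ++ shiftO [!x] [x] (twO x k) ++ V)) := fun k => by
    rw [hF']; exact Ka_knot k
  have hK' : ∀ k, IsKnot (und (U' ++ shiftO [!x] [x] (twO x k) ++ V')) := fun k => by
    rw [hE']; exact Kb_knot k
  have h1 := h U V _ _ hU hV hK
  have h2 := h U' V' _ _ hU' hV' hK'
  have h0 := rec_zero h1 h2 fun j hj =>
    (H _ _ (hL _) (hL' _) (hK _) (hK' _)).1 (by rw [hF', hE', cr_K hj])
  have h3 := (H _ _ (hL 0) (hL' 0) (hK _) (hK' _)).2 h0
  rw [hF', hE'] at h3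
  have h4 := cr_Ka0
  have h5 := cr_Kb0
  omega

end Pool.Agent.Helper35.Skl
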