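import Pool.Agent.Helper35.Skl.OAbs

/-!
# Oriented skein modules
-/

set_option autoImplicit false

namespace Pool.Agent.Helper35.Skl

open Pool.Agent.Helper31.Sk

universe u

theorem isoO_refl {e e' : List Bool} (W : OWord) : IsoO e e' W W := Relation.EqvGen.refl W

theorem isoO_trans {e e' : List Bool} {W W' W'' : OWord} (h : IsoO e e' W W')
    (h' : IsoO e e' W' W'') : IsoO e e' W W'' := Relation.EqvGen.trans _ _ _ h h'

theorem isoO_symm {e e' : List Bool} {W W' : OWord} (h : IsoO e e' W W') : IsoO e e' W' W :=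
  Relation.EqvGen.symm _ _ h

theorem isoO_ctx {e e' f f' : List Bool} {W W' U V : OWord} (h : IsoO e e' W W')
    (hU : LegalO f U e) (hV : LegalO e' V f') : IsoO f f' (U ++ W ++ V) (U ++ W' ++ V) := by
  induction h with
  | rel W W' h =>
    obtain ⟨U', X, Y, V', d, d', he, h1, h2, h3, h4⟩ := h
    refine Relation.EqvGen.rel _ _ ?_
    have := StepO.mk (U ++ U') X Y (V' ++ V) d d' he (legalO_append.2 ⟨_, hU, h1⟩) h2 h3
      (legalO_append.2 ⟨_, h4, hV⟩)
    simpa only [List.append_assoc] using this
  | refl W => exact isoO_refl _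
  | symm W W' _ ih => exact isoO_symm ih
  | trans W W' W'' _ _ ih1 ih2 => exact isoO_trans ih1 ih2

theorem isoO_shift {e e' : List Bool} {W W' : OWord} (h : IsoO e e' W W') (l r : List Bool) :
    IsoO (l ++ e ++ r) (l ++ e' ++ r) (shiftO l r W) (shiftO l r W') := by
  induction h with
  | rel W W' h =>
    obtain ⟨U, X, Y, V, d, d', he, h1, h2, h3, h4⟩ := h
    refine Relation.EqvGen.rel _ _ ?_
    simp only [shiftO_append]
    refine StepO.mk _ _ _ _ (l ++ d ++ r) (l ++ d' ++ r) ?_ (legalO_shift h1 l r)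
      (legalO_shift h2 l r) (legalO_shift h3 l r) (legalO_shift h4 l r)
    rw [und_shiftO, und_shiftO]
    exact elem_shift he _
  | refl W => exact isoO_refl _
  | symm W W' _ ih => exact isoO_symm ih
  | trans W W' W'' _ _ ih1 ih2 => exact isoO_trans ih1 ih2

variable {A : Type u} [CommRing A]

variable (M : MovesO A)

theorem insO_single (U : OWord) (l r : List Bool) (V W : OWord) (c : A) :
    insO U l r V (Finsupp.single W c) = Finsupp.single (U ++ shiftO l r W ++ V) c := by
  unfold insO
  rw [Finsupp.lmapDomain_apply, Finsupp.mapDomain_single]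

theorem insO_insO (U : OWord) (l r : List Bool) (V : OWord) (U0 : OWord) (l0 r0 : List Bool)
    (V0 : OWord) (x : OWord →₀ A) :
    insO U l r V (insO U0 l0 r0 V0 x) =
      insO (U ++ shiftO l r U0) (l ++ l0) (r0 ++ r) (shiftO l r V0 ++ V) x := by
  unfold insO
  rw [Finsupp.lmapDomain_apply, Finsupp.lmapDomain_apply, Finsupp.lmapDomain_apply,
    ← Finsupp.mapDomain_comp]
  congr 1
  funext W
  simp only [Function.comp_apply, shiftO_append, shiftO_shiftO, List.append_assoc]

/-- the relations are stable under insertion -/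
theorem relO_ins {e e' f f' l r : List Bool} {U V : OWord} (hU : LegalO f U (l ++ e ++ r))
    (hV : LegalO (l ++ e' ++ r) V f') {x : OWord →₀ A} (hx : x ∈ RelO M e e') :
    insO U l r V x ∈ RelO M f f' := by
  have h : RelO M e e' ≤ (RelO M f f').comap (insO U l r V) := by
    refine Submodule.span_le.2 ?_
    rintro x (⟨W, W', h, rfl⟩ | ⟨o, S, T, U0, V0, l0, r0, hM, hU0, hV0, rfl⟩)
    · simp only [SetLike.mem_coe, Submodule.mem_comap, map_sub, insO_single]
      refine Submodule.subset_span (Or.inl ⟨_, _, ?_, rfl⟩)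
      exact isoO_ctx (isoO_shift h l r) hU hV
    · simp only [SetLike.mem_coe, Submodule.mem_comap, insO_insO]
      refine Submodule.subset_span (Or.inr ⟨o, S, T, _, _, l ++ l0, r0 ++ r, hM, ?_, ?_, rfl⟩)
      · have h1 := legalO_shift hU0 l r
        refine legalO_append.2 ⟨_, hU, ?_⟩
        simpa only [List.append_assoc] using h1
      · have h1 := legalO_shift hV0 l r
        refine legalO_append.2 ⟨l ++ e' ++ r, ?_, hV⟩
        simpa only [List.append_assoc] using h1
  exact h hx

theorem skO_iso {e e' : List Bool} {W W' : OWord} (h : IsoO e e' W W') :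
    skO M e e' W = skO M e e' W' := by
  unfold skO
  rw [← sub_eq_zero, ← map_sub, Submodule.mkQ_apply, Submodule.Quotient.mk_eq_zero]
  exact Submodule.subset_span (Or.inl ⟨W, W', h, rfl⟩)

/-! ### full twists -/

/-- one full twist -/
def tO (x : Bool) (g : Gen) : OWord := [((0, g), [!x, x]), ((0, g), [x, !x])]

theorem legal_tO (x : Bool) {g : Gen} (hg : g = .pos ∨ g = .neg) :
    LegalO [x, !x] (tO x g) [x, !x] := by
  rcases hg with rfl | rfl <;> simp [LegalO, passes, tO]

theorem tO_cancel (x : Bool) :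
    IsoO [x, !x] [x, !x] (tO x .neg ++ tO x .pos) [] := by
  have s1 : StepO [x, !x] [x, !x] (tO x .neg ++ tO x .pos)
      [((0, .neg), [!x, x]), ((0, .pos), [x, !x])] := by
    have := StepO.mk (e := [x, !x]) (e' := [x, !x]) [((0, .neg), [!x, x])]
      [((0, .neg), [x, !x]), ((0, .pos), [!x, x])] [] [((0, .pos), [x, !x])] [!x, x] [!x, x]
      (Elem.r2N 0) (by simp [LegalO, passes]) (by simp [LegalO, passes]) (by simp [LegalO])
      (by simp [LegalO, passes])
    exact this
  have s2 : StepO [x, !x] [x, !x] [((0, .neg), [!x, x]), ((0, .pos), [x, !x])] [] := by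
    have := StepO.mk (e := [x, !x]) (e' := [x, !x]) []
      [((0, .neg), [!x, x]), ((0, .pos), [x, !x])] [] [] [x, !x] [x, !x]
      (Elem.r2N 0) (by simp [LegalO]) (by simp [LegalO, passes]) (by simp [LegalO])
      (by simp [LegalO])
    exact this
  exact isoO_trans (Relation.EqvGen.rel _ _ s1) (Relation.EqvGen.rel _ _ s2)

theorem twO_nat (x : Bool) (i : ℕ) : twO x i = (List.replicate i (tO x .pos)).flatten := by
  unfold twO tO
  rw [if_pos (by omega), Int.natAbs_natCast]

theorem twO_succ (x : Bool) (j : ℤ) :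
    IsoO [x, !x] [x, !x] (twO x j ++ tO x .pos) (twO x (j + 1)) := by
  rcases le_or_gt 0 j with hj | hj
  · have e : twO x j ++ tO x .pos = twO x (j + 1) := by
      unfold twO tO
      rw [if_pos hj, if_pos (by omega), show (j + 1).natAbs = j.natAbs + 1 by omega,
        List.replicate_succ', List.flatten_append, List.flatten_singleton]
    rw [e]
    exact isoO_refl _
  · have e : twO x j = twO x (j + 1) ++ tO x .neg := by
      unfold twO tO
      rw [if_neg (by omega)]
      rcases eq_or_lt_of_le (by omega : j + 1 ≤ 0) with h0 | h0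
      · rw [h0]
        have : j.natAbs = 1 := by omega
        rw [this]
        rfl
      · rw [if_neg (by omega), show j.natAbs = (j + 1).natAbs + 1 by omega,
          List.replicate_succ', List.flatten_append, List.flatten_singleton]
    rw [e, List.append_assoc]
    have h2 := isoO_ctx (tO_cancel x) (legalO_twO x (j + 1)) (V := []) (f' := [x, !x]) rfl
    rwa [List.append_nil, List.append_nil, List.append_nil] at h2

theorem twO_add (x : Bool) (j : ℤ) (i : ℕ) :
    IsoO [x, !x] [x, !x] (twO x j ++ twO x i) (twO x (j + i)) := by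
  induction i with
  | zero =>
    have : twO x ((0 : ℕ) : ℤ) = [] := rfl
    rw [this, List.append_nil]
    simpa using isoO_refl (twO x j)
  | succ i ih =>
    have e1 : twO x ((i + 1 : ℕ) : ℤ) = twO x (i : ℕ) ++ tO x .pos := by
      rw [twO_nat, twO_nat, List.replicate_succ', List.flatten_append, List.flatten_singleton]
    rw [e1, ← List.append_assoc]
    have h1 := isoO_ctx ih (U := []) (f := [x, !x]) rfl (legal_tO x (Or.inl rfl))
    have h2 := isoO_trans h1 (twO_succ x (j + i))
    have e : j + (i : ℤ) + 1 = j + ((i + 1 : ℕ) : ℤ) := by push_cast; ring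
    rwa [e] at h2

/-- a relation between the powers of the full twist of two strands with opposite directions -/
theorem twist_of_full (x : Bool) {m : ℕ} (c : Fin m → A) (hc : Ideal.span (Set.range c) = ⊤)
    (h : ∑ i : Fin m, c i • skO M [x, !x] [x, !x] (twO x (i : ℕ)) = 0) :
    TwistRecurrentO A x (skO M [] []) := by
  intro U V l r hU hV _
  refine ⟨m, c, ?_, ?_⟩
  · intro y hy
    have h1 : ∀ b ∈ Ideal.span (Set.range c), b • y = 0 := by
      intro b hb
      refine Submodule.span_induction ?_ ?_ ?_ ?_ hb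
      · rintro _ ⟨i, rfl⟩; exact hy i
      · exact zero_smul _ _
      · intro b b' _ _ h1 h2; rw [add_smul, h1, h2, add_zero]
      · intro a b _ h1; rw [smul_eq_mul, mul_smul, h1, smul_zero]
    have h2 := h1 1 (by rw [hc]; trivial)
    rwa [one_smul] at h2
  · intro j
    have hx : (∑ i : Fin m, c i • Finsupp.single (twO x ((i : ℕ) : ℤ)) (1 : A)) ∈
        RelO M [x, !x] [x, !x] := by
      rw [← Submodule.Quotient.mk_eq_zero, ← Submodule.mkQ_apply, map_sum]
      simp only [map_smul]
      exact h
    have hl1 : LegalO [] (U ++ shiftO l r (twO x j)) (l ++ [x, !x] ++ r) :=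
      legalO_append.2 ⟨_, hU, legalO_shift (legalO_twO x j) l r⟩
    have h3 := relO_ins M hl1 hV hx
    rw [← Submodule.Quotient.mk_eq_zero, ← Submodule.mkQ_apply, map_sum, map_sum] at h3
    simp only [map_smul, insO_single] at h3
    rw [← h3]
    refine Finset.sum_congr rfl fun i _ => ?_
    congr 1
    have h4 := isoO_ctx (isoO_shift (twO_add x j i) l r) hU hV
    show skO M [] [] (U ++ shiftO l r (twO x (j + ((i : ℕ) : ℤ))) ++ V) = _
    rw [← skO_iso M h4, shiftO_append]
    unfold skO
    congr 2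
    simp only [List.append_assoc]

/-- if the module of tangles is finitely generated, the full twist is a zero of a monic polynomial
-/
theorem full_of_fg (x : Bool)
    (hfg : (Submodule.span A {y | ∃ W, LegalO [x, !x] W [x, !x] ∧
      y = skO M [x, !x] [x, !x] W}).FG) :
    ∃ (m : ℕ) (c : Fin m → A), Ideal.span (Set.range c) = ⊤ ∧
      ∑ i : Fin m, c i • skO M [x, !x] [x, !x] (twO x (i : ℕ)) = 0 := by
  obtain ⟨V, hV⟩ : ∃ V, V = Submodule.span A {y | ∃ W, LegalO [x, !x] W [x, !x] ∧
      y = skO M [x, !x] [x, !x] W} := ⟨_, rfl⟩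
  rw [← hV] at hfg
  have hlp := legal_tO x (g := .pos) (Or.inl rfl)
  -- the endomorphism
  have hle : RelO M [x, !x] [x, !x] ≤ (RelO M [x, !x] [x, !x]).comap
      (insO [] [] [] (tO x .pos)) := by
    intro y hy
    exact relO_ins M (e := [x, !x]) (e' := [x, !x]) (l := []) (r := []) (U := []) (by rfl) hlp hy
  obtain ⟨τ, hτ⟩ : ∃ τ : ((OWord →₀ A) ⧸ RelO M [x, !x] [x, !x]) →ₗ[A]
      ((OWord →₀ A) ⧸ RelO M [x, !x] [x, !x]),
      ∀ W, τ (skO M [x, !x] [x, !x] W) = skO M [x, !x] [x, !x] (W ++ tO x .pos) := by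
    refine ⟨(RelO M [x, !x] [x, !x]).mapQ _ (insO [] [] [] (tO x .pos)) hle, fun W => ?_⟩
    have e : shiftO [] [] W = W := by
      simp [shiftO]
    unfold skO
    rw [Submodule.mkQ_apply, Submodule.mapQ_apply, insO_single, e]
    rfl
  have hVV : ∀ y ∈ V, τ y ∈ V := by
    intro y hy
    rw [hV] at hy ⊢
    refine Submodule.span_induction ?_ ?_ ?_ ?_ hy
    · rintro _ ⟨W, hW, rfl⟩
      rw [hτ]
      exact Submodule.subset_span ⟨_, legalO_append.2 ⟨_, hW, hlp⟩, rfl⟩
    · rw [map_zero]; exact Submodule.zero_mem _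
    · intro y z _ _ h1 h2; rw [map_add]; exact Submodule.add_mem _ h1 h2
    · intro b y _ h1; rw [map_smul]; exact Submodule.smul_mem _ _ h1
  have : Module.Finite A V := Module.Finite.iff_fg.2 hfg
  obtain ⟨P, hP, h0⟩ := LinearMap.exists_monic_and_aeval_eq_zero A (τ.restrict hVV)
  have h1 : skO M [x, !x] [x, !x] [] ∈ V := by
    rw [hV]
    exact Submodule.subset_span ⟨[], rfl, rfl⟩
  have hpow : ∀ i : ℕ, (((τ.restrict hVV) ^ i) ⟨_, h1⟩ : (OWord →₀ A) ⧸ RelO M [x, !x] [x, !x]) =
      skO M [x, !x] [x, !x] (twO x i) := by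
    intro i
    induction i with
    | zero => rfl
    | succ i ih =>
      have e1 : twO x ((i + 1 : ℕ) : ℤ) = twO x (i : ℕ) ++ tO x .pos := by
        rw [twO_nat, twO_nat, List.replicate_succ', List.flatten_append, List.flatten_singleton]
      rw [pow_succ', Module.End.mul_apply, LinearMap.coe_restrict_apply, ih, hτ, e1]
  refine ⟨P.natDegree + 1, fun i => P.coeff i, ?_, ?_⟩
  · rw [Ideal.eq_top_iff_one]
    refine Ideal.subset_span ⟨Fin.last _, ?_⟩
    simpa using hP.coeff_natDegree
  · have h2 := congrArg (fun f => ((f ⟨_, h1⟩ : V) : (OWord →₀ A) ⧸ RelO M [x, !x] [x, !x])) h0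
    simp only [Polynomial.aeval_eq_sum_range, LinearMap.sum_apply, LinearMap.smul_apply,
      LinearMap.zero_apply, Submodule.coe_sum, Submodule.coe_smul, ZeroMemClass.coe_zero, hpow] at h2
    rw [Fin.sum_univ_eq_sum_range (fun i => P.coeff i • skO M [x, !x] [x, !x] (twO x i))]
    exact h2

end Pool.Agent.Helper35.Skl
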