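import Pool.Agent.Helper31.Sk.Main2
import Pool.Agent.Helper35.Skl.Defs

/-!
# Linear recurrences (MP_c65973_gt)

Two sequences indexed by the integers, with values in a module, which satisfy linear recurrences
whose coefficients have no common annihilator, and which agree at all indices different from `0`,
agree at `0`. (The main point is an argument of McCoy.)
-/

set_option autoImplicit false

namespace Pool.Agent.Helper35.Skl

section
universe u v
variable {A : Type u} {N : Type v} [CommRing A] [AddCommGroup N] [Module A N]

/-- `∑ c i x (j + i)` -/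
def op {m : ℕ} (c : Fin m → A) (x : ℤ → N) (j : ℤ) : N := ∑ i : Fin m, c i • x (j + (i : ℕ))

theorem op_comm {m m' : ℕ} (c : Fin m → A) (c' : Fin m' → A) (x : ℤ → N) :
    op c (op c' x) = op c' (op c x) := by
  funext j
  simp only [op, Finset.smul_sum, smul_smul]
  rw [Finset.sum_comm]
  refine Finset.sum_congr rfl fun i _ => Finset.sum_congr rfl fun k _ => ?_
  rw [mul_comm, show j + ((k : ℕ) : ℤ) + ((i : ℕ) : ℤ) = j + ((i : ℕ) : ℤ) + ((k : ℕ) : ℤ) by ring]

theorem op_sub {m : ℕ} (c : Fin m → A) (x y : ℤ → N) : op c (x - y) = op c x - op c y := by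
  funext j
  simp only [op, Pi.sub_apply, smul_sub, Finset.sum_sub_distrib]

theorem op_zero {m : ℕ} (c : Fin m → A) : op c (0 : ℤ → N) = 0 := by
  funext j
  simp [op]

theorem op_smul {m : ℕ} (c : Fin m → A) (a : A) (x : ℤ → N) : op c (a • x) = a • op c x := by
  funext j
  simp only [op, Pi.smul_apply, Finset.smul_sum]
  refine Finset.sum_congr rfl fun i _ => ?_
  rw [smul_comm]

/-- the argument of McCoy -/
theorem mccoy {m : ℕ} (c : Fin m → A) (hc : ∀ y : N, (∀ i, c i • y = 0) → y = 0) (L : ℕ) :
    ∀ (a : ℤ) (z : ℤ → N), (∀ j, z j ≠ 0 → a ≤ j ∧ j < a + L) → op c z = 0 → z = 0 := by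
  induction L with
  | zero =>
    intro a z hz _
    funext j
    by_contra h
    have := hz j h
    push_cast at this
    omega
  | succ L ih =>
    intro a z hz h0
    have key : ∀ (d : ℕ) (i : Fin m), m ≤ (i : ℕ) + d → c i • z = 0 := by
      intro d
      induction d with
      | zero => intro i hi; exact absurd i.2 (by omega)
      | succ d ihd =>
        intro i hi
        have h1 : c i • z a = 0 := by
          have h2 := congrFun h0 (a - (i : ℕ))
          simp only [op, Pi.zero_apply] at h2
          rw [Finset.sum_eq_single i] at h2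
          · rw [show a - ((i : ℕ) : ℤ) + ((i : ℕ) : ℤ) = a by ring] at h2
            exact h2
          · intro k _ hk
            rcases lt_or_gt_of_ne (fun e => hk (Fin.ext e) : (k : ℕ) ≠ i) with hlt | hgt
            · have : z (a - ((i : ℕ) : ℤ) + ((k : ℕ) : ℤ)) = 0 := by
                by_contra hne
                have := (hz _ hne).1
                omega
              rw [this, smul_zero]
            · exact congrFun (ihd k (by omega)) _
          · intro h; exact absurd (Finset.mem_univ i) h
        refine ih (a + 1) (c i • z) ?_ (by rw [op_smul, h0, smul_zero])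
        intro j hj
        have h3 : z j ≠ 0 := by
          intro e
          exact hj (by rw [Pi.smul_apply, e, smul_zero])
        have h4 := hz j h3
        have h5 : j ≠ a := by
          rintro rfl
          exact hj h1
        push_cast at h4
        omega
    funext j
    exact hc _ fun i => congrFun (key m i (by omega)) j

theorem rec_zero {x x' : ℤ → N} (h : Recurrent A x) (h' : Recurrent A x')
    (h0 : ∀ j, j ≠ 0 → x j = x' j) : x 0 = x' 0 := by
  obtain ⟨m, c, hc, hx⟩ := h
  obtain ⟨m', c', hc', hx'⟩ := h'
  have hz : ∀ j, j ≠ 0 → (x - x') j = 0 := fun j hj => by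
    rw [Pi.sub_apply, h0 j hj, sub_self]
  have e1 : op c (op c' (x - x')) = 0 := by
    have f1 : op c x = 0 := funext hx
    have f2 : op c' x' = 0 := funext hx'
    rw [op_sub, op_sub, op_comm, f1, f2, op_zero, op_zero, sub_zero]
  have e2 : op c' (x - x') = 0 := by
    refine mccoy c hc m' (-(m' : ℤ) + 1) _ ?_ e1
    intro j hj
    by_contra hne
    refine hj ?_
    refine Finset.sum_eq_zero fun i _ => ?_
    rw [hz _ ?_, smul_zero]
    intro e
    have := i.2
    omega
  have e3 : (x - x') 0 = 0 := by
    refine hc' _ fun i => ?_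
    have h2 := congrFun e2 (-((i : ℕ) : ℤ))
    simp only [op] at h2
    rw [Finset.sum_eq_single i] at h2
    · simpa using h2
    · intro k _ hk
      rw [hz _ ?_, smul_zero]
      intro e
      exact hk (Fin.ext (by omega))
    · intro h; exact absurd (Finset.mem_univ i) h
  exact sub_eq_zero.1 e3

theorem rec_const (n : N) : Recurrent A (fun _ => n) := by
  refine ⟨2, ![1, -1], fun y h => ?_, fun j => ?_⟩
  · simpa using h 0
  · simp [Fin.sum_univ_two]

/-- monic recurrences -/
theorem rec_of_monic {x : ℤ → N} {m : ℕ} (c : Fin m → A)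
    (h : ∀ j : ℤ, x (j + m) = ∑ i : Fin m, c i • x (j + (i : ℕ))) : Recurrent A x := by
  refine ⟨m + 1, Fin.snoc (fun i => -c i) 1, fun y hy => ?_, fun j => ?_⟩
  · have := hy (Fin.last m)
    simpa using this
  · rw [Fin.sum_univ_castSucc]
    simp only [Fin.snoc_castSucc, Fin.snoc_last, Fin.val_castSucc, Fin.val_last, one_smul, neg_smul,
      Finset.sum_neg_distrib]
    rw [h j]
    exact neg_add_cancel _

end

end Pool.Agent.Helper35.Skl
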