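import Pool.Agent.Helper35.Skl.Kmt

/-!
# The number of components of a diagram and of its two smoothings at a crossing
-/

set_option autoImplicit false

namespace Pool.Agent.Helper35.Skl

open Pool.Agent.Helper31.Sk

theorem inv_four {f : ℕ → ℕ} (h : Inv 4 f) :
    (f 0 = 1 ∧ f 1 = 0 ∧ f 2 = 3 ∧ f 3 = 2) ∨ (f 0 = 2 ∧ f 1 = 3 ∧ f 2 = 0 ∧ f 3 = 1) ∨
      (f 0 = 3 ∧ f 1 = 2 ∧ f 2 = 1 ∧ f 3 = 0) := by
  have a0 := h.lt 0 (by omega)
  have a1 := h.lt 1 (by omega)
  have a2 := h.lt 2 (by omega)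
  have a3 := h.lt 3 (by omega)
  have b0 := h.ne 0 (by omega)
  have b1 := h.ne 1 (by omega)
  have b2 := h.ne 2 (by omega)
  have b3 := h.ne 3 (by omega)
  have c0 := h.inv 0 (by omega)
  have c1 := h.inv 1 (by omega)
  have c2 := h.inv 2 (by omega)
  have c3 := h.inv 3 (by omega)
  have hx : ∀ x < 4, x ≠ 0 → f 0 = x → f x = 0 := by
    intro x _ _ e
    rw [e] at c0
    exact c0
  have h0 : f 0 = 1 ∨ f 0 = 2 ∨ f 0 = 3 := by omega
  rcases h0 with e | e | e
  · rw [e] at c0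
    have h2 : f 2 = 3 := by
      have h20 : f 2 ≠ 0 := by intro e2; rw [e2] at c2; omega
      have h21 : f 2 ≠ 1 := by intro e2; rw [e2] at c2; omega
      omega
    have h3 : f 3 = 2 := by rw [h2] at c2; exact c2
    exact Or.inl ⟨e, c0, h2, h3⟩
  · rw [e] at c0
    have h2 : f 1 = 3 := by
      have h20 : f 1 ≠ 0 := by intro e2; rw [e2] at c1; omega
      have h21 : f 1 ≠ 2 := by intro e2; rw [e2] at c1; omega
      omega
    have h3 : f 3 = 1 := by rw [h2] at c1; exact c1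
    exact Or.inr (Or.inl ⟨e, h2, c0, h3⟩)
  · rw [e] at c0
    have h2 : f 1 = 2 := by
      have h20 : f 1 ≠ 0 := by intro e2; rw [e2] at c1; omega
      have h21 : f 1 ≠ 3 := by intro e2; rw [e2] at c1; omega
      omega
    have h3 : f 2 = 1 := by rw [h2] at c1; exact c1
    exact Or.inr (Or.inr ⟨e, h2, h3, c0⟩)

theorem cmp_four (f : ℕ → ℕ) (X : ℕ → Bool) : Cmp 4 f X ↔
    X 0 ≠ X (f 0) ∧ X 1 ≠ X (f 1) ∧ X 2 ≠ X (f 2) ∧ X 3 ≠ X (f 3) := by
  constructor
  · intro h
    exact ⟨h 0 (by omega), h 1 (by omega), h 2 (by omega), h 3 (by omega)⟩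
  · rintro ⟨h0, h1, h2, h3⟩ j hj
    have : j = 0 ∨ j = 1 ∨ j = 2 ∨ j = 3 := by omega
    rcases this with rfl | rfl | rfl | rfl <;> assumption

/-- the three closings of a tangle with four ends -/
theorem tri_closed {C : Word} (hC : Legal 4 C 0) : ∃ m : ℕ,
    (oF ([(0, .cup), (1, .cup)] ++ C) [] = 2 ^ (m + 2) ∧
      oF ([(0, .cup), (1, .cup), (2, .pos)] ++ C) [] = 2 ^ (m + 1) ∧
      oF ([(0, .cup), (0, .cup)] ++ C) [] = 2 ^ (m + 1)) ∨
    (oF ([(0, .cup), (1, .cup)] ++ C) [] = 2 ^ (m + 1) ∧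
      oF ([(0, .cup), (1, .cup), (2, .pos)] ++ C) [] = 2 ^ (m + 2) ∧
      oF ([(0, .cup), (0, .cup)] ++ C) [] = 2 ^ (m + 1)) ∨
    (oF ([(0, .cup), (1, .cup)] ++ C) [] = 2 ^ (m + 1) ∧
      oF ([(0, .cup), (1, .cup), (2, .pos)] ++ C) [] = 2 ^ (m + 1) ∧
      oF ([(0, .cup), (0, .cup)] ++ C) [] = 2 ^ (m + 2)) := by
  classical
  obtain ⟨k, f, hF⟩ := mt_word C 4 hC
  have hv : ∀ x y z t : Bool, oF C [x, y, z, t] = if (nth [x, y, z, t] 0 ≠ nth [x, y, z, t] (f 0) ∧
      nth [x, y, z, t] 1 ≠ nth [x, y, z, t] (f 1) ∧ nth [x, y, z, t] 2 ≠ nth [x, y, z, t] (f 2) ∧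
      nth [x, y, z, t] 3 ≠ nth [x, y, z, t] (f 3)) then 2 ^ k else 0 := by
    intro x y z t
    have := hF.v [x, y, z, t] rfl
    unfold oF
    rw [this]
    congr 1
    exact propext (cmp_four f _)
  have e1 : oF ([(0, .cup), (1, .cup)] ++ C) [] = oF C [false, false, true, true] +
      oF C [false, true, false, true] + oF C [true, false, true, false] +
      oF C [true, true, false, false] := by
    rw [oF_append]
    simp [act0, S2, Helper31.Sk.Or]
    ring
  have e2 : oF ([(0, .cup), (1, .cup), (2, .pos)] ++ C) [] = oF C [false, false, true, true] +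
      oF C [false, true, true, false] + oF C [true, false, false, true] +
      oF C [true, true, false, false] := by
    rw [oF_append]
    simp [act0, S2, Helper31.Sk.Or, act]
    ring
  have e3 : oF ([(0, .cup), (0, .cup)] ++ C) [] = oF C [false, true, false, true] +
      oF C [false, true, true, false] + oF C [true, false, false, true] +
      oF C [true, false, true, false] := by
    rw [oF_append]
    simp [act0, S2, Helper31.Sk.Or]
    ring
  rw [e1, e2, e3]
  refine ⟨k, ?_⟩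
  rcases inv_four hF.mat with ⟨h0, h1, h2, h3⟩ | ⟨h0, h1, h2, h3⟩ | ⟨h0, h1, h2, h3⟩
  · right; right
    simp only [hv, h0, h1, h2, h3]
    refine ⟨?_, ?_, ?_⟩ <;> simp [nth] <;> ring
  · right; left
    simp only [hv, h0, h1, h2, h3]
    refine ⟨?_, ?_, ?_⟩ <;> simp [nth] <;> ring
  · left
    simp only [hv, h0, h1, h2, h3]
    refine ⟨?_, ?_, ?_⟩ <;> simp [nth] <;> ring

theorem tri {k i : ℕ} {u v : Word} (hu : Legal 0 u k) (hi : i + 2 ≤ k) (hv : Legal k v 0) :
    ∃ m : ℕ,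
    (oF (u ++ v) [] = 2 ^ (m + 2) ∧ oF (u ++ (i, .pos) :: v) [] = 2 ^ (m + 1) ∧
      oF (u ++ (i, .cap) :: (i, .cup) :: v) [] = 2 ^ (m + 1)) ∨
    (oF (u ++ v) [] = 2 ^ (m + 1) ∧ oF (u ++ (i, .pos) :: v) [] = 2 ^ (m + 2) ∧
      oF (u ++ (i, .cap) :: (i, .cup) :: v) [] = 2 ^ (m + 1)) ∨
    (oF (u ++ v) [] = 2 ^ (m + 1) ∧ oF (u ++ (i, .pos) :: v) [] = 2 ^ (m + 1) ∧
      oF (u ++ (i, .cap) :: (i, .cup) :: v) [] = 2 ^ (m + 2)) := by
  have hv' : Legal (k + 4) ((i + 1, .cap) :: (i, .cap) :: v) 0 := by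
    refine ⟨by simp only [Gen.src]; omega, ⟨by simp only [Gen.src, Gen.tgt]; omega, ?_⟩⟩
    have e : k + 4 - Gen.cap.src + Gen.cap.tgt - Gen.cap.src + Gen.cap.tgt = k := by
      simp only [Gen.src, Gen.tgt]; omega
    rw [e]
    exact hv
  obtain ⟨hC, hS⟩ := ctx_word (m := 4) (a := i + 2) hu hv' (by omega)
  have L0 : ∀ n, Legal n [] n := fun n => rfl
  -- the two zigzags
  have z1 : Iso k k [(i + 2, .cup), (i + 3, .cup), (i + 1, .cap), (i, .cap)] [] := by
    have h1 : Iso (k + 2) (k + 2) [(i + 1, .cap), (i + 1, .cup)] [(i + 3, .cup), (i + 1, .cap)] :=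
      iso_elem (Elem.comm (i + 1) 0 .cap .cup) (by simp only [Legal, Gen.src, Gen.tgt]; omega)
        (by simp only [Legal, Gen.src, Gen.tgt]; omega)
    have h2 : Iso k k [(i + 2, .cup), (i + 1, .cap)] [] :=
      iso_elem (Elem.zag (i + 1)) (by simp only [Legal, Gen.src, Gen.tgt]; omega)
        (by simp only [Legal])
    have h3 : Iso k k [(i + 1, .cup), (i, .cap)] [] :=
      iso_elem (Elem.zag i) (by simp only [Legal, Gen.src, Gen.tgt]; omega)
        (by simp only [Legal])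
    have s1 : Iso k k [(i + 2, .cup), (i + 3, .cup), (i + 1, .cap), (i, .cap)]
        [(i + 2, .cup), (i + 1, .cap), (i + 1, .cup), (i, .cap)] :=
      iso_ctx (u := [(i + 2, .cup)]) (v := [(i, .cap)]) (iso_symm h1)
        (by simp only [Legal, Gen.src, Gen.tgt]; omega)
        (by simp only [Legal, Gen.src, Gen.tgt]; omega)
    have s2 : Iso k k [(i + 2, .cup), (i + 1, .cap), (i + 1, .cup), (i, .cap)]
        [(i + 1, .cup), (i, .cap)] :=
      iso_ctx (u := []) (v := [(i + 1, .cup), (i, .cap)]) h2 (L0 k)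
        (by simp only [Legal, Gen.src, Gen.tgt]; omega)
    exact iso_trans s1 (iso_trans s2 h3)
  have z2 : Iso k k [(i + 2, .cup), (i + 3, .cup), (i + 4, .pos), (i + 1, .cap), (i, .cap)]
      [(i, .pos)] := by
    have h1 : Iso (k + 4) (k + 2) [(i + 1, .cap), (i + 2, .pos)] [(i + 4, .pos), (i + 1, .cap)] := by
      have := Elem.comm (i + 1) 1 .cap .pos
      have e1 : i + 1 + Gen.cap.tgt + 1 = i + 2 := by simp [Gen.tgt]
      have e2 : i + 1 + Gen.cap.src + 1 = i + 4 := by simp [Gen.src]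
      rw [e1, e2] at this
      exact iso_elem this (by simp only [Legal, Gen.src, Gen.tgt]; omega)
        (by simp only [Legal, Gen.src, Gen.tgt]; omega)
    have h2 : Iso (k + 2) k [(i, .cap), (i, .pos)] [(i + 2, .pos), (i, .cap)] := by
      have := Elem.comm i 0 .cap .pos
      have e1 : i + Gen.cap.tgt + 0 = i := by simp [Gen.tgt]
      have e2 : i + Gen.cap.src + 0 = i + 2 := by simp [Gen.src]
      rw [e1, e2] at this
      exact iso_elem this (by simp only [Legal, Gen.src, Gen.tgt]; omega)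
        (by simp only [Legal, Gen.src, Gen.tgt]; omega)
    have s1 : Iso k k [(i + 2, .cup), (i + 3, .cup), (i + 4, .pos), (i + 1, .cap), (i, .cap)]
        [(i + 2, .cup), (i + 3, .cup), (i + 1, .cap), (i + 2, .pos), (i, .cap)] :=
      iso_ctx (u := [(i + 2, .cup), (i + 3, .cup)]) (v := [(i, .cap)]) (iso_symm h1)
        (by simp only [Legal, Gen.src, Gen.tgt]; omega)
        (by simp only [Legal, Gen.src, Gen.tgt]; omega)
    have s2 : Iso k k [(i + 2, .cup), (i + 3, .cup), (i + 1, .cap), (i + 2, .pos), (i, .cap)]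
        [(i + 2, .cup), (i + 3, .cup), (i + 1, .cap), (i, .cap), (i, .pos)] :=
      iso_ctx (u := [(i + 2, .cup), (i + 3, .cup), (i + 1, .cap)]) (v := []) (iso_symm h2)
        (by simp only [Legal, Gen.src, Gen.tgt]; omega) (L0 k)
    have s3 : Iso k k [(i + 2, .cup), (i + 3, .cup), (i + 1, .cap), (i, .cap), (i, .pos)]
        [(i, .pos)] :=
      iso_ctx (u := []) (v := [(i, .pos)]) z1 (L0 k) (by simp only [Legal, Gen.src, Gen.tgt]; omega)
    exact iso_trans s1 (iso_trans s2 s3)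
  have z3 : Iso k k [(i + 2, .cup), (i + 2, .cup), (i + 1, .cap), (i, .cap)]
      [(i, .cap), (i, .cup)] := by
    have h2 : Iso (k + 2) (k + 2) [(i + 2, .cup), (i + 1, .cap)] [] :=
      iso_elem (Elem.zag (i + 1)) (by simp only [Legal, Gen.src, Gen.tgt]; omega)
        (by simp only [Legal])
    have s1 : Iso k k [(i + 2, .cup), (i + 2, .cup), (i + 1, .cap), (i, .cap)]
        [(i + 2, .cup), (i, .cap)] :=
      iso_ctx (u := [(i + 2, .cup)]) (v := [(i, .cap)]) h2
        (by simp only [Legal, Gen.src, Gen.tgt]; omega)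
        (by simp only [Legal, Gen.src, Gen.tgt]; omega)
    have s2 : Iso k k [(i, .cap), (i, .cup)] [(i + 2, .cup), (i, .cap)] :=
      iso_elem (Elem.comm i 0 .cap .cup) (by simp only [Legal, Gen.src, Gen.tgt]; omega)
        (by simp only [Legal, Gen.src, Gen.tgt]; omega)
    exact iso_trans s1 (iso_symm s2)
  have E1 : oF ([(0, .cup), (1, .cup)] ++ (u ++ (mvs (i + 2) 4 (k - (i + 2)) ++
      (i + 1, .cap) :: (i, .cap) :: v))) [] = oF (u ++ v) [] := by
    rw [hS _ (by simp [Legal, Gen.src, Gen.tgt])]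
    have := oF_iso (iso_ctx z1 hu hv)
    simp only [List.append_nil] at this
    rw [← this]
    congr 1
    simp [shift, show 1 + (i + 2) = i + 3 by ring]
  have E2 : oF ([(0, .cup), (1, .cup), (2, .pos)] ++ (u ++ (mvs (i + 2) 4 (k - (i + 2)) ++
      (i + 1, .cap) :: (i, .cap) :: v))) [] = oF (u ++ (i, .pos) :: v) [] := by
    rw [hS _ (by simp [Legal, Gen.src, Gen.tgt])]
    have := oF_iso (iso_ctx z2 hu hv)
    simp only [List.append_assoc, List.singleton_append] at this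
    rw [← this]
    congr 1
    simp [shift, show 1 + (i + 2) = i + 3 by ring, show 2 + (i + 2) = i + 4 by ring]
  have E3 : oF ([(0, .cup), (0, .cup)] ++ (u ++ (mvs (i + 2) 4 (k - (i + 2)) ++
      (i + 1, .cap) :: (i, .cap) :: v))) [] = oF (u ++ (i, .cap) :: (i, .cup) :: v) [] := by
    rw [hS _ (by simp [Legal, Gen.src, Gen.tgt])]
    have := oF_iso (iso_ctx z3 hu hv)
    simp only [List.append_assoc, List.cons_append, List.nil_append] at this
    rw [← this]
    congr 1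
    simp [shift]
  have := tri_closed hC
  rw [E1, E2, E3] at this
  exact this

end Pool.Agent.Helper35.Skl
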