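import Pool.Agent.Helper35.Skl.Bnd

/-!
# The brackets of two families of knots
-/

set_option autoImplicit false

namespace Pool.Agent.Helper35.Skl

open Pool.Agent.Helper31.Sk

section
variable {R : Type} [CommRing R] {a b : R}

theorem bw1 (hab : a * b = 1) : bk a b [(0, .cup), (0, .cup), (1, .cap), (0, .cap)] =
    a ^ 2 + b ^ 2 := by
  simp [bk, act0, S2, Br, Mw, act]
  grind

theorem bw2 (hab : a * b = 1) : bk a b [(0, .cup), (0, .cup), (2, .cap), (2, .cup), (1, .cap),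
    (0, .cap)] = (a ^ 2 + b ^ 2) ^ 2 := by
  simp [bk, act0, S2, Br, Mw, act]
  grind

theorem bw3 (hab : a * b = 1) : bk a b [(0, .cup), (0, .cup), (1, .cap), (1, .cup), (1, .cap),
    (0, .cap)] = (a ^ 2 + b ^ 2) ^ 2 := by
  simp [bk, act0, S2, Br, Mw, act]
  grind

theorem bw4 (hab : a * b = 1) : bk a b [(0, .cup), (0, .cup), (1, .cap), (1, .cup), (2, .cap),
    (2, .cup), (1, .cap), (0, .cap)] = a ^ 2 + b ^ 2 := by
  simp [bk, act0, S2, Br, Mw, act]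
  grind

end

/-- two cups side by side, `n` half twists in the middle, `l` half twists on the right -/
def Dk (n : ℕ) (g : Gen) (l : ℕ) : Word := [(0, .cup), (0, .cup)] ++ (List.replicate n (1, g) ++
  (List.replicate l (2, .pos) ++ [(1, .cap), (0, .cap)]))

/-- the connected sum of `Dk` with a torus knot -/
def Kk (n : ℕ) (g : Gen) (l m : ℕ) : Word := [(0, .cup), (0, .cup)] ++ (List.replicate n (1, g) ++
  (List.replicate l (2, .pos) ++ ([(1, .cap), (1, .cup)] ++ (List.replicate m (0, .neg) ++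
    [(1, .cap), (0, .cap)]))))

theorem legal_rep {m a : ℕ} {g : Gen} (hg : g = .pos ∨ g = .neg) (h : a + 2 ≤ m) (n : ℕ) :
    Legal m (List.replicate n (a, g)) m := by
  induction n with
  | zero => rfl
  | succ n ih =>
    rw [List.replicate_succ]
    have e : m - g.src + g.tgt = m := by
      rcases hg with rfl | rfl <;> simp only [Gen.src, Gen.tgt] <;> omega
    refine ⟨?_, by rw [e]; exact ih⟩
    rcases hg with rfl | rfl <;> simpa [Gen.src] using h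

section
variable {a b : ℚ}

def Vl (a b : ℚ) (l : ℕ) : ℚ := a ^ l * ((a ^ 2 + b ^ 2) ^ 2 - 1) + (-b ^ 3) ^ l

def Tn (a b : ℚ) (n : ℕ) : ℚ := b ^ n * ((a ^ 2 + b ^ 2) ^ 2 - 1) + (-a ^ 3) ^ n

theorem bk_v1 (hab : a * b = 1) (l : ℕ) : (a ^ 2 + b ^ 2) * bk a b ([(0, .cup), (0, .cup)] ++
    (List.replicate l (2, .pos) ++ [(1, .cap), (0, .cap)])) =
      (-b ^ 3) ^ l * (a ^ 2 + b ^ 2) ^ 2 := by
  have hl : Legal 0 [(0, .cup), (0, .cup)] 4 := by simp [Legal, Gen.src, Gen.tgt]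
  have h1 := bk_twP hab hl (i := 2) (by omega) l [(1, .cap), (0, .cap)]
  simp only [List.cons_append, List.nil_append] at h1 ⊢
  rw [bw1 hab, bw2 hab] at h1
  linear_combination h1

theorem bk_v2 (hab : a * b = 1) (hd : a ^ 2 + b ^ 2 ≠ 0) (l : ℕ) :
    bk a b ([(0, .cup), (0, .cup)] ++ (1, .cap) :: (1, .cup) ::
      (List.replicate l (2, .pos) ++ [(1, .cap), (0, .cap)])) = Vl a b l := by
  have hl : Legal 0 [(0, .cup), (0, .cup), (1, .cap), (1, .cup)] 4 := by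
    simp [Legal, Gen.src, Gen.tgt]
  have h1 := bk_twP hab hl (i := 2) (by omega) l [(1, .cap), (0, .cap)]
  simp only [List.cons_append, List.nil_append] at h1 ⊢
  rw [bw3 hab, bw4 hab] at h1
  apply mul_left_cancel₀ hd
  rw [h1, Vl]
  ring

theorem bk_Dk_neg (hab : a * b = 1) (hd : a ^ 2 + b ^ 2 ≠ 0) (n l : ℕ) :
    (a ^ 2 + b ^ 2) * bk a b (Dk n .neg l) =
      b ^ n * (((a ^ 2 + b ^ 2) ^ 2 - 1) * ((-b ^ 3) ^ l - a ^ l)) + (-a ^ 3) ^ n * Vl a b l := by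
  have hl : Legal 0 [(0, .cup), (0, .cup)] 4 := by simp [Legal, Gen.src, Gen.tgt]
  have h1 := bk_twN hab hl (i := 1) (by omega) n
    (List.replicate l (2, .pos) ++ [(1, .cap), (0, .cap)])
  rw [bk_v1 hab, bk_v2 hab hd] at h1
  unfold Dk
  rw [h1]
  unfold Vl
  ring

theorem bk_Dk_pos (hab : a * b = 1) (hd : a ^ 2 + b ^ 2 ≠ 0) (n l : ℕ) :
    (a ^ 2 + b ^ 2) * bk a b (Dk n .pos l) =
      a ^ n * (((a ^ 2 + b ^ 2) ^ 2 - 1) * ((-b ^ 3) ^ l - a ^ l)) + (-b ^ 3) ^ n * Vl a b l := by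
  have hl : Legal 0 [(0, .cup), (0, .cup)] 4 := by simp [Legal, Gen.src, Gen.tgt]
  have h1 := bk_twP hab hl (i := 1) (by omega) n
    (List.replicate l (2, .pos) ++ [(1, .cap), (0, .cap)])
  rw [bk_v1 hab, bk_v2 hab hd] at h1
  unfold Dk
  rw [h1]
  unfold Vl
  ring

theorem bk_Kk (hab : a * b = 1) (n : ℕ) {g : Gen} (hg : g = .pos ∨ g = .neg) (l m : ℕ) :
    (a ^ 2 + b ^ 2) * bk a b (Kk n g l m) = Tn a b m * bk a b (Dk n g l) := by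
  have hu : Legal 0 ([(0, .cup), (0, .cup)] ++ (List.replicate n (1, g) ++
      List.replicate l (2, .pos))) 4 :=
    legal_append.2 ⟨4, by simp [Legal, Gen.src, Gen.tgt], legal_append.2 ⟨4,
      legal_rep hg (by omega) n, legal_rep (Or.inl rfl) (by omega) l⟩⟩
  have hu1 : Legal 0 ([(0, .cup), (0, .cup)] ++ (List.replicate n (1, g) ++
      List.replicate l (2, .pos)) ++ [(1, .cap)]) 2 :=
    legal_append.2 ⟨4, hu, by simp [Legal, Gen.src, Gen.tgt]⟩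
  have hu2 : Legal 0 ([(0, .cup), (0, .cup)] ++ (List.replicate n (1, g) ++
      List.replicate l (2, .pos)) ++ [(1, .cap), (1, .cup)]) 4 :=
    legal_append.2 ⟨4, hu, by simp [Legal, Gen.src, Gen.tgt]⟩
  have h1 := bk_twN hab hu2 (i := 0) (by omega) m [(1, .cap), (0, .cap)]
  have h2 := bk_loop (a := a) (b := b) hu1 (i := 1) (by omega) [(0, .cap)]
  have h3 := bk_zag hab hu1 (i := 0) (by omega) [(0, .cup), (1, .cap), (0, .cap)]
  have h4 := bk_zig hab hu1 (i := 0) (by omega) [(0, .cap)]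
  simp only [List.append_assoc, List.cons_append, List.nil_append, Nat.zero_add] at h1 h2 h3 h4
  rw [h2, h3, h4] at h1
  simp only [Kk, Dk, Tn, List.append_assoc, List.cons_append, List.nil_append]
  rw [h1]
  ring

end

/-! ### valuations -/

/-- the square of the value of a circle, minus `1`, times `19 ^ 4` -/
def DD : ℤ := 19 ^ 8 + 19 ^ 4 + 1

theorem Tn_vals (p : ℕ) : (19 : ℚ) ^ (p + 6) * Tn (19 : ℚ) (1 / 19) (p + 2) =
      ((DD + (-1) ^ (p + 2) * 19 ^ (4 * p + 12) : ℤ) : ℚ) ∧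
    (19 : ℚ) ^ (3 * p + 6) * Tn (1 / 19 : ℚ) 19 (p + 2) =
      ((19 ^ (4 * p + 4) * DD + (-1) ^ (p + 2) : ℤ) : ℚ) := by
  unfold Tn DD
  push_cast
  have e1 : (19 : ℚ) ^ (p + 2) * (1 / 19) ^ (p + 2) = 1 := by
    rw [← mul_pow]; norm_num
  have e2 : ((-19 ^ 3 : ℚ)) ^ (p + 2) = (-1) ^ (p + 2) * (19 ^ (p + 2)) ^ 3 := by
    rw [← pow_mul, mul_comm (p + 2) 3, pow_mul, ← mul_pow]; norm_num
  have e3 : (-(1 / 19 : ℚ) ^ 3) ^ (p + 2) = (-1) ^ (p + 2) * ((1 / 19) ^ (p + 2)) ^ 3 := by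
    rw [← pow_mul, mul_comm (p + 2) 3, pow_mul, ← mul_pow]; norm_num
  rw [e2, e3]
  constructor
  · have f1 : (19 : ℚ) ^ (p + 6) = 19 ^ (p + 2) * 19 ^ 4 := by ring
    have f2 : (19 : ℚ) ^ (4 * p + 12) = (19 ^ (p + 2)) ^ 4 * 19 ^ 4 := by ring
    rw [f1, f2]
    generalize (19 : ℚ) ^ (p + 2) = x at *
    generalize (1 / 19 : ℚ) ^ (p + 2) = y at *
    generalize (-1 : ℚ) ^ (p + 2) = s
    linear_combination (19 ^ 4 * ((19 ^ 2 + (1 / 19) ^ 2) ^ 2 - 1)) * e1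
  · have f1 : (19 : ℚ) ^ (3 * p + 6) = (19 ^ (p + 2)) ^ 3 := by ring
    have f2 : (19 : ℚ) ^ (4 * p + 4) = (19 ^ (p + 2)) ^ 4 / 19 ^ 4 := by
      rw [eq_div_iff (by positivity)]; ring
    rw [f1, f2]
    have e4 : ((19 : ℚ) ^ (p + 2)) ^ 3 * ((1 / 19) ^ (p + 2)) ^ 3 = 1 := by
      rw [← mul_pow, e1, one_pow]
    generalize (19 : ℚ) ^ (p + 2) = x at *
    generalize (1 / 19 : ℚ) ^ (p + 2) = y at *
    generalize (-1 : ℚ) ^ (p + 2) = s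
    linear_combination s * e4

theorem ndvd {x y : ℤ} (hx : ¬ (19 : ℤ) ∣ x) (hy : ¬ (19 : ℤ) ∣ y) : ¬ (19 : ℤ) ∣ x * y := by
  intro h
  rcases (by norm_num : Prime (19 : ℤ)).dvd_or_dvd h with h | h
  · exact hx h
  · exact hy h

theorem nd1 (p : ℕ) : ¬ (19 : ℤ) ∣ DD + (-1) ^ (p + 2) * 19 ^ (4 * p + 12) := by
  have e : (19 : ℤ) ^ (4 * p + 12) = 19 * 19 ^ (4 * p + 11) := by ring
  rw [e]
  generalize (19 : ℤ) ^ (4 * p + 11) = K
  unfold DD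
  rcases neg_one_pow_eq_or ℤ (p + 2) with h | h <;> rw [h] <;> norm_num <;> omega

theorem nd2 (p : ℕ) : ¬ (19 : ℤ) ∣ 19 ^ (4 * p + 4) * DD + (-1) ^ (p + 2) := by
  have e : (19 : ℤ) ^ (4 * p + 4) = 19 * 19 ^ (4 * p + 3) := by ring
  rw [e]
  generalize (19 : ℤ) ^ (4 * p + 3) = K
  unfold DD
  rcases neg_one_pow_eq_or ℤ (p + 2) with h | h <;> rw [h] <;> norm_num <;> omega

/-- `19 ^ N x` is an integer prime to `19` -/
def Exact (N : ℕ) (x : ℚ) : Prop := ∃ z : ℤ, ¬ (19 : ℤ) ∣ z ∧ (19 : ℚ) ^ N * x = z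

theorem Exact.mul {N M : ℕ} {x y : ℚ} (h : Exact N x) (h' : Exact M y) :
    Exact (N + M) (x * y) := by
  obtain ⟨z, hn, hz⟩ := h
  obtain ⟨z', hn', hz'⟩ := h'
  refine ⟨z * z', ndvd hn hn', ?_⟩
  push_cast
  rw [← hz, ← hz']
  ring

theorem Exact.not_int {N M : ℕ} {x : ℚ} (h : Exact N x) (hM : M < N) : ¬ Int19 M x := by
  rintro ⟨z', hz'⟩
  obtain ⟨z, hn, hz⟩ := h
  obtain ⟨d, rfl⟩ := Nat.exists_eq_add_of_lt hM
  refine hn ⟨19 ^ d * z', ?_⟩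
  have : (z : ℚ) = ((19 * (19 ^ d * z') : ℤ) : ℚ) := by
    push_cast
    rw [← hz, ← hz']
    ring
  exact_mod_cast this

/-- the square of the value of a circle -/
theorem exact_delta : Exact 4 ((((19 : ℚ) ^ 2 + (1 / 19) ^ 2)) ^ 2) :=
  ⟨(19 ^ 4 + 1) ^ 2, by norm_num, by push_cast; norm_num⟩

theorem exact_cancel {N M : ℕ} {x y : ℚ} (h : Exact (N + M) (x * y)) (h' : Exact M y) (K : ℕ)
    (hK : K < N) : ¬ Int19 K x := by
  intro h1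
  obtain ⟨z, _, hz⟩ := h'
  exact h.not_int (by omega) (h1.mul ⟨z, hz⟩)

theorem exact_T (p : ℕ) : Exact (4 * p + 12) (Tn (19 : ℚ) (1 / 19) (p + 2) *
    Tn (1 / 19 : ℚ) 19 (p + 2)) := by
  obtain ⟨h1, h2⟩ := Tn_vals p
  have := Exact.mul ⟨_, nd1 p, h1⟩ ⟨_, nd2 p, h2⟩
  rwa [show p + 6 + (3 * p + 6) = 4 * p + 12 by ring] at this

theorem hd1 : (19 : ℚ) ^ 2 + (1 / 19) ^ 2 ≠ 0 := by norm_num

theorem hd2 : (1 / 19 : ℚ) ^ 2 + 19 ^ 2 ≠ 0 := by norm_num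

theorem pow_neg_even (x : ℚ) (t : ℕ) : (-x ^ 3) ^ (2 * t) = (x ^ t) ^ 6 := by
  rw [pow_mul, neg_sq, ← pow_mul, ← pow_mul, ← pow_mul]
  congr 1
  ring

theorem inv_pow19 (t : ℕ) : (1 / 19 : ℚ) ^ t = ((19 : ℚ) ^ t)⁻¹ := by
  rw [one_div, inv_pow]

/-- negative twists -/
theorem exact_neg (t l : ℕ) : Exact (8 * t + 8 * l + 24) ((((19 : ℚ) ^ 2 + (1 / 19) ^ 2)) ^ 2 *
    Q (Dk (2 * (t + 1)) .neg (2 * (l + 1)))) := by
  have h1 := bk_Dk_neg (a := (19 : ℚ)) (b := 1 / 19) (by norm_num) hd1 (2 * (t + 1)) (2 * (l + 1))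
  have h2 := bk_Dk_neg (a := (1 / 19 : ℚ)) (b := 19) (by norm_num) hd2 (2 * (t + 1)) (2 * (l + 1))
  have g1 : Exact (2 * t + 6 * l + 12) (((19 : ℚ) ^ 2 + (1 / 19) ^ 2) *
      bk 19 (1 / 19) (Dk (2 * (t + 1)) .neg (2 * (l + 1)))) := by
    refine ⟨DD * (1 - 19 ^ (8 * l + 8)) + 19 ^ (8 * t + 8) * (19 ^ (8 * l + 8) * DD + 19 ^ 4), ?_, ?_⟩
    · have e : DD * (1 - 19 ^ (8 * l + 8)) + 19 ^ (8 * t + 8) * (19 ^ (8 * l + 8) * DD + 19 ^ 4) =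
        19 * (-DD * 19 ^ (8 * l + 7) + 19 ^ (8 * t + 7) * (19 ^ (8 * l + 8) * DD + 19 ^ 4)) + DD := by
        ring
      rw [e]
      generalize -DD * 19 ^ (8 * l + 7) + 19 ^ (8 * t + 7) * (19 ^ (8 * l + 8) * DD + 19 ^ 4) = L
      unfold DD
      norm_num
    · rw [h1, Vl, pow_neg_even, pow_neg_even]
      unfold DD
      push_cast
      have f1 : (19 : ℚ) ^ (2 * t + 6 * l + 12) = (19 ^ (t + 1)) ^ 2 * (19 ^ (l + 1)) ^ 6 * 19 ^ 4 := by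
        ring
      have f2 : (19 : ℚ) ^ (8 * l + 8) = (19 ^ (l + 1)) ^ 8 := by ring
      have f3 : (19 : ℚ) ^ (8 * t + 8) = (19 ^ (t + 1)) ^ 8 := by ring
      have f4 : (19 : ℚ) ^ (2 * (l + 1)) = (19 ^ (l + 1)) ^ 2 := by ring
      have f5 : (1 / 19 : ℚ) ^ (2 * (t + 1)) = ((19 ^ (t + 1)) ^ 2)⁻¹ := by
        rw [inv_pow19, ← pow_mul, mul_comm (t + 1) 2]
      rw [f1, f2, f3, f4, f5, inv_pow19 (l + 1)]
      have hx : (19 : ℚ) ^ (t + 1) ≠ 0 := by positivity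
      have hy : (19 : ℚ) ^ (l + 1) ≠ 0 := by positivity
      generalize (19 : ℚ) ^ (t + 1) = x at *
      generalize (19 : ℚ) ^ (l + 1) = y at *
      field_simp
      ring
  have g2 : Exact (6 * t + 2 * l + 12) (((19 : ℚ) ^ 2 + (1 / 19) ^ 2) *
      bk (1 / 19) 19 (Dk (2 * (t + 1)) .neg (2 * (l + 1)))) := by
    refine ⟨19 ^ (8 * t + 8) * DD * (19 ^ (8 * l + 8) - 1) + (DD + 19 ^ (8 * l + 12)), ?_, ?_⟩
    · have e : 19 ^ (8 * t + 8) * DD * (19 ^ (8 * l + 8) - 1) + (DD + 19 ^ (8 * l + 12)) =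
        19 * (19 ^ (8 * t + 7) * DD * (19 ^ (8 * l + 8) - 1) + 19 ^ (8 * l + 11)) + DD := by
        ring
      rw [e]
      generalize 19 ^ (8 * t + 7) * DD * (19 ^ (8 * l + 8) - 1) + 19 ^ (8 * l + 11) = L
      unfold DD
      norm_num
    · rw [add_comm ((19 : ℚ) ^ 2), h2, Vl, pow_neg_even, pow_neg_even]
      unfold DD
      push_cast
      have f1 : (19 : ℚ) ^ (6 * t + 2 * l + 12) = (19 ^ (t + 1)) ^ 6 * (19 ^ (l + 1)) ^ 2 * 19 ^ 4 := by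
        ring
      have f2 : (19 : ℚ) ^ (8 * l + 8) = (19 ^ (l + 1)) ^ 8 := by ring
      have f3 : (19 : ℚ) ^ (8 * t + 8) = (19 ^ (t + 1)) ^ 8 := by ring
      have f4 : (19 : ℚ) ^ (2 * (t + 1)) = (19 ^ (t + 1)) ^ 2 := by ring
      have f5 : (1 / 19 : ℚ) ^ (2 * (l + 1)) = ((19 ^ (l + 1)) ^ 2)⁻¹ := by
        rw [inv_pow19, ← pow_mul, mul_comm (l + 1) 2]
      have f6 : (19 : ℚ) ^ (8 * l + 12) = (19 ^ (l + 1)) ^ 8 * 19 ^ 4 := by ring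
      rw [f1, f2, f3, f4, f5, f6, inv_pow19 (t + 1)]
      have hx : (19 : ℚ) ^ (t + 1) ≠ 0 := by positivity
      have hy : (19 : ℚ) ^ (l + 1) ≠ 0 := by positivity
      generalize (19 : ℚ) ^ (t + 1) = x at *
      generalize (19 : ℚ) ^ (l + 1) = y at *
      field_simp
      ring
  have g3 := g1.mul g2
  rw [show 2 * t + 6 * l + 12 + (6 * t + 2 * l + 12) = 8 * t + 8 * l + 24 by ring] at g3
  unfold Q
  convert g3 using 1
  ring

/-- positive twists -/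
theorem exact_pos (t l : ℕ) : Exact (8 * t + 8 * l + 20) ((((19 : ℚ) ^ 2 + (1 / 19) ^ 2)) ^ 2 *
    Q (Dk (2 * (t + 1)) .pos (2 * (l + 1)))) := by
  have h1 := bk_Dk_pos (a := (19 : ℚ)) (b := 1 / 19) (by norm_num) hd1 (2 * (t + 1)) (2 * (l + 1))
  have h2 := bk_Dk_pos (a := (1 / 19 : ℚ)) (b := 19) (by norm_num) hd2 (2 * (t + 1)) (2 * (l + 1))
  have g1 : Exact (6 * t + 6 * l + 12) (((19 : ℚ) ^ 2 + (1 / 19) ^ 2) *
      bk 19 (1 / 19) (Dk (2 * (t + 1)) .pos (2 * (l + 1)))) := by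
    refine ⟨19 ^ (8 * t + 4) * DD * (1 - 19 ^ (8 * l + 8)) + 19 ^ (8 * l + 4) * DD + 1, ?_, ?_⟩
    · have e : 19 ^ (8 * t + 4) * DD * (1 - 19 ^ (8 * l + 8)) + 19 ^ (8 * l + 4) * DD + 1 =
        19 * (19 ^ (8 * t + 3) * DD * (1 - 19 ^ (8 * l + 8)) + 19 ^ (8 * l + 3) * DD) + 1 := by
        ring
      rw [e]
      generalize 19 ^ (8 * t + 3) * DD * (1 - 19 ^ (8 * l + 8)) + 19 ^ (8 * l + 3) * DD = L
      omega
    · rw [h1, Vl, pow_neg_even, pow_neg_even]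
      unfold DD
      push_cast
      have f1 : (19 : ℚ) ^ (6 * t + 6 * l + 12) = (19 ^ (t + 1)) ^ 6 * (19 ^ (l + 1)) ^ 6 := by
        ring
      have f2 : (19 : ℚ) ^ (8 * l + 8) = (19 ^ (l + 1)) ^ 8 := by ring
      have f3 : (19 : ℚ) ^ (8 * t + 4) = (19 ^ (t + 1)) ^ 8 / 19 ^ 4 := by
        rw [eq_div_iff (by positivity)]; ring
      have f4 : (19 : ℚ) ^ (2 * (l + 1)) = (19 ^ (l + 1)) ^ 2 := by ring
      have f5 : (19 : ℚ) ^ (2 * (t + 1)) = (19 ^ (t + 1)) ^ 2 := by ring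
      have f6 : (19 : ℚ) ^ (8 * l + 4) = (19 ^ (l + 1)) ^ 8 / 19 ^ 4 := by
        rw [eq_div_iff (by positivity)]; ring
      rw [f1, f2, f3, f4, f5, f6, inv_pow19 (l + 1), inv_pow19 (t + 1)]
      have hx : (19 : ℚ) ^ (t + 1) ≠ 0 := by positivity
      have hy : (19 : ℚ) ^ (l + 1) ≠ 0 := by positivity
      generalize (19 : ℚ) ^ (t + 1) = x at *
      generalize (19 : ℚ) ^ (l + 1) = y at *
      field_simp
      ring
  have g2 : Exact (2 * t + 2 * l + 8) (((19 : ℚ) ^ 2 + (1 / 19) ^ 2) *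
      bk (1 / 19) 19 (Dk (2 * (t + 1)) .pos (2 * (l + 1)))) := by
    refine ⟨DD * (19 ^ (8 * l + 8) - 1) + 19 ^ (8 * t + 8) * (DD + 19 ^ (8 * l + 12)), ?_, ?_⟩
    · have e : DD * (19 ^ (8 * l + 8) - 1) + 19 ^ (8 * t + 8) * (DD + 19 ^ (8 * l + 12)) =
        19 * (DD * 19 ^ (8 * l + 7) + 19 ^ (8 * t + 7) * (DD + 19 ^ (8 * l + 12))) - DD := by
        ring
      rw [e]
      generalize DD * 19 ^ (8 * l + 7) + 19 ^ (8 * t + 7) * (DD + 19 ^ (8 * l + 12)) = L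
      unfold DD
      norm_num
      omega
    · rw [add_comm ((19 : ℚ) ^ 2), h2, Vl, pow_neg_even, pow_neg_even]
      unfold DD
      push_cast
      have f1 : (19 : ℚ) ^ (2 * t + 2 * l + 8) = (19 ^ (t + 1)) ^ 2 * (19 ^ (l + 1)) ^ 2 * 19 ^ 4 := by
        ring
      have f2 : (19 : ℚ) ^ (8 * l + 8) = (19 ^ (l + 1)) ^ 8 := by ring
      have f3 : (19 : ℚ) ^ (8 * t + 8) = (19 ^ (t + 1)) ^ 8 := by ring
      have f4 : (1 / 19 : ℚ) ^ (2 * (t + 1)) = ((19 ^ (t + 1)) ^ 2)⁻¹ := by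
        rw [inv_pow19, ← pow_mul, mul_comm (t + 1) 2]
      have f5 : (1 / 19 : ℚ) ^ (2 * (l + 1)) = ((19 ^ (l + 1)) ^ 2)⁻¹ := by
        rw [inv_pow19, ← pow_mul, mul_comm (l + 1) 2]
      have f6 : (19 : ℚ) ^ (8 * l + 12) = (19 ^ (l + 1)) ^ 8 * 19 ^ 4 := by ring
      rw [f1, f2, f3, f4, f5, f6]
      have hx : (19 : ℚ) ^ (t + 1) ≠ 0 := by positivity
      have hy : (19 : ℚ) ^ (l + 1) ≠ 0 := by positivity
      generalize (19 : ℚ) ^ (t + 1) = x at *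
      generalize (19 : ℚ) ^ (l + 1) = y at *
      field_simp
      ring
  have g3 := g1.mul g2
  rw [show 6 * t + 6 * l + 12 + (2 * t + 2 * l + 8) = 8 * t + 8 * l + 20 by ring] at g3
  unfold Q
  convert g3 using 1
  ring

/-- the twist knots are not trivial -/
theorem Q_Dk {g : Gen} (hg : g = .pos ∨ g = .neg) (t l : ℕ) :
    ¬ Int19 4 (Q (Dk (2 * (t + 1)) g (2 * (l + 1)))) := by
  rcases hg with rfl | rfl
  · have h := exact_pos t l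
    rw [mul_comm ((((19 : ℚ) ^ 2 + (1 / 19) ^ 2)) ^ 2), show 8 * t + 8 * l + 20 = (8 * t + 8 * l + 16) + 4 by ring] at h
    exact exact_cancel h exact_delta 4 (by omega)
  · have h := exact_neg t l
    rw [mul_comm ((((19 : ℚ) ^ 2 + (1 / 19) ^ 2)) ^ 2), show 8 * t + 8 * l + 24 = (8 * t + 8 * l + 20) + 4 by ring] at h
    exact exact_cancel h exact_delta 4 (by omega)

theorem Q_Kk_eq (n : ℕ) {g : Gen} (hg : g = .pos ∨ g = .neg) (l m : ℕ) :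
    (((19 : ℚ) ^ 2 + (1 / 19) ^ 2)) ^ 2 * Q (Kk n g l m) =
      Tn (19 : ℚ) (1 / 19) m * Tn (1 / 19 : ℚ) 19 m * Q (Dk n g l) := by
  have h1 := bk_Kk (a := (19 : ℚ)) (b := 1 / 19) (by norm_num) n hg l m
  have h2 := bk_Kk (a := (1 / 19 : ℚ)) (b := 19) (by norm_num) n hg l m
  unfold Q
  linear_combination (((1 / 19 : ℚ) ^ 2 + 19 ^ 2) * bk (1 / 19) 19 (Kk n g l m)) * h1 +
    (Tn (19 : ℚ) (1 / 19) m * bk 19 (1 / 19) (Dk n g l)) * h2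

theorem Q_Kk_neg (t l p : ℕ) :
    ¬ Int19 (4 * ((p + 2) + 2 * (l + 1) + 2 * (t + 1))) (Q (Kk (2 * (t + 1)) .neg (2 * (l + 1))
      (p + 2))) := by
  have h1 := (exact_T p).mul (exact_neg t l)
  have h2 := Q_Kk_eq (2 * (t + 1)) (Or.inr rfl) (2 * (l + 1)) (p + 2)
  have h3 : Exact ((4 * p + 8 * t + 8 * l + 28) + (4 + 4)) (Q (Kk (2 * (t + 1)) .neg (2 * (l + 1))
      (p + 2)) * ((((19 : ℚ) ^ 2 + (1 / 19) ^ 2)) ^ 2 * (((19 : ℚ) ^ 2 + (1 / 19) ^ 2)) ^ 2)) := by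
    convert h1 using 1
    · ring
    · linear_combination (((19 : ℚ) ^ 2 + (1 / 19) ^ 2)) ^ 2 * h2
  exact exact_cancel h3 (exact_delta.mul exact_delta) _ (by omega)

theorem Q_Kk_pos (t l p : ℕ) :
    ¬ Int19 (4 * ((p + 2) + 2 * (l + 1) + 2 * t + 1)) (Q (Kk (2 * (t + 1)) .pos (2 * (l + 1))
      (p + 2))) := by
  have h1 := (exact_T p).mul (exact_pos t l)
  have h2 := Q_Kk_eq (2 * (t + 1)) (Or.inl rfl) (2 * (l + 1)) (p + 2)
  have h3 : Exact ((4 * p + 8 * t + 8 * l + 24) + (4 + 4)) (Q (Kk (2 * (t + 1)) .pos (2 * (l + 1))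
      (p + 2)) * ((((19 : ℚ) ^ 2 + (1 / 19) ^ 2)) ^ 2 * (((19 : ℚ) ^ 2 + (1 / 19) ^ 2)) ^ 2)) := by
    convert h1 using 1
    · ring
    · linear_combination (((19 : ℚ) ^ 2 + (1 / 19) ^ 2)) ^ 2 * h2
  exact exact_cancel h3 (exact_delta.mul exact_delta) _ (by omega)

theorem Q_D0 (l : ℕ) : Q (Dk 0 .neg (2 * l)) = (((19 : ℚ) ^ 2 + (1 / 19) ^ 2)) ^ 2 := by
  have h1 := bk_v1 (a := (19 : ℚ)) (b := 1 / 19) (by norm_num) (2 * l)
  have h2 := bk_v1 (a := (1 / 19 : ℚ)) (b := 19) (by norm_num) (2 * l)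
  have h3 : bk (19 : ℚ) (1 / 19) (Dk 0 .neg (2 * l)) =
      (-(1 / 19) ^ 3) ^ (2 * l) * (19 ^ 2 + (1 / 19) ^ 2) := by
    apply mul_left_cancel₀ hd1
    rw [show bk (19 : ℚ) (1 / 19) (Dk 0 .neg (2 * l)) = bk 19 (1 / 19) ([(0, .cup), (0, .cup)] ++
      (List.replicate (2 * l) (2, .pos) ++ [(1, .cap), (0, .cap)])) from rfl, h1]
    ring
  have h4 : bk (1 / 19 : ℚ) 19 (Dk 0 .neg (2 * l)) =
      (-19 ^ 3) ^ (2 * l) * ((1 / 19) ^ 2 + 19 ^ 2) := by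
    apply mul_left_cancel₀ hd2
    rw [show bk (1 / 19 : ℚ) 19 (Dk 0 .neg (2 * l)) = bk (1 / 19) 19 ([(0, .cup), (0, .cup)] ++
      (List.replicate (2 * l) (2, .pos) ++ [(1, .cap), (0, .cap)])) from rfl, h2]
    ring
  unfold Q
  rw [h3, h4]
  have e : (-(1 / 19 : ℚ) ^ 3) ^ (2 * l) * (-19 ^ 3) ^ (2 * l) = 1 := by
    rw [← mul_pow]; norm_num
  linear_combination (((19 : ℚ) ^ 2 + (1 / 19) ^ 2)) ^ 2 * e

theorem Q_Kk_zero (l p : ℕ) : ¬ Int19 (4 * (p + 2)) (Q (Kk 0 .neg (2 * l) (p + 2))) := by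
  have h2 := Q_Kk_eq 0 (Or.inr rfl) (2 * l) (p + 2)
  rw [Q_D0, mul_comm] at h2
  have h3 := mul_right_cancel₀ (pow_ne_zero 2 hd1) h2
  rw [h3]
  exact (exact_T p).not_int (by omega)

end Pool.Agent.Helper35.Skl
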